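import Mathlib

/-!
Definitions for the problem on asymptotic error constants for i.i.d. uniform sampling.
The space `ℝ^d` is `Fin d → ℝ` with Lebesgue measure.
-/

open MeasureTheory Set Filter Topology
open scoped ENNReal

namespace Pool.Agent.Lib.MP_961271_an

/-- The `i`-th partial derivative of `φ : ℝ^d → ℝ`. -/
noncomputable def pderiv {d : ℕ} (i : Fin d) (φ : (Fin d → ℝ) → ℝ) : (Fin d → ℝ) → ℝ :=
  fun x => fderiv ℝ φ x (Pi.single i 1)

/-- The partial derivative `D^α φ = ∂_0^(α 0) ∂_1^(α 1) ⋯ φ` of a (smooth) function. -/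
noncomputable def mderiv {d : ℕ} (α : Fin d → ℕ) (φ : (Fin d → ℝ) → ℝ) : (Fin d → ℝ) → ℝ :=
  (List.finRange d).foldr (fun i ψ => (pderiv i)^[α i] ψ) φ

/-- The multi-indices `α` with `|α| ≤ s`. -/
def multiIdx (d s : ℕ) : Finset (Fin d → ℕ) :=
  (Fintype.piFinset fun _ => Finset.range (s + 1)).filter (fun α => ∑ i, α i ≤ s)

/-- Test functions: smooth functions with compact support contained in `D`. -/
def IsTest {d : ℕ} (D : Set (Fin d → ℝ)) (φ : (Fin d → ℝ) → ℝ) : Prop :=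
  ContDiff ℝ ((⊤ : ℕ∞) : WithTop ℕ∞) φ ∧ HasCompactSupport φ ∧ tsupport φ ⊆ D

/-- `g` is a weak derivative `D^α f` on `D`. -/
def IsWeakDeriv {d : ℕ} (D : Set (Fin d → ℝ)) (α : Fin d → ℕ) (f g : (Fin d → ℝ) → ℝ) : Prop :=
  ∀ φ : (Fin d → ℝ) → ℝ, IsTest D φ →
    ∫ x in D, f x * mderiv α φ x = (-1) ^ (∑ i, α i) * ∫ x in D, g x * φ x

/-- The Sobolev norm computed from the family `g α = D^α f`, `|α| ≤ s`:
`(∑_{|α| ≤ s} ‖D^α f‖_{L_p(D)}^p)^(1/p)`, with the maximum of the norms if `p = ∞`. -/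
noncomputable def sobNorm {d : ℕ} (D : Set (Fin d → ℝ)) (s : ℕ) (p : ℝ≥0∞)
    (g : (Fin d → ℕ) → (Fin d → ℝ) → ℝ) : ℝ≥0∞ :=
  if p = ∞ then ⨆ α ∈ multiIdx d s, eLpNorm (g α) ∞ (volume.restrict D)
  else (∑ α ∈ multiIdx d s, eLpNorm (g α) p (volume.restrict D) ^ p.toReal) ^ (1 / p.toReal)

/-- The unit ball of `W_p^s(D)`, consisting of the continuous representatives:
`f` is continuous on `D` and has weak derivatives `g α ∈ L_p(D)`, `|α| ≤ s`, with
Sobolev norm at most one. -/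
def UnitBall {d : ℕ} (D : Set (Fin d → ℝ)) (s : ℕ) (p : ℝ≥0∞) : Set ((Fin d → ℝ) → ℝ) :=
  {f | ContinuousOn f D ∧ ∃ g : (Fin d → ℕ) → (Fin d → ℝ) → ℝ, g 0 = f ∧
    (∀ α ∈ multiIdx d s, MemLp (g α) p (volume.restrict D) ∧ IsWeakDeriv D α f (g α)) ∧
    sobNorm D s p g ≤ 1}

/-- The interior cone condition (with closed cones of fixed height `r` and opening angle `θ`,
described with the Euclidean inner product). -/
def ConeCondition {d : ℕ} (D : Set (Fin d → ℝ)) : Prop :=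
  ∃ r > (0 : ℝ), ∃ θ ∈ Ioo (0 : ℝ) (Real.pi / 2), ∀ x ∈ D, ∃ ξ : Fin d → ℝ, ∑ i, ξ i ^ 2 = 1 ∧
    ∀ y : Fin d → ℝ, ∑ i, y i ^ 2 = 1 → Real.cos θ ≤ ∑ i, y i * ξ i →
      ∀ t ∈ Icc (0 : ℝ) r, x + t • y ∈ D

/-- Admissible domains: nonempty, open, bounded, with the interior cone condition. -/
def Admissible {d : ℕ} (D : Set (Fin d → ℝ)) : Prop :=
  D.Nonempty ∧ IsOpen D ∧ Bornology.IsBounded D ∧ ConeCondition D

/-- The uniform distribution on `D`. -/
noncomputable def unif {d : ℕ} (D : Set (Fin d → ℝ)) : Measure (Fin d → ℝ) :=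
  (volume D)⁻¹ • volume.restrict D

/-- The upper integral of a not necessarily measurable function. -/
noncomputable def upperInt {Ω : Type} [MeasurableSpace Ω] (μ : Measure Ω) (F : Ω → ℝ≥0∞) : ℝ≥0∞ :=
  ⨅ (g : Ω → ℝ≥0∞) (_ : Measurable g) (_ : ∀ ω, F ω ≤ g ω), ∫⁻ ω, g ω ∂μ

/-- An algorithm using `n` independent points `X ω 0, …, X ω (n-1)`, uniformly distributed on `D`:
a probability space carrying the points and a random mapping `Φ ω : ℝ^n → L_q(D)`.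
The output for the input `f` is `Φ ω (f (X ω 0), …, f (X ω (n-1)))`. -/
structure Alg {d : ℕ} (D : Set (Fin d → ℝ)) (q : ℝ≥0∞) (n : ℕ) where
  /-- the sample space -/
  Ω : Type
  /-- its sigma-algebra -/
  mΩ : MeasurableSpace Ω
  /-- its probability measure -/
  μ : @Measure Ω mΩ
  /-- it is a probability measure -/
  hμ : @IsProbabilityMeasure Ω mΩ μ
  /-- the random points -/
  X : Ω → Fin n → (Fin d → ℝ)
  /-- they are random variables -/
  hX : @Measurable _ _ mΩ _ X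
  /-- they are independent and uniformly distributed on `D` -/
  law : @Measure.map _ _ mΩ _ X μ = Measure.pi (fun _ : Fin n => unif D)
  /-- the random mapping -/
  Φ : Ω → (Fin n → ℝ) → (Fin d → ℝ) → ℝ
  /-- its values are in `L_q(D)` -/
  hΦ : ∀ ω y, MemLp (Φ ω y) q (volume.restrict D)

/-- The `L_q(D)`-error of the algorithm `A` at the input `f`, for the outcome `ω`. -/
noncomputable def Alg.err {d : ℕ} {D : Set (Fin d → ℝ)} {q : ℝ≥0∞} {n : ℕ} (A : Alg D q n)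
    (f : (Fin d → ℝ) → ℝ) (ω : A.Ω) : ℝ≥0∞ :=
  eLpNorm (fun z => f z - A.Φ ω (fun i => f (A.X ω i)) z) q (volume.restrict D)

/-- The two error criteria. -/
inductive Crit : Type
  | ran : Crit
  | unif : Crit

/-- The error of an algorithm: for `Crit.ran` the Monte Carlo error
`sup_f E ‖f - A(f)‖`, for `Crit.unif` the uniform error `E sup_f ‖f - A(f)‖`. -/
noncomputable def Alg.error {d : ℕ} {D : Set (Fin d → ℝ)} {q : ℝ≥0∞} {n : ℕ} (A : Alg D q n)
    (c : Crit) (s : ℕ) (p : ℝ≥0∞) : ℝ≥0∞ :=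
  letI := A.mΩ
  match c with
  | Crit.ran => ⨆ f ∈ UnitBall D s p, upperInt A.μ (fun ω => A.err f ω)
  | Crit.unif => upperInt A.μ (fun ω => ⨆ f ∈ UnitBall D s p, A.err f ω)

/-- The minimal error `e(P_n)` of algorithms based on `n` i.i.d. uniform points. -/
noncomputable def minErr {d : ℕ} (c : Crit) (D : Set (Fin d → ℝ)) (s : ℕ) (p q : ℝ≥0∞)
    (n : ℕ) : ℝ≥0∞ :=
  ⨅ A : Alg D q n, A.error c s p

/-- The exponent `s/d - (1/p - 1/q)_+`. -/
noncomputable def expo (d s : ℕ) (p q : ℝ≥0∞) : ℝ :=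
  (s : ℝ) / d - max ((p⁻¹).toReal - (q⁻¹).toReal) 0

/-- The normalised sequence `e(P_n) n^(s/d - (1/p - 1/q)_+)`. -/
noncomputable def normErr {d : ℕ} (c : Crit) (D : Set (Fin d → ℝ)) (s : ℕ) (p q : ℝ≥0∞)
    (n : ℕ) : ℝ≥0∞ :=
  minErr c D s p q n * ENNReal.ofReal ((n : ℝ) ^ expo d s p q)

/-- The parameters which are in scope. -/
def InScope (d s : ℕ) (p q : ℝ≥0∞) (c : Crit) : Prop :=
  1 ≤ d ∧ 1 ≤ p ∧ 1 ≤ q ∧ ((d : ℝ≥0∞) / p < s ∨ (p = 1 ∧ s = d)) ∧
    match c with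
    | Crit.ran => ¬ (p = ∞ ∧ q = ∞)
    | Crit.unif => q < p

end Pool.Agent.Lib.MP_961271_an
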