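import Pool.Agent.Lib.MP_961271_an.Teeth

section
open MeasureTheory Set Filter Topology
open scoped ENNReal

namespace Pool.Agent.Lib.MP_961271_an

variable {d : ℕ}

theorem integral_test {D : Set (Fin d → ℝ)} {F φ : (Fin d → ℝ) → ℝ} (hφ : IsTest D φ) :
    ∫ x in D, F x * φ x = ∫ x, F x * φ x := by
  apply setIntegral_eq_integral_of_forall_compl_eq_zero
  intro x hx
  rw [image_eq_zero_of_notMem_tsupport fun h => hx (hφ.2.2 h), mul_zero]

theorem smooth_weak1 {D : Set (Fin d → ℝ)} {F φ : (Fin d → ℝ) → ℝ}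
    (hF : ContDiff ℝ ((⊤ : ℕ∞) : WithTop ℕ∞) F) (hφ : IsTest D φ) (i : Fin d) :
    ∫ x in D, F x * pderiv i φ x = - ∫ x in D, pderiv i F x * φ x := by
  rw [integral_test hφ, integral_test (pderiv_isTest hφ i)]
  have hcont : Continuous (pderiv i F) := (pderiv_smooth hF i).continuous
  have hcontφ : Continuous (pderiv i φ) := (pderiv_smooth hφ.1 i).continuous
  refine integral_mul_fderiv_eq_neg_fderiv_mul_of_integrable ?_ ?_ ?_ ?_ ?_
  · exact (hcont.mul hφ.1.continuous).integrable_of_hasCompactSupport hφ.2.1.mul_left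
  · exact (hF.continuous.mul hcontφ).integrable_of_hasCompactSupport
      (pderiv_isTest hφ i).2.1.mul_left
  · exact (hF.continuous.mul hφ.1.continuous).integrable_of_hasCompactSupport hφ.2.1.mul_left
  · intro x _
    exact (hF.differentiable (by simp)) x
  · intro x _
    exact (hφ.1.differentiable (by simp)) x

theorem smooth_weak_22 {D : Set (Fin 2 → ℝ)} {F : (Fin 2 → ℝ) → ℝ}
    (hF : ContDiff ℝ ((⊤ : ℕ∞) : WithTop ℕ∞) F) :
    ∀ α ∈ multiIdx 2 2, IsWeakDeriv D α F (mderiv α F) := by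
  intro α hα
  rw [multiIdx_22] at hα
  simp only [Finset.mem_insert, Finset.mem_singleton] at hα
  rcases hα with rfl | rfl | rfl | rfl | rfl | rfl
  · intro φ hφ
    have e : ∀ ψ : (Fin 2 → ℝ) → ℝ, mderiv (![0, 0] : Fin 2 → ℕ) ψ = ψ := fun ψ => rfl
    rw [e, e]
    simp
  · intro φ hφ
    rw [mderiv_10, mderiv_10, smooth_weak1 hF hφ 0]
    simp [Fin.sum_univ_two]
  · intro φ hφ
    rw [mderiv_01, mderiv_01, smooth_weak1 hF hφ 1]
    simp [Fin.sum_univ_two]
  · intro φ hφ
    rw [mderiv_20, mderiv_20, smooth_weak1 hF (pderiv_isTest hφ 0) 0,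
      smooth_weak1 (pderiv_smooth hF 0) hφ 0]
    simp [Fin.sum_univ_two]
  · intro φ hφ
    rw [mderiv_11, mderiv_11, smooth_weak1 hF (pderiv_isTest hφ 1) 0,
      smooth_weak1 (pderiv_smooth hF 0) hφ 1, pderiv_comm hF 1 0]
    simp [Fin.sum_univ_two]
  · intro φ hφ
    rw [mderiv_02, mderiv_02, smooth_weak1 hF (pderiv_isTest hφ 1) 1,
      smooth_weak1 (pderiv_smooth hF 1) hφ 1]
    simp [Fin.sum_univ_two]

/-- derivatives of a function of the first coordinate -/
theorem pderiv_zero_fst {H : ℝ → ℝ} (hH : ContDiff ℝ ((⊤ : ℕ∞) : WithTop ℕ∞) H) :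
    pderiv 0 (fun x : Fin 2 → ℝ => H (x 0)) = fun x => deriv H (x 0) := by
  funext x
  have h1 : HasFDerivAt (fun x : Fin 2 → ℝ => x 0)
      (ContinuousLinearMap.proj (R := ℝ) (φ := fun _ : Fin 2 => ℝ) 0) x := hasFDerivAt_apply 0 x
  have h2 : HasDerivAt H (deriv H (x 0)) (x 0) := ((hH.differentiable (by simp)) _).hasDerivAt
  have h3 := h2.hasFDerivAt.comp x h1
  have h4 : fderiv ℝ (fun x : Fin 2 → ℝ => H (x 0)) x = _ := h3.fderiv
  unfold pderiv
  rw [h4]
  simp

theorem pderiv_one_fst {H : ℝ → ℝ} (hH : ContDiff ℝ ((⊤ : ℕ∞) : WithTop ℕ∞) H) :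
    pderiv 1 (fun x : Fin 2 → ℝ => H (x 0)) = fun _ => 0 := by
  funext x
  have h1 : HasFDerivAt (fun x : Fin 2 → ℝ => x 0)
      (ContinuousLinearMap.proj (R := ℝ) (φ := fun _ : Fin 2 => ℝ) 0) x := hasFDerivAt_apply 0 x
  have h2 : HasDerivAt H (deriv H (x 0)) (x 0) := ((hH.differentiable (by simp)) _).hasDerivAt
  have h3 := h2.hasFDerivAt.comp x h1
  have h4 : fderiv ℝ (fun x : Fin 2 → ℝ => H (x 0)) x = _ := h3.fderiv
  unfold pderiv
  rw [h4]
  simp

theorem pderiv_zero_fun (i : Fin 2) : pderiv i (fun _ : Fin 2 → ℝ => (0 : ℝ)) = fun _ => 0 := by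
  funext x
  simp [pderiv]

theorem smooth_deriv {H : ℝ → ℝ} (hH : ContDiff ℝ ((⊤ : ℕ∞) : WithTop ℕ∞) H) :
    ContDiff ℝ ((⊤ : ℕ∞) : WithTop ℕ∞) (deriv H) := (contDiff_infty_iff_deriv.1 hH).2

/-- A function of the first coordinate in the unit ball of `W_1^2`. -/
theorem mem_unitBall_fst {D : Set (Fin 2 → ℝ)} (hDb : volume D ≠ ⊤)
    {H : ℝ → ℝ} (hH : ContDiff ℝ ((⊤ : ℕ∞) : WithTop ℕ∞) H) {δ : ℝ}
    (hz : ∀ t, δ ≤ t → H t = 0) {v B0 B1 B2 : ℝ} (hv : (volume (D ∩ {x | x 0 < δ})).toReal ≤ v)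
    (hB0 : ∀ t, |H t| ≤ B0) (hB1 : ∀ t, |deriv H t| ≤ B1) (hB2 : ∀ t, |deriv (deriv H) t| ≤ B2)
    (hsum : (B0 + B1 + B2) * v ≤ 1) :
    (fun x : Fin 2 → ℝ => H (x 0)) ∈ UnitBall D 2 1 := by
  set F : (Fin 2 → ℝ) → ℝ := fun x => H (x 0) with hF
  have hFs : ContDiff ℝ ((⊤ : ℕ∞) : WithTop ℕ∞) F := hH.comp (contDiff_apply ℝ ℝ 0)
  -- derivatives vanish as well
  have hz1 : ∀ t, δ < t → deriv H t = 0 := by
    intro t ht
    have : H =ᶠ[𝓝 t] fun _ => 0 := by
      filter_upwards [Ioi_mem_nhds ht] with s hs using hz s (le_of_lt hs)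
    rw [this.deriv_eq]
    simp
  have hz2 : ∀ t, δ < t → deriv (deriv H) t = 0 := by
    intro t ht
    have : deriv H =ᶠ[𝓝 t] fun _ => 0 := by
      filter_upwards [Ioi_mem_nhds ht] with s hs using hz1 s hs
    rw [this.deriv_eq]
    simp
  have hz1' : ∀ t, δ ≤ t → deriv H t = 0 := by
    intro t ht
    rcases ht.eq_or_lt with rfl | h
    · have hc : Continuous (deriv H) := (smooth_deriv hH).continuous
      have h1 : Tendsto (deriv H) (𝓝[>] δ) (𝓝 (deriv H δ)) :=
        (hc.tendsto δ).mono_left nhdsWithin_le_nhds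
      have h2 : Tendsto (deriv H) (𝓝[>] δ) (𝓝 0) := by
        refine tendsto_const_nhds.congr' ?_
        filter_upwards [self_mem_nhdsWithin] with s hs using (hz1 s hs).symm
      exact tendsto_nhds_unique h1 h2
    · exact hz1 t h
  have hz2' : ∀ t, δ ≤ t → deriv (deriv H) t = 0 := by
    intro t ht
    rcases ht.eq_or_lt with rfl | h
    · have hc : Continuous (deriv (deriv H)) := (smooth_deriv (smooth_deriv hH)).continuous
      have h1 : Tendsto (deriv (deriv H)) (𝓝[>] δ) (𝓝 (deriv (deriv H) δ)) :=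
        (hc.tendsto δ).mono_left nhdsWithin_le_nhds
      have h2 : Tendsto (deriv (deriv H)) (𝓝[>] δ) (𝓝 0) := by
        refine tendsto_const_nhds.congr' ?_
        filter_upwards [self_mem_nhdsWithin] with s hs using (hz2 s hs).symm
      exact tendsto_nhds_unique h1 h2
    · exact hz2 t h
  have d10 : mderiv (![1, 0] : Fin 2 → ℕ) F = fun x => deriv H (x 0) := pderiv_zero_fst hH
  have d01 : mderiv (![0, 1] : Fin 2 → ℕ) F = fun _ => 0 := pderiv_one_fst hH
  have d20 : mderiv (![2, 0] : Fin 2 → ℕ) F = fun x => deriv (deriv H) (x 0) := by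
    rw [mderiv_20, pderiv_zero_fst hH, pderiv_zero_fst (smooth_deriv hH)]
  have d11 : mderiv (![1, 1] : Fin 2 → ℕ) F = fun _ => 0 := by
    rw [mderiv_11, pderiv_one_fst hH, pderiv_zero_fun]
  have d02 : mderiv (![0, 2] : Fin 2 → ℕ) F = fun _ => 0 := by
    rw [mderiv_02, pderiv_one_fst hH, pderiv_zero_fun]
  have d00 : mderiv (![0, 0] : Fin 2 → ℕ) F = F := rfl
  have : IsFiniteMeasure (volume.restrict D) :=
    ⟨by rw [Measure.restrict_apply_univ]; exact lt_top_iff_ne_top.2 hDb⟩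
  -- a bound for the `L_1` norms
  have hL1 : ∀ (G : ℝ → ℝ) (B : ℝ), Continuous G → (∀ t, |G t| ≤ B) → (∀ t, δ ≤ t → G t = 0) →
      MemLp (fun x : Fin 2 → ℝ => G (x 0)) 1 (volume.restrict D) ∧
      eLpNorm (fun x : Fin 2 → ℝ => G (x 0)) 1 (volume.restrict D) ≤ ENNReal.ofReal (B * v) := by
    intro G B hG hGB hG0
    have hmeas : AEStronglyMeasurable (fun x : Fin 2 → ℝ => G (x 0)) (volume.restrict D) :=
      (hG.comp (continuous_apply 0)).aestronglyMeasurable
    have hB : 0 ≤ B := (abs_nonneg _).trans (hGB 0)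
    refine ⟨MemLp.of_bound hmeas B (Eventually.of_forall fun x => hGB (x 0)), ?_⟩
    rw [eLpNorm_one_eq_lintegral_enorm]
    calc ∫⁻ x in D, ‖G (x 0)‖ₑ
        ≤ ∫⁻ x in D, ({x : Fin 2 → ℝ | x 0 < δ}).indicator (fun _ => ENNReal.ofReal B) x := by
          refine lintegral_mono fun x => ?_
          by_cases hx : x 0 < δ
          · rw [indicator_of_mem (show x ∈ {x : Fin 2 → ℝ | x 0 < δ} from hx)]
            rw [Real.enorm_eq_ofReal_abs]
            exact ENNReal.ofReal_le_ofReal (hGB _)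
          · rw [hG0 _ (not_lt.1 hx)]
            simp
      _ = ENNReal.ofReal B * volume (D ∩ {x | x 0 < δ}) := by
          have hms : MeasurableSet {x : Fin 2 → ℝ | x 0 < δ} :=
            measurableSet_lt (measurable_pi_apply 0) measurable_const
          rw [lintegral_indicator hms, lintegral_const, Measure.restrict_restrict hms,
            Measure.restrict_apply_univ, inter_comm]
      _ ≤ ENNReal.ofReal B * ENNReal.ofReal v := by
          gcongr
          rw [← ENNReal.ofReal_toReal (measure_ne_top_of_subset inter_subset_left hDb)]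
          exact ENNReal.ofReal_le_ofReal hv
      _ = ENNReal.ofReal (B * v) := (ENNReal.ofReal_mul hB).symm
  have r0 := hL1 H B0 hH.continuous hB0 hz
  have r1 := hL1 (deriv H) B1 (smooth_deriv hH).continuous hB1 hz1'
  have r2 := hL1 (deriv (deriv H)) B2 (smooth_deriv (smooth_deriv hH)).continuous hB2 hz2'
  have hB0' : 0 ≤ B0 := (abs_nonneg _).trans (hB0 0)
  have hB1' : 0 ≤ B1 := (abs_nonneg _).trans (hB1 0)
  have hB2' : 0 ≤ B2 := (abs_nonneg _).trans (hB2 0)
  have hv0 : 0 ≤ v := ENNReal.toReal_nonneg.trans hv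
  refine ⟨hFs.continuous.continuousOn, fun α => mderiv α F, rfl, fun α hα => ⟨?_, ?_⟩, ?_⟩
  · rw [multiIdx_22] at hα
    simp only [Finset.mem_insert, Finset.mem_singleton] at hα
    rcases hα with rfl | rfl | rfl | rfl | rfl | rfl
    · show MemLp (mderiv _ F) 1 _
      rw [d00]; exact r0.1
    · show MemLp (mderiv _ F) 1 _
      rw [d10]; exact r1.1
    · show MemLp (mderiv _ F) 1 _
      rw [d01]; exact MemLp.zero
    · show MemLp (mderiv _ F) 1 _
      rw [d20]; exact r2.1
    · show MemLp (mderiv _ F) 1 _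
      rw [d11]; exact MemLp.zero
    · show MemLp (mderiv _ F) 1 _
      rw [d02]; exact MemLp.zero
  · exact smooth_weak_22 hFs α hα
  · unfold sobNorm
    rw [if_neg (by simp)]
    simp only [ENNReal.toReal_one, ENNReal.rpow_one, div_one]
    rw [multiIdx_22, Finset.sum_insert (by decide), Finset.sum_insert (by decide),
      Finset.sum_insert (by decide), Finset.sum_insert (by decide), Finset.sum_insert (by decide),
      Finset.sum_singleton, d00, d10, d01, d20, d11, d02]
    have hzero : eLpNorm (fun _ : Fin 2 → ℝ => (0 : ℝ)) 1 (volume.restrict D) = 0 :=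
      eLpNorm_zero'
    rw [hzero]
    simp only [zero_add, add_zero]
    calc _ ≤ ENNReal.ofReal (B0 * v) + (ENNReal.ofReal (B1 * v) + ENNReal.ofReal (B2 * v)) :=
          add_le_add r0.2 (add_le_add r1.2 r2.2)
      _ = ENNReal.ofReal ((B0 + B1 + B2) * v) := by
          rw [← ENNReal.ofReal_add (by positivity) (by positivity),
            ← ENNReal.ofReal_add (by positivity) (by positivity)]
          congr 1
          ring
      _ ≤ 1 := ENNReal.ofReal_le_one.2 hsum

end Pool.Agent.Lib.MP_961271_an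
end

section
open MeasureTheory Set Filter Topology
open scoped ENNReal

namespace Pool.Agent.Lib.MP_961271_an

theorem exists_profile : ∃ h : ℝ → ℝ, ContDiff ℝ ((⊤ : ℕ∞) : WithTop ℕ∞) h ∧
    (∀ t, 1 ≤ t → h t = 0) ∧ (∀ t ∈ Icc (0 : ℝ) (1 / 2), h t = 1) ∧ (∀ t, |h t| ≤ 1) ∧
    ∃ B : ℝ, 0 ≤ B ∧ (∀ t, |deriv h t| ≤ B) ∧ ∀ t, |deriv (deriv h) t| ≤ B := by
  let f : ContDiffBump (0 : ℝ) := ⟨1 / 2, 1, by norm_num, by norm_num⟩
  have hf : ContDiff ℝ ((⊤ : ℕ∞) : WithTop ℕ∞) (f : ℝ → ℝ) := f.contDiff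
  have hc : HasCompactSupport (f : ℝ → ℝ) := f.hasCompactSupport
  have hc1 : HasCompactSupport (deriv (f : ℝ → ℝ)) := hc.deriv
  have hc2 : HasCompactSupport (deriv (deriv (f : ℝ → ℝ))) := hc1.deriv
  obtain ⟨B1, hB1⟩ := (smooth_deriv hf).continuous.bounded_above_of_compact_support hc1
  obtain ⟨B2, hB2⟩ :=
    (smooth_deriv (smooth_deriv hf)).continuous.bounded_above_of_compact_support hc2
  refine ⟨f, hf, ?_, ?_, ?_, max B1 B2, ?_, ?_, ?_⟩
  · intro t ht
    apply f.zero_of_le_dist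
    show (1 : ℝ) ≤ dist t 0
    rw [Real.dist_eq, sub_zero]
    exact ht.trans (le_abs_self t)
  · intro t ht
    apply f.one_of_mem_closedBall
    rw [Metric.mem_closedBall, Real.dist_eq, sub_zero, abs_of_nonneg ht.1]
    exact ht.2
  · intro t
    rw [abs_of_nonneg f.nonneg]
    exact f.le_one
  · exact le_max_of_le_left ((norm_nonneg _).trans (hB1 0))
  · intro t; exact (hB1 t).trans (le_max_left _ _)
  · intro t; exact (hB2 t).trans (le_max_right _ _)

/-- Open parallelogram with a corner at the origin. -/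
def Par (a b : Fin 2 → ℝ) : Set (Fin 2 → ℝ) :=
  {x | ucoord a b x ∈ Ioo (0 : ℝ) 1 ∧ vcoord a b x ∈ Ioo (0 : ℝ) 1}

theorem par_eq_preimage (a b : Fin 2 → ℝ) :
    Par a b = (Matrix.toLin' (skewMat a b)) ⁻¹' (Set.univ.pi fun _ => Ioo (0 : ℝ) 1) := by
  refine Set.ext fun x => ?_
  rw [mem_preimage, skewMat_apply, mem_univ_pi, Fin.forall_fin_two]
  rfl

theorem volume_par {a b : Fin 2 → ℝ} (hdet : a 0 * b 1 - a 1 * b 0 ≠ 0) :
    volume (Par a b) = ENNReal.ofReal |a 0 * b 1 - a 1 * b 0| := by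
  have hdetM : (skewMat a b).det ≠ 0 := by
    rw [skewMat_det hdet]; exact inv_ne_zero hdet
  have hmap := Real.map_matrix_volume_pi_eq_smul_volume_pi hdetM
  have hc : Continuous (Matrix.toLin' (skewMat a b)) := LinearMap.continuous_of_finiteDimensional _
  have hS : MeasurableSet (Set.univ.pi fun _ : Fin 2 => Ioo (0 : ℝ) 1) :=
    MeasurableSet.univ_pi fun _ => measurableSet_Ioo
  rw [par_eq_preimage, ← Measure.map_apply hc.measurable hS, hmap, Measure.smul_apply,
    skewMat_det hdet, inv_inv, Real.volume_pi_Ioo]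
  simp

theorem par_admissible {a b : Fin 2 → ℝ} (hdet : a 0 * b 1 - a 1 * b 0 ≠ 0) :
    Admissible (Par a b) := by
  apply admissible_of_convex (by norm_num)
  · refine ⟨(1 / 2 : ℝ) • a + (1 / 2 : ℝ) • b, ?_, ?_⟩
    · rw [ucoord_lin hdet]; norm_num
    · rw [vcoord_lin hdet]; norm_num
  · exact (isOpen_Ioo.preimage (continuous_ucoord a b)).inter
      (isOpen_Ioo.preimage (continuous_vcoord a b))
  · rw [isBounded_iff_forall_norm_le]
    refine ⟨‖a‖ + ‖b‖, fun x hx => ?_⟩
    rw [← coord_repr hdet x]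
    refine (norm_add_le _ _).trans (add_le_add ?_ ?_)
    · rw [norm_smul, Real.norm_eq_abs, abs_of_pos hx.1.1]
      exact mul_le_of_le_one_left (norm_nonneg _) hx.1.2.le
    · rw [norm_smul, Real.norm_eq_abs, abs_of_pos hx.2.1]
      exact mul_le_of_le_one_left (norm_nonneg _) hx.2.2.le
  · rw [par_eq_preimage]
    exact (convex_pi fun i _ => convex_Ioo 0 1).linear_preimage (Matrix.toLin' (skewMat a b))

/-- Lower bound for the sharp parallelogram: a constant independent of `n`, of order `L^2`. -/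
theorem sharp_lower : ∃ c : ℝ, 0 < c ∧ ∀ L : ℝ, 1 ≤ L → ∀ n : ℕ,
    ENNReal.ofReal (c * L ^ 2) ≤ minErr Crit.ran (Par ![L, 0] ![L, L⁻¹]) 2 1 ∞ n := by
  obtain ⟨h, hh, hh0, hh1, hhb, B, hB, hB1, hB2⟩ := exists_profile
  refine ⟨(1 + 2 * B)⁻¹, by positivity, fun L hL n => ?_⟩
  have hL0 : 0 < L := by linarith
  set a : Fin 2 → ℝ := ![L, 0] with ha
  set b : Fin 2 → ℝ := ![L, L⁻¹] with hb
  have hdetv : a 0 * b 1 - a 1 * b 0 = 1 := by
    simp [ha, hb, hL0.ne']
  have hdet : a 0 * b 1 - a 1 * b 0 ≠ 0 := by rw [hdetv]; exact one_ne_zero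
  set P := Par a b with hP
  have hadm : Admissible P := par_admissible hdet
  have hvol : volume P = 1 := by rw [hP, volume_par hdet, hdetv]; simp
  set κ := (1 + 2 * B)⁻¹ * L ^ 2 with hκ
  have hκ0 : 0 < κ := by positivity
  have hu : ∀ x, ucoord a b x = x 0 / L - L * x 1 := by
    intro x
    unfold ucoord
    rw [hdetv]
    simp [ha, hb]
    ring
  have hv : ∀ x, vcoord a b x = L * x 1 := by
    intro x
    unfold vcoord
    rw [hdetv]
    simp [ha, hb]
  have hPx : ∀ x ∈ P, 0 < x 0 ∧ 0 < x 1 ∧ x 1 < x 0 / L ^ 2 := by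
    intro x hx
    obtain ⟨h1, h2⟩ := hx
    rw [hu] at h1
    rw [hv] at h2
    have h3 : 0 < x 1 := by
      exact (mul_pos_iff_of_pos_left hL0).1 h2.1
    have h4 : L * x 1 < x 0 / L := by linarith [h1.1]
    have h5 : x 1 < x 0 / L ^ 2 := by
      rw [lt_div_iff₀ (by positivity)]
      rw [lt_div_iff₀ hL0] at h4
      calc x 1 * L ^ 2 = L * x 1 * L := by ring
        _ < x 0 := h4
    refine ⟨?_, h3, h5⟩
    have : 0 < x 0 / L := lt_trans (by positivity) h4
    exact (div_pos_iff_of_pos_right hL0).1 this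
  -- the estimate for a fixed `δ`
  have key : ∀ δ : ℝ, 0 < δ → δ ≤ 1 →
      ENNReal.ofReal ((1 - δ ^ 2 / L ^ 2) ^ n * κ) ≤ minErr Crit.ran P 2 1 ∞ n := by
    intro δ hδ hδ1
    set H : ℝ → ℝ := fun t => κ * h (t / δ) with hH
    have hHs : ContDiff ℝ ((⊤ : ℕ∞) : WithTop ℕ∞) H :=
      contDiff_const.mul (hh.comp (contDiff_id.div_const δ))
    have hHd : ∀ t, HasDerivAt H (κ / δ * deriv h (t / δ)) t := by
      intro t
      have h1 : HasDerivAt h (deriv h (t / δ)) (t / δ) :=
        ((hh.differentiable (by simp)) _).hasDerivAt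
      have h2 : HasDerivAt (fun t : ℝ => t / δ) (1 / δ) t := (hasDerivAt_id t).div_const δ
      have h3 := (h1.comp t h2).const_mul κ
      refine h3.congr_deriv ?_
      ring
    have hHd' : deriv H = fun t => κ / δ * deriv h (t / δ) := funext fun t => (hHd t).deriv
    have hHdd : ∀ t, HasDerivAt (deriv H) (κ / δ ^ 2 * deriv (deriv h) (t / δ)) t := by
      intro t
      rw [hHd']
      have h1 : HasDerivAt (deriv h) (deriv (deriv h) (t / δ)) (t / δ) :=
        (((smooth_deriv hh).differentiable (by simp)) _).hasDerivAt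
      have h2 : HasDerivAt (fun t : ℝ => t / δ) (1 / δ) t := (hasDerivAt_id t).div_const δ
      have h3 := (h1.comp t h2).const_mul (κ / δ)
      refine h3.congr_deriv ?_
      field_simp
    set C : Set (Fin 2 → ℝ) := {x | x 0 < δ} with hC
    have hCm : MeasurableSet C := measurableSet_lt (measurable_pi_apply 0) measurable_const
    have hvle : volume (P ∩ C) ≤ ENNReal.ofReal (δ ^ 2 / L ^ 2) := by
      have hsub : P ∩ C ⊆ Set.univ.pi fun i : Fin 2 => Ioo (0 : ℝ) (![δ, δ / L ^ 2] i) := by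
        rintro x ⟨hxP, hxC⟩
        obtain ⟨q1, q2, q3⟩ := hPx x hxP
        rw [mem_univ_pi, Fin.forall_fin_two]
        refine ⟨⟨q1, hxC⟩, ⟨q2, ?_⟩⟩
        show x 1 < δ / L ^ 2
        refine q3.trans ?_
        gcongr
        exact hxC
      refine (measure_mono hsub).trans ?_
      rw [Real.volume_pi_Ioo, Fin.prod_univ_two]
      simp only [sub_zero, Matrix.cons_val_zero, Matrix.cons_val_one]
      rw [← ENNReal.ofReal_mul hδ.le]
      apply le_of_eq
      congr 1
      ring
    have hmem : (fun x : Fin 2 → ℝ => H (x 0)) ∈ UnitBall P 2 1 := by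
      refine mem_unitBall_fst (δ := δ) (v := δ ^ 2 / L ^ 2) (B0 := κ) (B1 := κ / δ * B)
        (B2 := κ / δ ^ 2 * B) (by rw [hvol]; exact ENNReal.one_ne_top) hHs ?_ ?_ ?_ ?_ ?_ ?_
      · intro t ht
        simp only [hH]
        rw [hh0 _ ((one_le_div hδ).2 ht), mul_zero]
      · exact ENNReal.toReal_le_of_le_ofReal (by positivity) hvle
      · intro t
        simp only [hH]
        rw [abs_mul, abs_of_pos hκ0]
        exact mul_le_of_le_one_right hκ0.le (hhb _)
      · intro t
        rw [(hHd t).deriv, abs_mul, abs_of_pos (by positivity : 0 < κ / δ)]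
        exact mul_le_mul_of_nonneg_left (hB1 _) (by positivity)
      · intro t
        rw [(hHdd t).deriv, abs_mul, abs_of_pos (by positivity : 0 < κ / δ ^ 2)]
        exact mul_le_mul_of_nonneg_left (hB2 _) (by positivity)
      · have e1 : (κ + κ / δ * B + κ / δ ^ 2 * B) * (δ ^ 2 / L ^ 2)
            = (1 + 2 * B)⁻¹ * (δ ^ 2 + δ * B + B) := by
          rw [hκ]
          field_simp
        rw [e1, ← div_eq_inv_mul, div_le_one (by positivity)]
        have : δ ^ 2 ≤ 1 := pow_le_one₀ hδ.le hδ1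
        have : δ * B ≤ 1 * B := mul_le_mul_of_nonneg_right hδ1 hB
        linarith
    have hlow := lower_bound (n := n) (q := ∞) le_top hmem hCm (C := C) (fun x hx => by
      have : δ ≤ x 0 := not_lt.1 hx
      simp only [hH]
      rw [hh0 _ ((one_le_div hδ).2 this), mul_zero])
      ((hHs.continuous.comp (continuous_apply 0)).aestronglyMeasurable)
      hadm.volume_ne_zero hadm.volume_ne_top
    refine le_trans ?_ hlow
    have hprob := isProb_unif hadm.volume_ne_zero hadm.volume_ne_top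
    have hunif : unif P C ≤ ENNReal.ofReal (δ ^ 2 / L ^ 2) := by
      unfold unif
      rw [hvol, inv_one, one_smul, Measure.restrict_apply hCm, inter_comm]
      exact hvle
    have hunif' : ENNReal.ofReal (1 - δ ^ 2 / L ^ 2) ≤ unif P Cᶜ := by
      rw [prob_compl_eq_one_sub hCm, ENNReal.ofReal_sub _ (by positivity), ENNReal.ofReal_one]
      exact tsub_le_tsub_left hunif 1
    have hnorm : ENNReal.ofReal κ ≤ eLpNorm (fun x : Fin 2 → ℝ => H (x 0)) ∞
        (volume.restrict P) := by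
      rw [eLpNorm_exponent_top]
      have hae := ae_le_eLpNormEssSup (f := fun x : Fin 2 → ℝ => H (x 0))
        (μ := volume.restrict P)
      -- a nonempty open subset of `P` on which the function equals `κ`
      set S : Set (Fin 2 → ℝ) := P ∩ {x | x 0 < δ / 2} with hS
      have hSo : IsOpen S :=
        hadm.2.1.inter (isOpen_lt (continuous_apply 0) continuous_const)
      have hSne : S.Nonempty := by
        set ε : ℝ := δ / (8 * L) with hε
        have hε0 : 0 < ε := by positivity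
        have hε1 : ε < 1 := by
          rw [hε, div_lt_one (by positivity)]
          linarith
        refine ⟨ε • a + ε • b, ⟨?_, ?_⟩, ?_⟩
        · rw [ucoord_lin hdet]; exact ⟨hε0, hε1⟩
        · rw [vcoord_lin hdet]; exact ⟨hε0, hε1⟩
        · show (ε • a + ε • b) 0 < δ / 2
          simp only [Pi.add_apply, Pi.smul_apply, smul_eq_mul, ha, hb, Matrix.cons_val_zero]
          rw [hε]
          field_simp
          linarith
      have hSpos : (volume.restrict P) S ≠ 0 := by
        rw [Measure.restrict_apply hSo.measurableSet]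
        have : S ∩ P = S := inter_eq_left.2 inter_subset_left
        rw [this]
        exact (hSo.measure_pos volume hSne).ne'
      obtain ⟨x, hxS, hx⟩ : ∃ x ∈ S, ‖H (x 0)‖ₑ ≤
          eLpNormEssSup (fun x : Fin 2 → ℝ => H (x 0)) (volume.restrict P) := by
        by_contra hcon
        push Not at hcon
        apply hSpos
        refine measure_mono_null ?_ (ae_iff.1 hae)
        intro x hx
        exact not_le.2 (hcon x hx)
      refine le_trans ?_ hx
      have hx0 : H (x 0) = κ := by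
        obtain ⟨q1, -, -⟩ := hPx x hxS.1
        have q2 : x 0 < δ / 2 := hxS.2
        simp only [hH]
        rw [hh1 _ ⟨by positivity, ?_⟩, mul_one]
        rw [div_le_iff₀ hδ]
        linarith
      rw [hx0, Real.enorm_eq_ofReal hκ0.le]
    have h1δ : 0 ≤ 1 - δ ^ 2 / L ^ 2 := by
      have : δ ^ 2 / L ^ 2 ≤ 1 := by
        rw [div_le_one (by positivity)]
        exact pow_le_pow_left₀ hδ.le (hδ1.trans hL) 2
      linarith
    rw [ENNReal.ofReal_mul (by positivity), ENNReal.ofReal_pow h1δ]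
    exact mul_le_mul' (pow_le_pow_left' hunif' n) hnorm
  -- let `δ → 0`
  have hlim : Tendsto (fun δ : ℝ => ENNReal.ofReal ((1 - δ ^ 2 / L ^ 2) ^ n * κ)) (𝓝[>] 0)
      (𝓝 (ENNReal.ofReal κ)) := by
    have hcont : Continuous (fun δ : ℝ => ENNReal.ofReal ((1 - δ ^ 2 / L ^ 2) ^ n * κ)) := by
      exact ENNReal.continuous_ofReal.comp (by fun_prop)
    have := (hcont.tendsto 0).mono_left (nhdsWithin_le_nhds (s := Ioi 0))
    simpa using this
  refine le_of_tendsto hlim ?_
  filter_upwards [Ioc_mem_nhdsGT (zero_lt_one' ℝ)] with δ hδ using key δ hδ.1 hδ.2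

end Pool.Agent.Lib.MP_961271_an
end
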