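import Pool.Agent.Lib.MP_961271_an.Defs

section
open MeasureTheory Set Filter Topology
open scoped ENNReal

namespace Pool.Agent.Lib.MP_961271_an

variable {d : ℕ}

theorem le_upperInt {Ω : Type} [MeasurableSpace Ω] {μ : Measure Ω} {F : Ω → ℝ≥0∞} {a : ℝ≥0∞}
    (h : ∀ g : Ω → ℝ≥0∞, Measurable g → (∀ ω, F ω ≤ g ω) → a ≤ ∫⁻ ω, g ω ∂μ) :
    a ≤ upperInt μ F := by
  unfold upperInt
  exact le_iInf fun g => le_iInf fun hg => le_iInf fun hFg => h g hg hFg

theorem upperInt_le {Ω : Type} [MeasurableSpace Ω] {μ : Measure Ω} {F g : Ω → ℝ≥0∞}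
    (hg : Measurable g) (h : ∀ ω, F ω ≤ g ω) : upperInt μ F ≤ ∫⁻ ω, g ω ∂μ := by
  unfold upperInt
  exact iInf_le_of_le g (iInf_le_of_le hg (iInf_le _ h))

theorem multiIdx_zero_mem (d s : ℕ) : (0 : Fin d → ℕ) ∈ multiIdx d s := by
  simp [multiIdx]

theorem unitBall_neg {D : Set (Fin d → ℝ)} {s : ℕ} {p : ℝ≥0∞} {f : (Fin d → ℝ) → ℝ}
    (hf : f ∈ UnitBall D s p) : (fun x => - f x) ∈ UnitBall D s p := by
  obtain ⟨hc, g, hg0, hg, hn⟩ := hf
  refine ⟨hc.neg, fun α x => - g α x, ?_, ?_, ?_⟩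
  · funext x; simp [hg0]
  · intro α hα
    obtain ⟨h1, h2⟩ := hg α hα
    refine ⟨h1.neg, fun φ hφ => ?_⟩
    have := h2 φ hφ
    simp only [neg_mul]
    rw [integral_neg, integral_neg, this]
    ring
  · have hnorm : ∀ (α : Fin d → ℕ) (r : ℝ≥0∞),
        eLpNorm (fun x => - g α x) r (volume.restrict D) = eLpNorm (g α) r (volume.restrict D) :=
      fun α r => eLpNorm_neg (g α) r _
    unfold sobNorm at hn ⊢
    simp only [hnorm]
    exact hn

/-- The basic lower bound for the Monte Carlo error by a fooling function. -/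
theorem lower_bound {D : Set (Fin d → ℝ)} {s : ℕ} {p q : ℝ≥0∞} {n : ℕ} (hq : 1 ≤ q)
    {f : (Fin d → ℝ) → ℝ} (hf : f ∈ UnitBall D s p) {C : Set (Fin d → ℝ)} (hC : MeasurableSet C)
    (hfC : ∀ x, x ∉ C → f x = 0) (hfm : AEStronglyMeasurable f (volume.restrict D))
    (hD0 : volume D ≠ 0) (hDt : volume D ≠ ⊤) :
    (unif D Cᶜ) ^ n * eLpNorm f q (volume.restrict D) ≤ minErr Crit.ran D s p q n := by
  unfold minErr
  refine le_iInf fun A => ?_
  let _ := A.mΩ
  have := A.hμ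
  have e1 : A.error Crit.ran s p = ⨆ f ∈ UnitBall D s p, upperInt A.μ (fun ω => A.err f ω) := rfl
  rw [e1]
  set N := eLpNorm f q (volume.restrict D) with hN
  set f' : (Fin d → ℝ) → ℝ := fun x => - f x with hf'
  have hf'B : f' ∈ UnitBall D s p := unitBall_neg hf
  set S := ⨆ f ∈ UnitBall D s p, upperInt A.μ (fun ω => A.err f ω) with hS
  have b1 : upperInt A.μ (fun ω => A.err f ω) ≤ S :=
    le_iSup₂_of_le f hf le_rfl
  have b2 : upperInt A.μ (fun ω => A.err f' ω) ≤ S :=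
    le_iSup₂_of_le f' hf'B le_rfl
  -- the event that all points miss `C`
  set M : Set A.Ω := A.X ⁻¹' (Set.univ.pi fun _ => Cᶜ) with hM
  have hpiM : MeasurableSet (Set.univ.pi fun _ : Fin n => Cᶜ) :=
    MeasurableSet.univ_pi fun _ => hC.compl
  have hMm : MeasurableSet M := A.hX hpiM
  have : IsFiniteMeasure (unif D) := by
    refine ⟨?_⟩
    unfold unif
    rw [Measure.smul_apply, Measure.restrict_apply_univ, smul_eq_mul]
    exact ENNReal.mul_lt_top (ENNReal.inv_lt_top.2 (pos_iff_ne_zero.2 hD0)) (lt_top_iff_ne_top.2 hDt)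
  have hMμ : A.μ M = (unif D Cᶜ) ^ n := by
    have := congrArg (fun ν => ν (Set.univ.pi fun _ : Fin n => Cᶜ)) A.law
    rw [Measure.map_apply A.hX hpiM, Measure.pi_pi] at this
    rw [hM, this]
    simp
  have key : 2 * ((unif D Cᶜ) ^ n * N) ≤ upperInt A.μ (fun ω => A.err f ω)
      + upperInt A.μ (fun ω => A.err f' ω) := by
    unfold upperInt
    simp only [ENNReal.iInf_add, ENNReal.add_iInf]
    refine le_iInf fun g2 => le_iInf fun hg2 => le_iInf fun hFg2 => le_iInf fun g1 =>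
      le_iInf fun hg1 => le_iInf fun hFg1 => ?_
    rw [← lintegral_add_left hg1]
    calc 2 * ((unif D Cᶜ) ^ n * N) = ∫⁻ ω in M, (2 * N) ∂A.μ := by
          rw [lintegral_const, Measure.restrict_apply_univ, hMμ]; ring
      _ ≤ ∫⁻ ω in M, (g1 ω + g2 ω) ∂A.μ := by
          refine setLIntegral_mono' hMm fun ω hω => ?_
          refine le_trans ?_ (add_le_add (hFg1 ω) (hFg2 ω))
          have hz : ∀ i, f (A.X ω i) = 0 := fun i => hfC _ (hω i (mem_univ i))
          have hz' : ∀ i, f' (A.X ω i) = 0 := fun i => by simp [hf', hz i]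
          have E1 : A.err f ω = eLpNorm (fun z => f z - A.Φ ω (fun _ => 0) z) q
              (volume.restrict D) := by
            unfold Alg.err; simp only [hz]
          have E2 : A.err f' ω = eLpNorm (fun z => f z + A.Φ ω (fun _ => 0) z) q
              (volume.restrict D) := by
            unfold Alg.err; simp only [hz']
            rw [← eLpNorm_neg]
            congr 1
            funext z
            simp [hf']
            ring
          rw [E1, E2]
          have hΦ := (A.hΦ ω (fun _ => 0)).aestronglyMeasurable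
          have := eLpNorm_add_le (hfm.sub hΦ) (hfm.add hΦ) hq
          refine le_trans (le_of_eq ?_) this
          have h3 : ((fun z => f z) - A.Φ ω (fun _ => 0)) + ((fun z => f z) + A.Φ ω (fun _ => 0))
              = (2 : ℝ) • f := by
            funext z
            simp
            ring
          have h4 : (f - A.Φ ω (fun _ => 0)) + (f + A.Φ ω (fun _ => 0)) = (2 : ℝ) • f := h3
          rw [h4, eLpNorm_const_smul, hN]
          congr 1
          rw [Real.enorm_eq_ofReal (by norm_num : (0 : ℝ) ≤ 2)]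
          norm_num
      _ ≤ ∫⁻ ω, (g1 ω + g2 ω) ∂A.μ := setLIntegral_le_lintegral _ _
  have h2 : 2 * ((unif D Cᶜ) ^ n * N) ≤ 2 * S := by
    calc 2 * ((unif D Cᶜ) ^ n * N) ≤ _ := key
      _ ≤ S + S := add_le_add b1 b2
      _ = 2 * S := (two_mul S).symm
  exact (ENNReal.mul_le_mul_iff_right (by norm_num) (by norm_num)).1 h2

end Pool.Agent.Lib.MP_961271_an
end

section
open MeasureTheory Set Filter Topology
open scoped ENNReal

namespace Pool.Agent.Lib.MP_961271_an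

/-- A one-dimensional bump with integral one, supported in the closed interval `[c - r, c + r]`. -/
theorem exists_bump (c r : ℝ) (hr : 0 < r) : ∃ α : ℝ → ℝ,
    ContDiff ℝ ((⊤ : ℕ∞) : WithTop ℕ∞) α ∧ (∀ x, 0 ≤ α x) ∧ Integrable α ∧ ∫ x, α x = 1 ∧
      tsupport α ⊆ Icc (c - r) (c + r) := by
  let f : ContDiffBump c := ⟨r / 2, r, by linarith, by linarith⟩
  refine ⟨f.normed volume, f.contDiff_normed, f.nonneg_normed, f.integrable_normed,
    f.integral_normed, ?_⟩
  rw [f.tsupport_normed_eq]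
  rw [Real.closedBall_eq_Icc]

/-- The fixed bump. -/
theorem exists_omega : ∃ ω : ℝ → ℝ,
    ContDiff ℝ ((⊤ : ℕ∞) : WithTop ℕ∞) ω ∧ (∀ x, 0 ≤ ω x) ∧ Integrable ω ∧ ∫ x, ω x = 1 ∧
      tsupport ω ⊆ Icc (1 / 4) (3 / 4) := by
  obtain ⟨α, h1, h2, h3, h4, h5⟩ := exists_bump (1 / 2) (1 / 4) (by norm_num)
  exact ⟨α, h1, h2, h3, h4, h5.trans (by norm_num)⟩

/-- A primitive of the difference of two probability densities. -/
theorem exists_prim {α ω : ℝ → ℝ} {l u : ℝ}
    (hα : ContDiff ℝ ((⊤ : ℕ∞) : WithTop ℕ∞) α) (hα0 : ∀ x, 0 ≤ α x) (hαi : Integrable α)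
    (hα1 : ∫ x, α x = 1) (hαs : tsupport α ⊆ Icc l u)
    (hω : ContDiff ℝ ((⊤ : ℕ∞) : WithTop ℕ∞) ω) (hω0 : ∀ x, 0 ≤ ω x) (hωi : Integrable ω)
    (hω1 : ∫ x, ω x = 1) (hωs : tsupport ω ⊆ Icc l u) :
    ∃ A : ℝ → ℝ, ContDiff ℝ ((⊤ : ℕ∞) : WithTop ℕ∞) A ∧ tsupport A ⊆ Icc l u ∧
      (∀ x, |A x| ≤ 1) ∧ ∀ x, HasDerivAt A (α x - ω x) x := by
  have hzα : ∀ x, x ∉ Icc l u → α x = 0 := fun x hx =>
    image_eq_zero_of_notMem_tsupport fun h => hx (hαs h)
  have hzω : ∀ x, x ∉ Icc l u → ω x = 0 := fun x hx =>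
    image_eq_zero_of_notMem_tsupport fun h => hx (hωs h)
  set A : ℝ → ℝ := fun x => ∫ t in Iic x, (α t - ω t) with hA
  have hi : Integrable (fun t => α t - ω t) := hαi.sub hωi
  have hcont : Continuous (fun t => α t - ω t) := hα.continuous.sub hω.continuous
  have hder : ∀ x, HasDerivAt A (α x - ω x) x := by
    intro x
    have h1 : ∀ y, A y = A 0 + ∫ t in (0 : ℝ)..y, (α t - ω t) := by
      intro y
      rw [hA]
      simp only
      rw [← intervalIntegral.integral_Iic_sub_Iic hi.integrableOn hi.integrableOn]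
      ring
    have h2 : HasDerivAt (fun y => A 0 + ∫ t in (0 : ℝ)..y, (α t - ω t)) (α x - ω x) x :=
      (intervalIntegral.integral_hasDerivAt_right (hcont.intervalIntegrable _ _)
        (hcont.stronglyMeasurableAtFilter _ _) hcont.continuousAt).const_add _
    exact (h2.congr_of_eventuallyEq (Eventually.of_forall fun y => h1 y))
  have hleft : ∀ x, x < l → A x = 0 := by
    intro x hx
    rw [hA]
    simp only
    rw [setIntegral_eq_zero_of_forall_eq_zero]
    intro t ht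
    have : t ∉ Icc l u := fun h => by
      have h1 := h.1
      have h2 : t ≤ x := ht
      linarith
    rw [hzα t this, hzω t this, sub_zero]
  have hright : ∀ x, u ≤ x → A x = 0 := by
    intro x hx
    have h1 : ∫ t in Iic x, (α t - ω t) = ∫ t, (α t - ω t) := by
      rw [← integral_indicator measurableSet_Iic]
      congr 1
      funext t
      by_cases ht : t ∈ Iic x
      · rw [indicator_of_mem ht]
      · rw [indicator_of_notMem ht]
        have : t ∉ Icc l u := fun h => by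
          have h1 := h.2
          have h2 : x < t := not_le.1 ht
          linarith
        rw [hzα t this, hzω t this, sub_zero]
    rw [hA]
    simp only
    rw [h1, integral_sub hαi hωi, hα1, hω1, sub_self]
  refine ⟨A, ?_, ?_, ?_, hder⟩
  · rw [contDiff_infty_iff_deriv]
    refine ⟨fun x => (hder x).differentiableAt, ?_⟩
    have : deriv A = fun x => α x - ω x := funext fun x => (hder x).deriv
    rw [this]
    exact hα.sub hω
  · have hsub : Function.support A ⊆ Icc l u := by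
      intro x hx
      by_contra h
      apply hx
      rw [mem_Icc, not_and_or, not_le, not_le] at h
      rcases h with h | h
      · exact hleft x h
      · exact hright x h.le
    exact closure_minimal hsub isClosed_Icc
  · intro x
    have e1 : A x = (∫ t in Iic x, α t) - ∫ t in Iic x, ω t :=
      integral_sub hαi.integrableOn hωi.integrableOn
    have b1 : 0 ≤ ∫ t in Iic x, α t := setIntegral_nonneg measurableSet_Iic fun t _ => hα0 t
    have b2 : ∫ t in Iic x, α t ≤ 1 := by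
      rw [← hα1]
      exact setIntegral_le_integral hαi (Eventually.of_forall hα0)
    have b3 : 0 ≤ ∫ t in Iic x, ω t := setIntegral_nonneg measurableSet_Iic fun t _ => hω0 t
    have b4 : ∫ t in Iic x, ω t ≤ 1 := by
      rw [← hω1]
      exact setIntegral_le_integral hωi (Eventually.of_forall hω0)
    rw [e1, abs_le]
    constructor <;> linarith

end Pool.Agent.Lib.MP_961271_an
end

section
open MeasureTheory Set Filter Topology
open scoped ENNReal

namespace Pool.Agent.Lib.MP_961271_an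

variable {d : ℕ}

/-- First order weak partial derivative. -/
def Weak1 (D : Set (Fin d → ℝ)) (i : Fin d) (f g : (Fin d → ℝ) → ℝ) : Prop :=
  ∀ φ : (Fin d → ℝ) → ℝ, IsTest D φ → ∫ x in D, f x * pderiv i φ x = - ∫ x in D, g x * φ x

/-- The dilated kernel. -/
noncomputable def ker (η : (Fin d → ℝ) → ℝ) (z : Fin d → ℝ) (t : ℝ) (x : Fin d → ℝ) : ℝ :=
  t⁻¹ ^ d * η (t⁻¹ • (x - z))

/-- Weighted mean of `f` with the dilated kernel. -/
noncomputable def FF (D : Set (Fin d → ℝ)) (f η : (Fin d → ℝ) → ℝ) (z : Fin d → ℝ) (t : ℝ) : ℝ :=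
  ∫ x in D, f x * ker η z t x

/-- the coordinate multiple of the kernel -/
def cmul (i : Fin d) (η : (Fin d → ℝ) → ℝ) : (Fin d → ℝ) → ℝ := fun y => y i * η y

theorem cmul_smooth {i : Fin d} {η : (Fin d → ℝ) → ℝ}
    (hη : ContDiff ℝ ((⊤ : ℕ∞) : WithTop ℕ∞) η) :
    ContDiff ℝ ((⊤ : ℕ∞) : WithTop ℕ∞) (cmul i η) := by
  unfold cmul
  exact (contDiff_apply ℝ ℝ i).mul hη

theorem cmul_supp {i : Fin d} {η : (Fin d → ℝ) → ℝ} : tsupport (cmul i η) ⊆ tsupport η :=
  tsupport_mul_subset_right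

theorem cmul_compact {i : Fin d} {η : (Fin d → ℝ) → ℝ} (hη : HasCompactSupport η) :
    HasCompactSupport (cmul i η) := hη.mul_left

theorem ker_smooth {η : (Fin d → ℝ) → ℝ} (hη : ContDiff ℝ ((⊤ : ℕ∞) : WithTop ℕ∞) η)
    (z : Fin d → ℝ) (t : ℝ) : ContDiff ℝ ((⊤ : ℕ∞) : WithTop ℕ∞) (ker η z t) := by
  unfold ker
  exact contDiff_const.mul (hη.comp (by fun_prop))

theorem ker_tsupport {η : (Fin d → ℝ) → ℝ} {z : Fin d → ℝ} {t : ℝ} {x : Fin d → ℝ}
    (hx : x ∈ tsupport (ker η z t)) : t⁻¹ • (x - z) ∈ tsupport η := by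
  have h1 : tsupport (ker η z t) ⊆ tsupport (fun x => η (t⁻¹ • (x - z))) := by
    unfold ker
    exact tsupport_mul_subset_right
  have h2 : tsupport (fun x => η (t⁻¹ • (x - z))) ⊆ (fun x => t⁻¹ • (x - z)) ⁻¹' tsupport η :=
    tsupport_comp_subset_preimage (f := fun x => t⁻¹ • (x - z)) η (by fun_prop)
  exact h2 (h1 hx)

theorem ker_compact {η : (Fin d → ℝ) → ℝ} (hη : HasCompactSupport η) (z : Fin d → ℝ) {t : ℝ}
    (ht : t ≠ 0) : HasCompactSupport (ker η z t) := by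
  have hK : IsCompact ((fun y => z + t • y) '' tsupport η) :=
    hη.isCompact.image (by fun_prop)
  refine hK.of_isClosed_subset (isClosed_tsupport _) ?_
  intro x hx
  refine ⟨t⁻¹ • (x - z), ker_tsupport hx, ?_⟩
  simp [smul_smul, ht]

theorem ker_isTest {D : Set (Fin d → ℝ)} {η : (Fin d → ℝ) → ℝ}
    (hη : ContDiff ℝ ((⊤ : ℕ∞) : WithTop ℕ∞) η) (hc : HasCompactSupport η)
    {z : Fin d → ℝ} {t : ℝ} (ht : t ≠ 0) (hD : ∀ y ∈ tsupport η, z + t • y ∈ D) :
    IsTest D (ker η z t) := by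
  refine ⟨ker_smooth hη z t, ker_compact hc z ht, ?_⟩
  intro x hx
  have := hD _ (ker_tsupport hx)
  simpa [smul_smul, ht] using this

theorem pderiv_ker {η : (Fin d → ℝ) → ℝ}
    (hη : ContDiff ℝ ((⊤ : ℕ∞) : WithTop ℕ∞) η) (i : Fin d) (z : Fin d → ℝ) (t : ℝ)
    (x : Fin d → ℝ) :
    pderiv i (ker η z t) x = t⁻¹ ^ (d + 1) * pderiv i η (t⁻¹ • (x - z)) := by
  unfold pderiv ker
  have hd : HasFDerivAt η (fderiv ℝ η (t⁻¹ • (x - z))) (t⁻¹ • (x - z)) :=
    ((hη.differentiable (by simp)) _).hasFDerivAt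
  have hg : HasFDerivAt (fun x : Fin d → ℝ => t⁻¹ • (x - z))
      (t⁻¹ • ContinuousLinearMap.id ℝ (Fin d → ℝ)) x :=
    ((hasFDerivAt_id x).sub_const z).const_smul t⁻¹
  have h := (hd.comp x hg).const_mul (t⁻¹ ^ d)
  have h' : HasFDerivAt (fun x => t⁻¹ ^ d * η (t⁻¹ • (x - z))) _ x := h
  rw [h'.fderiv]
  simp
  ring

theorem sum_pderiv {η : (Fin d → ℝ) → ℝ} (y : Fin d → ℝ) :
    fderiv ℝ η y y = ∑ i, y i * pderiv i η y := by
  have hy : y = ∑ i, Pi.single i (y i) := (Finset.univ_sum_single y).symm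
  have h1 : fderiv ℝ η y y = fderiv ℝ η y (∑ i, Pi.single i (y i)) :=
    congrArg (fderiv ℝ η y) hy
  rw [h1, map_sum]
  refine Finset.sum_congr rfl fun i _ => ?_
  unfold pderiv
  have h2 : (Pi.single i (y i) : Fin d → ℝ) = y i • Pi.single i 1 := by
    rw [← Pi.single_smul, smul_eq_mul, mul_one]
  rw [h2, map_smul, smul_eq_mul]

theorem pderiv_cmul {η : (Fin d → ℝ) → ℝ}
    (hη : ContDiff ℝ ((⊤ : ℕ∞) : WithTop ℕ∞) η) (i : Fin d) (y : Fin d → ℝ) :
    pderiv i (cmul i η) y = η y + y i * pderiv i η y := by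
  unfold pderiv cmul
  have hd : HasFDerivAt η (fderiv ℝ η y) y := ((hη.differentiable (by simp)) _).hasFDerivAt
  have hg : HasFDerivAt (fun y : Fin d → ℝ => y i)
      (ContinuousLinearMap.proj (R := ℝ) (φ := fun _ : Fin d => ℝ) i) y :=
    hasFDerivAt_apply i y
  have h := hg.mul hd
  have h' : fderiv ℝ (fun y : Fin d → ℝ => y i * η y) y = _ := h.fderiv
  rw [h']
  simp
  ring

theorem hasDerivAt_ker {η : (Fin d → ℝ) → ℝ}
    (hη : ContDiff ℝ ((⊤ : ℕ∞) : WithTop ℕ∞) η) (z : Fin d → ℝ) {t : ℝ} (ht : t ≠ 0)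
    (x : Fin d → ℝ) :
    HasDerivAt (fun t => ker η z t x)
      (-(t⁻¹ ^ (d + 1) * (d * η (t⁻¹ • (x - z))
        + fderiv ℝ η (t⁻¹ • (x - z)) (t⁻¹ • (x - z))))) t := by
  unfold ker
  have hd : HasFDerivAt η (fderiv ℝ η (t⁻¹ • (x - z))) (t⁻¹ • (x - z)) :=
    ((hη.differentiable (by simp)) _).hasFDerivAt
  have hinv : HasDerivAt (fun t : ℝ => t⁻¹) (-(t ^ 2)⁻¹) t := hasDerivAt_inv ht
  have hg : HasDerivAt (fun t : ℝ => t⁻¹ • (x - z)) ((-(t ^ 2)⁻¹) • (x - z)) t :=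
    hinv.smul_const (x - z)
  have h1 := hd.comp_hasDerivAt t hg
  have h2 := (hinv.pow d).mul h1
  refine h2.congr_deriv ?_
  simp only [Function.comp_apply, map_smul, smul_eq_mul, Pi.pow_apply]
  rcases Nat.eq_zero_or_pos d with hd0 | hd0
  · subst hd0
    simp
    ring
  · obtain ⟨m, rfl⟩ : ∃ m, d = m + 1 := ⟨d - 1, by omega⟩
    simp only [Nat.add_sub_cancel]
    push_cast
    rw [← inv_pow]
    ring

/-- The identity behind the kernel method. -/
theorem deriv_ker_eq {η : (Fin d → ℝ) → ℝ}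
    (hη : ContDiff ℝ ((⊤ : ℕ∞) : WithTop ℕ∞) η) (z : Fin d → ℝ) (t : ℝ)
    (x : Fin d → ℝ) :
    -(t⁻¹ ^ (d + 1) * (d * η (t⁻¹ • (x - z))
        + fderiv ℝ η (t⁻¹ • (x - z)) (t⁻¹ • (x - z))))
      = - ∑ i, pderiv i (ker (cmul i η) z t) x := by
  simp only [pderiv_ker (cmul_smooth hη), pderiv_cmul hη, sum_pderiv]
  rw [← Finset.mul_sum, Finset.sum_add_distrib]
  simp

theorem ker_bound {η : (Fin d → ℝ) → ℝ}
    (hη : ContDiff ℝ ((⊤ : ℕ∞) : WithTop ℕ∞) η) (hc : HasCompactSupport η) :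
    ∃ C : ℝ, ∀ y, |d * η y + fderiv ℝ η y y| ≤ C := by
  have hcont : Continuous (fun y => d * η y + fderiv ℝ η y y) := by
    have h1 : Continuous (fderiv ℝ η) := hη.continuous_fderiv (by simp)
    exact (continuous_const.mul hη.continuous).add (h1.clm_apply continuous_id)
  have hsupp : HasCompactSupport (fun y => d * η y + fderiv ℝ η y y) := by
    refine HasCompactSupport.add hc.mul_left ?_
    refine HasCompactSupport.intro hc fun y hy => ?_
    have : fderiv ℝ η y = 0 := by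
      by_contra h
      exact hy (support_fderiv_subset ℝ h)
    simp [this]
  obtain ⟨C, hC⟩ := hcont.bounded_above_of_compact_support hsupp
  exact ⟨C, fun y => by simpa [Real.norm_eq_abs] using hC y⟩

/-- Derivative of the weighted means in terms of the weak derivatives. -/
theorem hasDerivAt_FF {D : Set (Fin d → ℝ)} {η : (Fin d → ℝ) → ℝ}
    (hη : ContDiff ℝ ((⊤ : ℕ∞) : WithTop ℕ∞) η) (hc : HasCompactSupport η)
    {z : Fin d → ℝ} {t : ℝ} (ht : 0 < t)
    (hD : ∀ y ∈ tsupport η, z + t • y ∈ D)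
    {f : (Fin d → ℝ) → ℝ} {g : Fin d → (Fin d → ℝ) → ℝ}
    (hf : IntegrableOn f D)
    (hw : ∀ i, Weak1 D i f (g i)) :
    HasDerivAt (FF D f η z) (∑ i, FF D (g i) (cmul i η) z t) t := by
  obtain ⟨C, hC⟩ := ker_bound hη hc
  have hker_cont : ∀ t, Continuous (ker η z t) := fun t => (ker_smooth hη z t).continuous
  have hC0 : 0 ≤ C := (abs_nonneg _).trans (hC 0)
  have hs : Ioi (t / 2) ∈ 𝓝 t := Ioi_mem_nhds (by linarith)
  obtain ⟨Cη, hCη⟩ := hη.continuous.bounded_above_of_compact_support hc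
  have key := hasDerivAt_integral_of_dominated_loc_of_deriv_le (μ := volume.restrict D)
    (F := fun t x => f x * ker η z t x)
    (F' := fun t x => f x * (-(t⁻¹ ^ (d + 1) * (d * η (t⁻¹ • (x - z))
        + fderiv ℝ η (t⁻¹ • (x - z)) (t⁻¹ • (x - z))))))
    (bound := fun x => |f x| * ((t / 2)⁻¹ ^ (d + 1) * C)) (x₀ := t) (s := Ioi (t / 2)) hs
    ?_ ?_ ?_ ?_ ?_ ?_
  · have h := key.2
    refine h.congr_deriv ?_
    simp only [deriv_ker_eq hη]
    have hint : ∀ i, IntegrableOn (fun x => f x * pderiv i (ker (cmul i η) z t) x) D := by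
      intro i
      have ht' := ker_isTest (cmul_smooth (i := i) hη) (cmul_compact hc) ht.ne'
        (fun y hy => hD y (cmul_supp hy))
      have hcont : Continuous (pderiv i (ker (cmul i η) z t)) := by
        unfold pderiv
        exact (ht'.1.continuous_fderiv (by simp)).clm_apply continuous_const
      have hsupp : HasCompactSupport (pderiv i (ker (cmul i η) z t)) := by
        refine HasCompactSupport.intro ht'.2.1 fun y hy => ?_
        have : fderiv ℝ (ker (cmul i η) z t) y = 0 := by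
          by_contra h
          exact hy (support_fderiv_subset ℝ h)
        simp [pderiv, this]
      obtain ⟨B, hB⟩ := hcont.bounded_above_of_compact_support hsupp
      exact hf.mul_bdd (c := B) hcont.aestronglyMeasurable (Eventually.of_forall hB)
    calc ∫ x in D, f x * (- ∑ i, pderiv i (ker (cmul i η) z t) x)
        = - ∑ i, ∫ x in D, f x * pderiv i (ker (cmul i η) z t) x := by
          rw [← integral_finsetSum _ (fun i _ => hint i), ← integral_neg]
          congr 1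
          funext x
          rw [mul_neg, Finset.mul_sum]
      _ = ∑ i, FF D (g i) (cmul i η) z t := by
          rw [← Finset.sum_neg_distrib]
          refine Finset.sum_congr rfl fun i _ => ?_
          have ht' := ker_isTest (cmul_smooth (i := i) hη) (cmul_compact hc) ht.ne'
            (fun y hy => hD y (cmul_supp hy))
          rw [hw i _ ht', neg_neg]
          rfl
  · exact Eventually.of_forall fun t =>
      hf.aestronglyMeasurable.mul (hker_cont t).aestronglyMeasurable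
  · obtain ⟨B, hB⟩ := (hker_cont t).bounded_above_of_compact_support (ker_compact hc z ht.ne')
    exact hf.mul_bdd (c := B) (hker_cont t).aestronglyMeasurable (Eventually.of_forall hB)
  · refine hf.aestronglyMeasurable.mul ?_
    have h1 : Continuous (fderiv ℝ η) := hη.continuous_fderiv (by simp)
    have h2 : Continuous (fun x : Fin d → ℝ => t⁻¹ • (x - z)) := by fun_prop
    have h3 : Continuous (fun x => -(t⁻¹ ^ (d + 1) * (d * η (t⁻¹ • (x - z))
        + fderiv ℝ η (t⁻¹ • (x - z)) (t⁻¹ • (x - z))))) := by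
      refine (continuous_const.mul (((continuous_const.mul (hη.continuous.comp h2))).add
        ((h1.comp h2).clm_apply h2))).neg
    exact h3.aestronglyMeasurable
  · refine Eventually.of_forall fun x s hs => ?_
    rw [norm_mul, Real.norm_eq_abs, Real.norm_eq_abs]
    refine mul_le_mul_of_nonneg_left ?_ (abs_nonneg _)
    have hs0 : 0 < s := lt_trans (by linarith) hs
    rw [abs_neg, abs_mul, abs_of_pos (by positivity : 0 < s⁻¹ ^ (d + 1))]
    refine mul_le_mul ?_ (hC _) (abs_nonneg _) (by positivity)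
    refine pow_le_pow_left₀ (by positivity) ?_ _
    exact inv_anti₀ (by linarith) (le_of_lt hs)
  · exact hf.abs.mul_const _
  · refine Eventually.of_forall fun x s hs => ?_
    have hs0 : 0 < s := lt_trans (by linarith) hs
    exact (hasDerivAt_ker hη z hs0.ne' x).const_mul (f x)

end Pool.Agent.Lib.MP_961271_an
end

section
open MeasureTheory Set Filter Topology
open scoped ENNReal

namespace Pool.Agent.Lib.MP_961271_an

/-- first skew coordinate -/
noncomputable def ucoord (a b x : Fin 2 → ℝ) : ℝ := (x 0 * b 1 - x 1 * b 0) / (a 0 * b 1 - a 1 * b 0)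
/-- second skew coordinate -/
noncomputable def vcoord (a b x : Fin 2 → ℝ) : ℝ := (a 0 * x 1 - a 1 * x 0) / (a 0 * b 1 - a 1 * b 0)

/-- product test function in skew coordinates -/
noncomputable def prodTest (a b z : Fin 2 → ℝ) (A B : ℝ → ℝ) (x : Fin 2 → ℝ) : ℝ :=
  A (ucoord a b (x - z)) * B (vcoord a b (x - z))

theorem coord_repr {a b : Fin 2 → ℝ} (h : a 0 * b 1 - a 1 * b 0 ≠ 0) (x : Fin 2 → ℝ) :
    ucoord a b x • a + vcoord a b x • b = x := by
  unfold ucoord vcoord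
  ext i
  fin_cases i
  · show (x 0 * b 1 - x 1 * b 0) / (a 0 * b 1 - a 1 * b 0) * a 0
      + (a 0 * x 1 - a 1 * x 0) / (a 0 * b 1 - a 1 * b 0) * b 0 = x 0
    rw [div_mul_eq_mul_div, div_mul_eq_mul_div, ← add_div, div_eq_iff h]
    ring
  · show (x 0 * b 1 - x 1 * b 0) / (a 0 * b 1 - a 1 * b 0) * a 1
      + (a 0 * x 1 - a 1 * x 0) / (a 0 * b 1 - a 1 * b 0) * b 1 = x 1
    rw [div_mul_eq_mul_div, div_mul_eq_mul_div, ← add_div, div_eq_iff h]
    ring

theorem ucoord_lin {a b : Fin 2 → ℝ} (h : a 0 * b 1 - a 1 * b 0 ≠ 0) (s t : ℝ) :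
    ucoord a b (s • a + t • b) = s := by
  unfold ucoord
  rw [div_eq_iff h]
  simp
  ring

theorem vcoord_lin {a b : Fin 2 → ℝ} (h : a 0 * b 1 - a 1 * b 0 ≠ 0) (s t : ℝ) :
    vcoord a b (s • a + t • b) = t := by
  unfold vcoord
  rw [div_eq_iff h]
  simp
  ring

theorem continuous_ucoord (a b : Fin 2 → ℝ) : Continuous (ucoord a b) := by
  unfold ucoord
  fun_prop

theorem continuous_vcoord (a b : Fin 2 → ℝ) : Continuous (vcoord a b) := by
  unfold vcoord
  fun_prop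

theorem hasFDerivAt_ucoord (a b z x : Fin 2 → ℝ) :
    HasFDerivAt (fun x => ucoord a b (x - z))
      ((b 1 / (a 0 * b 1 - a 1 * b 0)) • ContinuousLinearMap.proj (R := ℝ) (φ := fun _ : Fin 2 => ℝ) 0
        - (b 0 / (a 0 * b 1 - a 1 * b 0)) •
          ContinuousLinearMap.proj (R := ℝ) (φ := fun _ : Fin 2 => ℝ) 1) x := by
  have h0 : HasFDerivAt (fun x : Fin 2 → ℝ => x 0)
      (ContinuousLinearMap.proj (R := ℝ) (φ := fun _ : Fin 2 => ℝ) 0) x := hasFDerivAt_apply 0 x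
  have h1 : HasFDerivAt (fun x : Fin 2 → ℝ => x 1)
      (ContinuousLinearMap.proj (R := ℝ) (φ := fun _ : Fin 2 => ℝ) 1) x := hasFDerivAt_apply 1 x
  have h := ((h0.sub_const (z 0)).const_mul (b 1 / (a 0 * b 1 - a 1 * b 0))).sub
    ((h1.sub_const (z 1)).const_mul (b 0 / (a 0 * b 1 - a 1 * b 0)))
  have he : (fun x => ucoord a b (x - z)) = fun x : Fin 2 → ℝ =>
      b 1 / (a 0 * b 1 - a 1 * b 0) * (x 0 - z 0) - b 0 / (a 0 * b 1 - a 1 * b 0) * (x 1 - z 1) := by
    funext x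
    unfold ucoord
    simp
    ring
  rw [he]
  exact h

theorem hasFDerivAt_vcoord (a b z x : Fin 2 → ℝ) :
    HasFDerivAt (fun x => vcoord a b (x - z))
      ((a 0 / (a 0 * b 1 - a 1 * b 0)) • ContinuousLinearMap.proj (R := ℝ) (φ := fun _ : Fin 2 => ℝ) 1
        - (a 1 / (a 0 * b 1 - a 1 * b 0)) •
          ContinuousLinearMap.proj (R := ℝ) (φ := fun _ : Fin 2 => ℝ) 0) x := by
  have h0 : HasFDerivAt (fun x : Fin 2 → ℝ => x 0)
      (ContinuousLinearMap.proj (R := ℝ) (φ := fun _ : Fin 2 => ℝ) 0) x := hasFDerivAt_apply 0 x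
  have h1 : HasFDerivAt (fun x : Fin 2 → ℝ => x 1)
      (ContinuousLinearMap.proj (R := ℝ) (φ := fun _ : Fin 2 => ℝ) 1) x := hasFDerivAt_apply 1 x
  have h := ((h1.sub_const (z 1)).const_mul (a 0 / (a 0 * b 1 - a 1 * b 0))).sub
    ((h0.sub_const (z 0)).const_mul (a 1 / (a 0 * b 1 - a 1 * b 0)))
  have he : (fun x => vcoord a b (x - z)) = fun x : Fin 2 → ℝ =>
      a 0 / (a 0 * b 1 - a 1 * b 0) * (x 1 - z 1) - a 1 / (a 0 * b 1 - a 1 * b 0) * (x 0 - z 0) := by
    funext x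
    unfold vcoord
    simp
    ring
  rw [he]
  exact h

theorem contDiff_prodTest (a b z : Fin 2 → ℝ) {A B : ℝ → ℝ}
    (hA : ContDiff ℝ ((⊤ : ℕ∞) : WithTop ℕ∞) A) (hB : ContDiff ℝ ((⊤ : ℕ∞) : WithTop ℕ∞) B) :
    ContDiff ℝ ((⊤ : ℕ∞) : WithTop ℕ∞) (prodTest a b z A B) := by
  unfold prodTest ucoord vcoord
  refine (hA.comp ?_).mul (hB.comp ?_) <;> fun_prop

theorem isTest_prodTest {D : Set (Fin 2 → ℝ)} {a b z : Fin 2 → ℝ}
    (hdet : a 0 * b 1 - a 1 * b 0 ≠ 0)
    (hD : ∀ s ∈ Icc (0 : ℝ) 1, ∀ t ∈ Icc (0 : ℝ) 1, z + (s • a + t • b) ∈ D) {A B : ℝ → ℝ}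
    (hA : ContDiff ℝ ((⊤ : ℕ∞) : WithTop ℕ∞) A) (hB : ContDiff ℝ ((⊤ : ℕ∞) : WithTop ℕ∞) B)
    (hAs : tsupport A ⊆ Icc 0 1) (hBs : tsupport B ⊆ Icc 0 1) :
    IsTest D (prodTest a b z A B) := by
  set K : Set (Fin 2 → ℝ) := (fun p : ℝ × ℝ => z + (p.1 • a + p.2 • b)) '' (Icc 0 1 ×ˢ Icc 0 1)
    with hK
  have hKc : IsCompact K := (isCompact_Icc.prod isCompact_Icc).image (by fun_prop)
  have hsupp : Function.support (prodTest a b z A B) ⊆ K := by
    intro x hx
    have h1 : A (ucoord a b (x - z)) ≠ 0 := left_ne_zero_of_mul hx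
    have h2 : B (vcoord a b (x - z)) ≠ 0 := right_ne_zero_of_mul hx
    refine ⟨(ucoord a b (x - z), vcoord a b (x - z)), ⟨hAs (subset_tsupport _ h1),
      hBs (subset_tsupport _ h2)⟩, ?_⟩
    simp only [coord_repr hdet]
    abel
  have hts : tsupport (prodTest a b z A B) ⊆ K := closure_minimal hsupp hKc.isClosed
  refine ⟨contDiff_prodTest a b z hA hB, hKc.of_isClosed_subset (isClosed_tsupport _) hts, ?_⟩
  refine hts.trans ?_
  rintro _ ⟨⟨s, t⟩, ⟨hs, ht⟩, rfl⟩
  exact hD s hs t ht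

theorem pderiv_zero_prodTest (a b z : Fin 2 → ℝ) {A B A' B' : ℝ → ℝ}
    (hA : ∀ x, HasDerivAt A (A' x) x) (hB : ∀ x, HasDerivAt B (B' x) x) :
    pderiv 0 (prodTest a b z A B) = fun x =>
      b 1 / (a 0 * b 1 - a 1 * b 0) * prodTest a b z A' B x
        - a 1 / (a 0 * b 1 - a 1 * b 0) * prodTest a b z A B' x := by
  funext x
  have h1 := (hA (ucoord a b (x - z))).hasFDerivAt.comp x (hasFDerivAt_ucoord a b z x)
  have h2 := (hB (vcoord a b (x - z))).hasFDerivAt.comp x (hasFDerivAt_vcoord a b z x)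
  have h3 := h1.mul h2
  have h4 : fderiv ℝ (prodTest a b z A B) x = _ := h3.fderiv
  unfold pderiv
  rw [h4]
  simp [prodTest]
  ring

theorem pderiv_one_prodTest (a b z : Fin 2 → ℝ) {A B A' B' : ℝ → ℝ}
    (hA : ∀ x, HasDerivAt A (A' x) x) (hB : ∀ x, HasDerivAt B (B' x) x) :
    pderiv 1 (prodTest a b z A B) = fun x =>
      a 0 / (a 0 * b 1 - a 1 * b 0) * prodTest a b z A B' x
        - b 0 / (a 0 * b 1 - a 1 * b 0) * prodTest a b z A' B x := by
  funext x
  have h1 := (hA (ucoord a b (x - z))).hasFDerivAt.comp x (hasFDerivAt_ucoord a b z x)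
  have h2 := (hB (vcoord a b (x - z))).hasFDerivAt.comp x (hasFDerivAt_vcoord a b z x)
  have h3 := h1.mul h2
  have h4 : fderiv ℝ (prodTest a b z A B) x = _ := h3.fderiv
  unfold pderiv
  rw [h4]
  simp [prodTest]
  ring

end Pool.Agent.Lib.MP_961271_an
end

section
open MeasureTheory Set Filter Topology
open scoped ENNReal

namespace Pool.Agent.Lib.MP_961271_an

theorem pderiv_smooth {d : ℕ} {φ : (Fin d → ℝ) → ℝ}
    (hφ : ContDiff ℝ ((⊤ : ℕ∞) : WithTop ℕ∞) φ) (i : Fin d) :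
    ContDiff ℝ ((⊤ : ℕ∞) : WithTop ℕ∞) (pderiv i φ) := by
  unfold pderiv
  exact (hφ.fderiv_right (by simp)).clm_apply contDiff_const

theorem pderiv_comm {d : ℕ} {φ : (Fin d → ℝ) → ℝ}
    (hφ : ContDiff ℝ ((⊤ : ℕ∞) : WithTop ℕ∞) φ) (i j : Fin d) :
    pderiv i (pderiv j φ) = pderiv j (pderiv i φ) := by
  funext x
  have hD : DifferentiableAt ℝ (fderiv ℝ φ) x :=
    ((hφ.fderiv_right (m := ((⊤ : ℕ∞) : WithTop ℕ∞)) (by simp)).differentiable (by simp)) x
  have key : ∀ i j : Fin d, pderiv i (pderiv j φ) x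
      = fderiv ℝ (fderiv ℝ φ) x (Pi.single i 1) (Pi.single j 1) := by
    intro i j
    unfold pderiv
    rw [fderiv_clm_apply hD (differentiableAt_const _)]
    simp
  rw [key, key]
  have hs : ContDiffAt ℝ 2 φ x := hφ.contDiffAt.of_le
    (show ((2 : ℕ∞) : WithTop ℕ∞) ≤ ((⊤ : ℕ∞) : WithTop ℕ∞) from WithTop.coe_le_coe.2 le_top)
  exact hs.isSymmSndFDerivAt (by simp) _ _

theorem pderiv_isTest {d : ℕ} {D : Set (Fin d → ℝ)} {φ : (Fin d → ℝ) → ℝ} (hφ : IsTest D φ)
    (i : Fin d) : IsTest D (pderiv i φ) := by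
  have hs : Function.support (pderiv i φ) ⊆ tsupport φ := by
    intro x hx
    by_contra h
    apply hx
    have : fderiv ℝ φ x = 0 := by
      by_contra h'
      exact h (support_fderiv_subset ℝ h')
    simp [pderiv, this]
  have ht : tsupport (pderiv i φ) ⊆ tsupport φ := closure_minimal hs (isClosed_tsupport _)
  exact ⟨pderiv_smooth hφ.1 i, hφ.2.1.of_isClosed_subset (isClosed_tsupport _) ht,
    ht.trans hφ.2.2⟩

theorem test_bound {d : ℕ} {D : Set (Fin d → ℝ)} {φ : (Fin d → ℝ) → ℝ} (hφ : IsTest D φ) :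
    ∃ C, ∀ x, ‖φ x‖ ≤ C := hφ.1.continuous.bounded_above_of_compact_support hφ.2.1

theorem integrable_mul_test {d : ℕ} {D : Set (Fin d → ℝ)} {f φ : (Fin d → ℝ) → ℝ}
    (hf : IntegrableOn f D) (hφ : IsTest D φ) : IntegrableOn (fun x => f x * φ x) D := by
  obtain ⟨C, hC⟩ := test_bound hφ
  exact hf.mul_bdd (c := C) hφ.1.continuous.aestronglyMeasurable (Eventually.of_forall hC)

theorem abs_integral_mul_le {d : ℕ} {D : Set (Fin d → ℝ)} {f φ : (Fin d → ℝ) → ℝ}
    (hf : IntegrableOn f D) {M : ℝ} (hM : ∀ x, |φ x| ≤ M) :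
    |∫ x in D, f x * φ x| ≤ M * ∫ x in D, |f x| := by
  have h1 : ‖∫ x in D, f x * φ x‖ ≤ ∫ x in D, M * |f x| := by
    refine norm_integral_le_of_norm_le (hf.abs.const_mul M) (Eventually.of_forall fun x => ?_)
    rw [norm_mul, Real.norm_eq_abs, Real.norm_eq_abs, mul_comm]
    exact mul_le_mul_of_nonneg_right (hM x) (abs_nonneg _)
  rwa [integral_const_mul, Real.norm_eq_abs] at h1

section

variable {D : Set (Fin 2 → ℝ)} {a b z : Fin 2 → ℝ} {f f0 f1 f00 f01 f11 : (Fin 2 → ℝ) → ℝ}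

/-- The directional derivative in the first direction. -/
theorem prodTest_dir_a (hdet : a 0 * b 1 - a 1 * b 0 ≠ 0) {A B A' B' : ℝ → ℝ}
    (hA : ∀ x, HasDerivAt A (A' x) x) (hB : ∀ x, HasDerivAt B (B' x) x) (x : Fin 2 → ℝ) :
    prodTest a b z A' B x = a 0 * pderiv 0 (prodTest a b z A B) x
      + a 1 * pderiv 1 (prodTest a b z A B) x := by
  rw [pderiv_zero_prodTest a b z hA hB, pderiv_one_prodTest a b z hA hB]
  calc prodTest a b z A' B x
      = ((a 0 * b 1 - a 1 * b 0) / (a 0 * b 1 - a 1 * b 0)) * prodTest a b z A' B x := by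
        rw [div_self hdet, one_mul]
    _ = _ := by ring

theorem prodTest_dir_b (hdet : a 0 * b 1 - a 1 * b 0 ≠ 0) {A B A' B' : ℝ → ℝ}
    (hA : ∀ x, HasDerivAt A (A' x) x) (hB : ∀ x, HasDerivAt B (B' x) x) (x : Fin 2 → ℝ) :
    prodTest a b z A B' x = b 0 * pderiv 0 (prodTest a b z A B) x
      + b 1 * pderiv 1 (prodTest a b z A B) x := by
  rw [pderiv_zero_prodTest a b z hA hB, pderiv_one_prodTest a b z hA hB]
  calc prodTest a b z A B' x
      = ((a 0 * b 1 - a 1 * b 0) / (a 0 * b 1 - a 1 * b 0)) * prodTest a b z A B' x := by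
        rw [div_self hdet, one_mul]
    _ = _ := by ring

theorem int_dir_a (hdet : a 0 * b 1 - a 1 * b 0 ≠ 0) (hf : IntegrableOn f D)
    (hw0 : Weak1 D 0 f f0) (hw1 : Weak1 D 1 f f1) {A B A' B' : ℝ → ℝ}
    (hA : ∀ x, HasDerivAt A (A' x) x) (hB : ∀ x, HasDerivAt B (B' x) x)
    (ht : IsTest D (prodTest a b z A B)) :
    ∫ x in D, f x * prodTest a b z A' B x
      = - (a 0 * ∫ x in D, f0 x * prodTest a b z A B x)
        - a 1 * ∫ x in D, f1 x * prodTest a b z A B x := by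
  have h0 := hw0 _ ht
  have h1 := hw1 _ ht
  have i0 := integrable_mul_test hf (pderiv_isTest ht 0)
  have i1 := integrable_mul_test hf (pderiv_isTest ht 1)
  have e : (fun x => f x * prodTest a b z A' B x) = fun x =>
      a 0 * (f x * pderiv 0 (prodTest a b z A B) x)
        + a 1 * (f x * pderiv 1 (prodTest a b z A B) x) := by
    funext x
    rw [prodTest_dir_a (z := z) hdet hA hB x]
    ring
  rw [e, integral_add (i0.const_mul _) (i1.const_mul _), integral_const_mul, integral_const_mul,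
    h0, h1]
  ring

theorem int_dir_b (hdet : a 0 * b 1 - a 1 * b 0 ≠ 0) (hf : IntegrableOn f D)
    (hw0 : Weak1 D 0 f f0) (hw1 : Weak1 D 1 f f1) {A B A' B' : ℝ → ℝ}
    (hA : ∀ x, HasDerivAt A (A' x) x) (hB : ∀ x, HasDerivAt B (B' x) x)
    (ht : IsTest D (prodTest a b z A B)) :
    ∫ x in D, f x * prodTest a b z A B' x
      = - (b 0 * ∫ x in D, f0 x * prodTest a b z A B x)
        - b 1 * ∫ x in D, f1 x * prodTest a b z A B x := by
  have h0 := hw0 _ ht
  have h1 := hw1 _ ht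
  have i0 := integrable_mul_test hf (pderiv_isTest ht 0)
  have i1 := integrable_mul_test hf (pderiv_isTest ht 1)
  have e : (fun x => f x * prodTest a b z A B' x) = fun x =>
      b 0 * (f x * pderiv 0 (prodTest a b z A B) x)
        + b 1 * (f x * pderiv 1 (prodTest a b z A B) x) := by
    funext x
    rw [prodTest_dir_b (z := z) hdet hA hB x]
    ring
  rw [e, integral_add (i0.const_mul _) (i1.const_mul _), integral_const_mul, integral_const_mul,
    h0, h1]
  ring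

/-- Second order weak derivatives. -/
def Weak2 (D : Set (Fin 2 → ℝ)) (i j : Fin 2) (f g : (Fin 2 → ℝ) → ℝ) : Prop :=
  ∀ φ : (Fin 2 → ℝ) → ℝ, IsTest D φ →
    ∫ x in D, f x * pderiv i (pderiv j φ) x = ∫ x in D, g x * φ x

theorem int_dir_ab (hdet : a 0 * b 1 - a 1 * b 0 ≠ 0) (hf : IntegrableOn f D)
    (hw00 : Weak2 D 0 0 f f00) (hw01 : Weak2 D 0 1 f f01) (hw11 : Weak2 D 1 1 f f11)
    {A B A' B' : ℝ → ℝ}
    (hA : ∀ x, HasDerivAt A (A' x) x) (hB : ∀ x, HasDerivAt B (B' x) x)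
    (hB's : ContDiff ℝ ((⊤ : ℕ∞) : WithTop ℕ∞) B')
    (ht : IsTest D (prodTest a b z A B)) :
    ∫ x in D, f x * prodTest a b z A' B' x
      = a 0 * b 0 * (∫ x in D, f00 x * prodTest a b z A B x)
        + (a 0 * b 1 + a 1 * b 0) * (∫ x in D, f01 x * prodTest a b z A B x)
        + a 1 * b 1 * ∫ x in D, f11 x * prodTest a b z A B x := by
  set P := prodTest a b z A B with hP
  have hPs : ContDiff ℝ ((⊤ : ℕ∞) : WithTop ℕ∞) P := ht.1
  have hB'' : ∀ x, HasDerivAt B' (deriv B' x) x := fun x =>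
    ((hB's.differentiable (by simp)) x).hasDerivAt
  -- the function `prodTest A B'`
  have hQ : prodTest a b z A B' = fun x => b 0 * pderiv 0 P x + b 1 * pderiv 1 P x := by
    funext x
    exact prodTest_dir_b (z := z) hdet hA hB x
  have hd : ∀ (i j : Fin 2) (x : Fin 2 → ℝ), DifferentiableAt ℝ (pderiv j P) x := fun i j x =>
    ((pderiv_smooth hPs j).differentiable (by simp)) x
  have hdQ : ∀ (i : Fin 2) (x : Fin 2 → ℝ), pderiv i (prodTest a b z A B') x
      = b 0 * pderiv i (pderiv 0 P) x + b 1 * pderiv i (pderiv 1 P) x := by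
    intro i x
    rw [hQ]
    have h := ((hd i 0 x).hasFDerivAt.const_mul (b 0)).add ((hd i 1 x).hasFDerivAt.const_mul (b 1))
    have h' : fderiv ℝ (fun x => b 0 * pderiv 0 P x + b 1 * pderiv 1 P x) x = _ := h.fderiv
    show fderiv ℝ (fun x => b 0 * pderiv 0 P x + b 1 * pderiv 1 P x) x (Pi.single i 1) = _
    rw [h']
    rfl
  have i00 := integrable_mul_test hf (pderiv_isTest (pderiv_isTest ht 0) 0)
  have i01 := integrable_mul_test hf (pderiv_isTest (pderiv_isTest ht 1) 0)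
  have i11 := integrable_mul_test hf (pderiv_isTest (pderiv_isTest ht 1) 1)
  have e : (fun x => f x * prodTest a b z A' B' x) = fun x =>
      (a 0 * b 0 * (f x * pderiv 0 (pderiv 0 P) x)
        + (a 0 * b 1 + a 1 * b 0) * (f x * pderiv 0 (pderiv 1 P) x))
        + a 1 * b 1 * (f x * pderiv 1 (pderiv 1 P) x) := by
    funext x
    rw [prodTest_dir_a (z := z) hdet hA hB'' x, hdQ 0 x, hdQ 1 x, pderiv_comm hPs 1 0]
    ring
  have j1 : IntegrableOn (fun x => a 0 * b 0 * (f x * pderiv 0 (pderiv 0 P) x)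
      + (a 0 * b 1 + a 1 * b 0) * (f x * pderiv 0 (pderiv 1 P) x)) D :=
    (i00.const_mul _).add (i01.const_mul _)
  rw [e, integral_add j1 (i11.const_mul _), integral_add (i00.const_mul _) (i01.const_mul _),
    integral_const_mul, integral_const_mul, integral_const_mul, hw00 _ ht, hw01 _ ht, hw11 _ ht]

/-- The weighted integral of `f` against a product density near the corner `z` is controlled by
the Sobolev norm of order two. -/
theorem weighted_bound (hdet : a 0 * b 1 - a 1 * b 0 ≠ 0)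
    (hD : ∀ s ∈ Icc (0 : ℝ) 1, ∀ t ∈ Icc (0 : ℝ) 1, z + (s • a + t • b) ∈ D)
    (hf : IntegrableOn f D) (hf0 : IntegrableOn f0 D) (hf1 : IntegrableOn f1 D)
    (hf00 : IntegrableOn f00 D) (hf01 : IntegrableOn f01 D) (hf11 : IntegrableOn f11 D)
    (hw0 : Weak1 D 0 f f0) (hw1 : Weak1 D 1 f f1)
    (hw00 : Weak2 D 0 0 f f00) (hw01 : Weak2 D 0 1 f f01) (hw11 : Weak2 D 1 1 f f11)
    {R : ℝ} (hR : 1 ≤ R) (ha : ∀ i, |a i| ≤ R) (hb : ∀ i, |b i| ≤ R)
    {ω : ℝ → ℝ} (hω : ContDiff ℝ ((⊤ : ℕ∞) : WithTop ℕ∞) ω) (hω0 : ∀ x, 0 ≤ ω x)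
    (hωi : Integrable ω) (hω1 : ∫ x, ω x = 1) (hωs : tsupport ω ⊆ Icc 0 1)
    {Cω : ℝ} (hC1 : 1 ≤ Cω) (hCω : ∀ x, ω x ≤ Cω)
    {α : ℝ → ℝ} (hα : ContDiff ℝ ((⊤ : ℕ∞) : WithTop ℕ∞) α) (hα0 : ∀ x, 0 ≤ α x)
    (hαi : Integrable α) (hα1 : ∫ x, α x = 1) (hαs : tsupport α ⊆ Icc 0 1) :
    |∫ x in D, f x * prodTest a b z α α x| ≤ 2 * (Cω * R) ^ 2 *
      ((∫ x in D, |f x|) + (∫ x in D, |f0 x|) + (∫ x in D, |f1 x|) + (∫ x in D, |f00 x|)
        + (∫ x in D, |f01 x|) + ∫ x in D, |f11 x|) := by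
  obtain ⟨A, hAs, hAt, hA1, hAd⟩ := exists_prim hα hα0 hαi hα1 hαs hω hω0 hωi hω1 hωs
  have hωd : ∀ x, HasDerivAt ω (deriv ω x) x := fun x =>
    ((hω.differentiable (by simp)) x).hasDerivAt
  set δ : ℝ → ℝ := fun x => α x - ω x with hδ
  have hδs : ContDiff ℝ ((⊤ : ℕ∞) : WithTop ℕ∞) δ := hα.sub hω
  have hδt : tsupport δ ⊆ Icc 0 1 := by
    refine closure_minimal ?_ isClosed_Icc
    intro x hx
    by_contra h
    apply hx
    have h1 : α x = 0 := image_eq_zero_of_notMem_tsupport fun h' => h (hαs h')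
    have h2 : ω x = 0 := image_eq_zero_of_notMem_tsupport fun h' => h (hωs h')
    simp [hδ, h1, h2]
  have tωω := isTest_prodTest (z := z) hdet hD hω hω hωs hωs
  have tAω := isTest_prodTest (z := z) hdet hD hAs hω hAt hωs
  have tωA := isTest_prodTest (z := z) hdet hD hω hAs hωs hAt
  have tAA := isTest_prodTest (z := z) hdet hD hAs hAs hAt hAt
  have tδω := isTest_prodTest (z := z) hdet hD hδs hω hδt hωs
  have tωδ := isTest_prodTest (z := z) hdet hD hω hδs hωs hδt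
  have tδδ := isTest_prodTest (z := z) hdet hD hδs hδs hδt hδt
  have e1 := int_dir_a (z := z) hdet hf hw0 hw1 hAd hωd tAω
  have e2 := int_dir_b (z := z) hdet hf hw0 hw1 hωd hAd tωA
  have e3 := int_dir_ab (z := z) hdet hf hw00 hw01 hw11 hAd hAd hδs tAA
  have hsplit : (fun x => f x * prodTest a b z α α x) = fun x =>
      ((f x * prodTest a b z ω ω x + f x * prodTest a b z δ ω x)
        + f x * prodTest a b z ω δ x) + f x * prodTest a b z δ δ x := by
    funext x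
    simp only [prodTest, hδ]
    ring
  have i1 := integrable_mul_test hf tωω
  have i2 := integrable_mul_test hf tδω
  have i3 := integrable_mul_test hf tωδ
  have i4 := integrable_mul_test hf tδδ
  have i12 : IntegrableOn (fun x => f x * prodTest a b z ω ω x + f x * prodTest a b z δ ω x) D :=
    i1.add i2
  have i123 : IntegrableOn (fun x => (f x * prodTest a b z ω ω x + f x * prodTest a b z δ ω x)
      + f x * prodTest a b z ω δ x) D := i12.add i3
  rw [hsplit, integral_add i123 i4, integral_add i12 i3, integral_add i1 i2, e1, e2, e3]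
  have hω' : ∀ x, |ω x| ≤ Cω := fun x => by rw [abs_of_nonneg (hω0 x)]; exact hCω x
  have hCR : 1 ≤ Cω * R := one_le_mul_of_one_le_of_one_le hC1 hR
  have hC0 : 0 ≤ Cω := by linarith
  have bωω : ∀ x, |prodTest a b z ω ω x| ≤ Cω * Cω := fun x => by
    unfold prodTest
    rw [abs_mul]
    exact mul_le_mul (hω' _) (hω' _) (abs_nonneg _) hC0
  have bAω : ∀ x, |prodTest a b z A ω x| ≤ Cω := fun x => by
    unfold prodTest
    rw [abs_mul]
    calc |A (ucoord a b (x - z))| * |ω (vcoord a b (x - z))| ≤ 1 * Cω :=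
          mul_le_mul (hA1 _) (hω' _) (abs_nonneg _) (by norm_num)
      _ = Cω := one_mul _
  have bωA : ∀ x, |prodTest a b z ω A x| ≤ Cω := fun x => by
    unfold prodTest
    rw [abs_mul]
    calc |ω (ucoord a b (x - z))| * |A (vcoord a b (x - z))| ≤ Cω * 1 :=
          mul_le_mul (hω' _) (hA1 _) (abs_nonneg _) hC0
      _ = Cω := mul_one _
  have bAA : ∀ x, |prodTest a b z A A x| ≤ 1 := fun x => by
    unfold prodTest
    rw [abs_mul]
    calc |A (ucoord a b (x - z))| * |A (vcoord a b (x - z))| ≤ 1 * 1 :=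
          mul_le_mul (hA1 _) (hA1 _) (abs_nonneg _) (by norm_num)
      _ = 1 := mul_one _
  have q0 := abs_integral_mul_le hf bωω
  have q1 := abs_integral_mul_le hf0 bAω
  have q2 := abs_integral_mul_le hf1 bAω
  have q3 := abs_integral_mul_le hf0 bωA
  have q4 := abs_integral_mul_le hf1 bωA
  have q5 := abs_integral_mul_le hf00 bAA
  have q6 := abs_integral_mul_le hf01 bAA
  have q7 := abs_integral_mul_le hf11 bAA
  have n0 : 0 ≤ ∫ x in D, |f x| := integral_nonneg fun x => abs_nonneg _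
  have n1 : 0 ≤ ∫ x in D, |f0 x| := integral_nonneg fun x => abs_nonneg _
  have n2 : 0 ≤ ∫ x in D, |f1 x| := integral_nonneg fun x => abs_nonneg _
  have n3 : 0 ≤ ∫ x in D, |f00 x| := integral_nonneg fun x => abs_nonneg _
  have n4 : 0 ≤ ∫ x in D, |f01 x| := integral_nonneg fun x => abs_nonneg _
  have n5 : 0 ≤ ∫ x in D, |f11 x| := integral_nonneg fun x => abs_nonneg _
  set N0 := ∫ x in D, |f x|
  set N1 := ∫ x in D, |f0 x|
  set N2 := ∫ x in D, |f1 x|
  set N3 := ∫ x in D, |f00 x|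
  set N4 := ∫ x in D, |f01 x|
  set N5 := ∫ x in D, |f11 x|
  set I0 := ∫ x in D, f x * prodTest a b z ω ω x
  set I1 := ∫ x in D, f0 x * prodTest a b z A ω x
  set I2 := ∫ x in D, f1 x * prodTest a b z A ω x
  set I3 := ∫ x in D, f0 x * prodTest a b z ω A x
  set I4 := ∫ x in D, f1 x * prodTest a b z ω A x
  set I5 := ∫ x in D, f00 x * prodTest a b z A A x
  set I6 := ∫ x in D, f01 x * prodTest a b z A A x
  set I7 := ∫ x in D, f11 x * prodTest a b z A A x
  have hR0 : 0 ≤ R := by linarith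
  have hCR2 : Cω * R ≤ (Cω * R) ^ 2 := by nlinarith
  have hR2 : R ^ 2 ≤ (Cω * R) ^ 2 := by
    have : R ≤ Cω * R := le_mul_of_one_le_left hR0 hC1
    exact pow_le_pow_left₀ hR0 this 2
  have hCC : Cω * Cω ≤ (Cω * R) ^ 2 := by
    have : Cω ≤ Cω * R := le_mul_of_one_le_right hC0 hR
    calc Cω * Cω = Cω ^ 2 := by ring
      _ ≤ _ := pow_le_pow_left₀ hC0 this 2
  set M := (Cω * R) ^ 2 with hM
  have hM0 : 0 ≤ M := sq_nonneg _
  have t0 : |I0| ≤ M * N0 := q0.trans (mul_le_mul_of_nonneg_right hCC n0)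
  have t1 : |a 0 * I1| ≤ M * N1 := by
    rw [abs_mul]
    calc |a 0| * |I1| ≤ R * (Cω * N1) := mul_le_mul (ha 0) q1 (abs_nonneg _) hR0
      _ = (Cω * R) * N1 := by ring
      _ ≤ _ := mul_le_mul_of_nonneg_right hCR2 n1
  have t2 : |a 1 * I2| ≤ M * N2 := by
    rw [abs_mul]
    calc |a 1| * |I2| ≤ R * (Cω * N2) := mul_le_mul (ha 1) q2 (abs_nonneg _) hR0
      _ = (Cω * R) * N2 := by ring
      _ ≤ _ := mul_le_mul_of_nonneg_right hCR2 n2
  have t3 : |b 0 * I3| ≤ M * N1 := by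
    rw [abs_mul]
    calc |b 0| * |I3| ≤ R * (Cω * N1) := mul_le_mul (hb 0) q3 (abs_nonneg _) hR0
      _ = (Cω * R) * N1 := by ring
      _ ≤ _ := mul_le_mul_of_nonneg_right hCR2 n1
  have t4 : |b 1 * I4| ≤ M * N2 := by
    rw [abs_mul]
    calc |b 1| * |I4| ≤ R * (Cω * N2) := mul_le_mul (hb 1) q4 (abs_nonneg _) hR0
      _ = (Cω * R) * N2 := by ring
      _ ≤ _ := mul_le_mul_of_nonneg_right hCR2 n2
  have hab : ∀ i j, |a i * b j| ≤ R ^ 2 := fun i j => by
    rw [abs_mul, sq]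
    exact mul_le_mul (ha i) (hb j) (abs_nonneg _) hR0
  have t5 : |a 0 * b 0 * I5| ≤ M * N3 := by
    rw [abs_mul]
    calc |a 0 * b 0| * |I5| ≤ R ^ 2 * (1 * N3) :=
          mul_le_mul (hab 0 0) q5 (abs_nonneg _) (sq_nonneg _)
      _ = R ^ 2 * N3 := by ring
      _ ≤ _ := mul_le_mul_of_nonneg_right hR2 n3
  have t6 : |(a 0 * b 1 + a 1 * b 0) * I6| ≤ 2 * (M * N4) := by
    rw [abs_mul]
    have : |a 0 * b 1 + a 1 * b 0| ≤ 2 * R ^ 2 :=
      (abs_add_le _ _).trans (by linarith [hab 0 1, hab 1 0])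
    calc |a 0 * b 1 + a 1 * b 0| * |I6| ≤ (2 * R ^ 2) * (1 * N4) :=
          mul_le_mul this q6 (abs_nonneg _) (by positivity)
      _ = 2 * (R ^ 2 * N4) := by ring
      _ ≤ _ := by linarith [mul_le_mul_of_nonneg_right hR2 n4]
  have t7 : |a 1 * b 1 * I7| ≤ M * N5 := by
    rw [abs_mul]
    calc |a 1 * b 1| * |I7| ≤ R ^ 2 * (1 * N5) :=
          mul_le_mul (hab 1 1) q7 (abs_nonneg _) (sq_nonneg _)
      _ = R ^ 2 * N5 := by ring
      _ ≤ _ := mul_le_mul_of_nonneg_right hR2 n5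
  have m0 := mul_nonneg hM0 n0
  have m3 := mul_nonneg hM0 n3
  have m5 := mul_nonneg hM0 n5
  rw [abs_le] at t0 t1 t2 t3 t4 t5 t6 t7 ⊢
  have hrhs : 2 * M * (N0 + N1 + N2 + N3 + N4 + N5)
      = 2 * (M * N0) + 2 * (M * N1) + 2 * (M * N2) + 2 * (M * N3) + 2 * (M * N4)
        + 2 * (M * N5) := by ring
  rw [hrhs]
  constructor
  · linarith [t0.1, t1.2, t2.2, t3.2, t4.2, t5.1, t6.1, t7.1]
  · linarith [t0.2, t1.1, t2.1, t3.1, t4.1, t5.2, t6.2, t7.2]

end

end Pool.Agent.Lib.MP_961271_an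
end

section
open MeasureTheory Set Filter Topology
open scoped ENNReal

namespace Pool.Agent.Lib.MP_961271_an

variable {D : Set (Fin 2 → ℝ)} {a b z : Fin 2 → ℝ}

/-- The matrix of the skew coordinates. -/
noncomputable def skewMat (a b : Fin 2 → ℝ) : Matrix (Fin 2) (Fin 2) ℝ :=
  !![b 1 / (a 0 * b 1 - a 1 * b 0), - (b 0 / (a 0 * b 1 - a 1 * b 0));
     - (a 1 / (a 0 * b 1 - a 1 * b 0)), a 0 / (a 0 * b 1 - a 1 * b 0)]

theorem skewMat_det (_hdet : a 0 * b 1 - a 1 * b 0 ≠ 0) :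
    (skewMat a b).det = (a 0 * b 1 - a 1 * b 0)⁻¹ := by
  rw [Matrix.det_fin_two]
  simp [skewMat]
  field_simp

theorem skewMat_apply (x : Fin 2 → ℝ) :
    (Matrix.toLin' (skewMat a b)) x = ![ucoord a b x, vcoord a b x] := by
  ext i
  fin_cases i
  · simp [skewMat, Matrix.mulVec, dotProduct, Fin.sum_univ_two, ucoord]
    ring
  · simp [skewMat, Matrix.mulVec, dotProduct, Fin.sum_univ_two, vcoord]
    ring

theorem integral_prodTest (hdet : a 0 * b 1 - a 1 * b 0 ≠ 0) {α β : ℝ → ℝ}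
    (hα : Continuous α) (hβ : Continuous β) (z : Fin 2 → ℝ) :
    ∫ x, prodTest a b z α β x = |a 0 * b 1 - a 1 * b 0| * ((∫ t, α t) * ∫ t, β t) := by
  set h : (Fin 2 → ℝ) → ℝ := fun y => α (y 0) * β (y 1) with hh
  have hcont : Continuous h := by
    rw [hh]; exact (hα.comp (continuous_apply 0)).mul (hβ.comp (continuous_apply 1))
  have e1 : ∀ x, prodTest a b z α β x = h (Matrix.toLin' (skewMat a b) (x - z)) := by
    intro x
    rw [skewMat_apply]
    simp [hh, prodTest]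
  have hdetM : (skewMat a b).det ≠ 0 := by
    rw [skewMat_det hdet]; exact inv_ne_zero hdet
  have e2 : ∫ x, h (Matrix.toLin' (skewMat a b) x) = |a 0 * b 1 - a 1 * b 0| * ∫ y, h y := by
    have hmap := Real.map_matrix_volume_pi_eq_smul_volume_pi hdetM
    have hc : Continuous (Matrix.toLin' (skewMat a b)) := LinearMap.continuous_of_finiteDimensional _
    have := integral_map (μ := (volume : Measure (Fin 2 → ℝ))) (φ := Matrix.toLin' (skewMat a b))
      hc.measurable.aemeasurable (f := h) hcont.aestronglyMeasurable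
    rw [← this, hmap, integral_smul_measure, skewMat_det hdet, inv_inv,
      ENNReal.toReal_ofReal (abs_nonneg _), smul_eq_mul]
  calc ∫ x, prodTest a b z α β x = ∫ x, h (Matrix.toLin' (skewMat a b) (x - z)) := by
        simp only [e1]
    _ = ∫ x, h (Matrix.toLin' (skewMat a b) x) :=
        integral_sub_right_eq_self (fun x => h (Matrix.toLin' (skewMat a b) x)) z
    _ = |a 0 * b 1 - a 1 * b 0| * ∫ y, h y := e2
    _ = _ := by
        congr 1
        have := integral_fintype_prod_volume_eq_prod (ι := Fin 2) (E := fun _ => ℝ)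
          (fun i : Fin 2 => if i = 0 then α else β)
        simp only [Fin.prod_univ_two] at this
        simpa [hh] using this

/-- The pointwise bound. -/
theorem pointwise_bound (hDo : IsOpen D) (hdet : a 0 * b 1 - a 1 * b 0 ≠ 0)
    (hD : ∀ s ∈ Icc (0 : ℝ) 1, ∀ t ∈ Icc (0 : ℝ) 1, z + (s • a + t • b) ∈ D)
    {f f0 f1 f00 f01 f11 : (Fin 2 → ℝ) → ℝ} (hcf : ContinuousOn f D)
    (hf : IntegrableOn f D) (hf0 : IntegrableOn f0 D) (hf1 : IntegrableOn f1 D)
    (hf00 : IntegrableOn f00 D) (hf01 : IntegrableOn f01 D) (hf11 : IntegrableOn f11 D)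
    (hw0 : Weak1 D 0 f f0) (hw1 : Weak1 D 1 f f1)
    (hw00 : Weak2 D 0 0 f f00) (hw01 : Weak2 D 0 1 f f01) (hw11 : Weak2 D 1 1 f f11)
    {R : ℝ} (hR : 1 ≤ R) (ha : ∀ i, |a i| ≤ R) (hb : ∀ i, |b i| ≤ R)
    {ω : ℝ → ℝ} (hω : ContDiff ℝ ((⊤ : ℕ∞) : WithTop ℕ∞) ω) (hω0 : ∀ x, 0 ≤ ω x)
    (hωi : Integrable ω) (hω1 : ∫ x, ω x = 1) (hωs : tsupport ω ⊆ Icc 0 1)
    {Cω : ℝ} (hC1 : 1 ≤ Cω) (hCω : ∀ x, ω x ≤ Cω) :
    |a 0 * b 1 - a 1 * b 0| * |f z| ≤ 2 * (Cω * R) ^ 2 *
      ((∫ x in D, |f x|) + (∫ x in D, |f0 x|) + (∫ x in D, |f1 x|) + (∫ x in D, |f00 x|)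
        + (∫ x in D, |f01 x|) + ∫ x in D, |f11 x|) := by
  set Bd := 2 * (Cω * R) ^ 2 *
      ((∫ x in D, |f x|) + (∫ x in D, |f0 x|) + (∫ x in D, |f1 x|) + (∫ x in D, |f00 x|)
        + (∫ x in D, |f01 x|) + ∫ x in D, |f11 x|) with hBd
  set Δ := |a 0 * b 1 - a 1 * b 0| with hΔ
  have hΔ0 : 0 < Δ := abs_pos.2 hdet
  have hz : z ∈ D := by simpa using hD 0 (by simp) 0 (by simp)
  refine le_of_forall_pos_le_add fun ε hε => ?_
  have hcz : ContinuousAt f z := hcf.continuousAt (hDo.mem_nhds hz)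
  obtain ⟨δ, hδ, hδf⟩ := Metric.continuousAt_iff.1 hcz (ε / Δ) (div_pos hε hΔ0)
  -- choose the scale
  obtain ⟨τ, hτ0, hτ1, hτδ⟩ : ∃ τ : ℝ, 0 < τ ∧ τ ≤ 1 ∧ 2 * τ * R < δ := by
    refine ⟨min 1 (δ / (4 * R)), lt_min one_pos (by positivity), min_le_left _ _, ?_⟩
    have : min 1 (δ / (4 * R)) ≤ δ / (4 * R) := min_le_right _ _
    have hR0 : 0 < R := by linarith
    calc 2 * min 1 (δ / (4 * R)) * R ≤ 2 * (δ / (4 * R)) * R := by gcongr
      _ = δ / 2 := by field_simp; ring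
      _ < δ := by linarith
  obtain ⟨α, hα, hα0, hαi, hα1, hαs⟩ := exists_bump (τ / 2) (τ / 4) (by linarith)
  have hαs' : tsupport α ⊆ Icc 0 τ := hαs.trans (Icc_subset_Icc (by linarith) (by linarith))
  have hαs1 : tsupport α ⊆ Icc 0 1 := hαs'.trans (Icc_subset_Icc le_rfl hτ1)
  have hw := weighted_bound (z := z) hdet hD hf hf0 hf1 hf00 hf01 hf11 hw0 hw1 hw00 hw01 hw11
    hR ha hb hω hω0 hωi hω1 hωs hC1 hCω hα hα0 hαi hα1 hαs1
  have tP := isTest_prodTest (z := z) hdet hD hα hα hαs1 hαs1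
  set P := prodTest a b z α α with hP
  have hP0 : ∀ x, 0 ≤ P x := fun x => mul_nonneg (hα0 _) (hα0 _)
  have hPint : ∫ x in D, P x = Δ := by
    rw [setIntegral_eq_integral_of_forall_compl_eq_zero]
    · rw [hP, integral_prodTest hdet hα.continuous hα.continuous z, hα1]
      simp [hΔ]
    · intro x hx
      exact image_eq_zero_of_notMem_tsupport fun h => hx (tP.2.2 h)
  have hPi : IntegrableOn P D := (tP.1.continuous.integrable_of_hasCompactSupport tP.2.1).integrableOn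
  have hPsupp : ∀ x, P x ≠ 0 → dist x z < δ := by
    intro x hx
    have h1 : α (ucoord a b (x - z)) ≠ 0 := left_ne_zero_of_mul hx
    have h2 : α (vcoord a b (x - z)) ≠ 0 := right_ne_zero_of_mul hx
    have m1 := hαs' (subset_tsupport _ h1)
    have m2 := hαs' (subset_tsupport _ h2)
    have hx' : x - z = ucoord a b (x - z) • a + vcoord a b (x - z) • b := (coord_repr hdet _).symm
    rw [dist_eq_norm, hx', pi_norm_lt_iff hδ]
    intro i
    simp only [Pi.add_apply, Pi.smul_apply, smul_eq_mul, Real.norm_eq_abs]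
    have hR0 : 0 < R := by linarith
    calc |ucoord a b (x - z) * a i + vcoord a b (x - z) * b i|
        ≤ |ucoord a b (x - z) * a i| + |vcoord a b (x - z) * b i| := abs_add_le _ _
      _ ≤ τ * R + τ * R := by
          rw [abs_mul, abs_mul, abs_of_nonneg m1.1, abs_of_nonneg m2.1]
          exact add_le_add (mul_le_mul m1.2 (ha i) (abs_nonneg _) hτ0.le)
            (mul_le_mul m2.2 (hb i) (abs_nonneg _) hτ0.le)
      _ = 2 * τ * R := by ring
      _ < δ := hτδ
  have hdiff : |Δ * f z - ∫ x in D, f x * P x| ≤ ε := by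
    have e1 : Δ * f z - ∫ x in D, f x * P x = ∫ x in D, (f z - f x) * P x := by
      rw [← hPint, ← integral_mul_const, ← integral_sub (hPi.mul_const _)
        (integrable_mul_test hf tP)]
      congr 1
      funext x
      ring
    rw [e1, ← Real.norm_eq_abs]
    have e2 : ε = ∫ x in D, (ε / Δ) * P x := by
      rw [integral_const_mul, hPint]
      field_simp
    rw [e2]
    refine norm_integral_le_of_norm_le (hPi.const_mul _) (Eventually.of_forall fun x => ?_)
    rw [norm_mul, Real.norm_eq_abs, Real.norm_eq_abs, abs_of_nonneg (hP0 x)]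
    by_cases hx : P x = 0
    · simp [hx]
    · have h3 := hδf (hPsupp x hx)
      rw [Real.dist_eq, abs_sub_comm] at h3
      exact mul_le_mul_of_nonneg_right h3.le (hP0 x)
  have h4 : Δ * |f z| = |Δ * f z| := by rw [abs_mul, abs_of_pos hΔ0]
  rw [h4]
  calc |Δ * f z| = |(Δ * f z - ∫ x in D, f x * P x) + ∫ x in D, f x * P x| := by ring_nf
    _ ≤ |Δ * f z - ∫ x in D, f x * P x| + |∫ x in D, f x * P x| := abs_add_le _ _
    _ ≤ ε + Bd := add_le_add hdiff hw
    _ = Bd + ε := add_comm _ _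

end Pool.Agent.Lib.MP_961271_an
end

section
open MeasureTheory Set Filter Topology
open scoped ENNReal

namespace Pool.Agent.Lib.MP_961271_an

theorem mderiv_10 (φ : (Fin 2 → ℝ) → ℝ) : mderiv (![1, 0] : Fin 2 → ℕ) φ = pderiv 0 φ := rfl
theorem mderiv_01 (φ : (Fin 2 → ℝ) → ℝ) : mderiv (![0, 1] : Fin 2 → ℕ) φ = pderiv 1 φ := rfl
theorem mderiv_20 (φ : (Fin 2 → ℝ) → ℝ) :
    mderiv (![2, 0] : Fin 2 → ℕ) φ = pderiv 0 (pderiv 0 φ) := rfl
theorem mderiv_11 (φ : (Fin 2 → ℝ) → ℝ) :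
    mderiv (![1, 1] : Fin 2 → ℕ) φ = pderiv 0 (pderiv 1 φ) := rfl
theorem mderiv_02 (φ : (Fin 2 → ℝ) → ℝ) :
    mderiv (![0, 2] : Fin 2 → ℕ) φ = pderiv 1 (pderiv 1 φ) := rfl

theorem multiIdx_22 : multiIdx 2 2 = {![0, 0], ![1, 0], ![0, 1], ![2, 0], ![1, 1], ![0, 2]} := by
  decide

theorem multiIdx_21 : multiIdx 2 1 = {![0, 0], ![1, 0], ![0, 1]} := by
  decide

/-- `L_1` norms of the six derivatives of a function of the unit ball of `W_1^2`. -/
theorem sum_integrals_le {D : Set (Fin 2 → ℝ)} {g : (Fin 2 → ℕ) → (Fin 2 → ℝ) → ℝ}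
    (hg : ∀ α ∈ multiIdx 2 2, MemLp (g α) 1 (volume.restrict D)) (hn : sobNorm D 2 1 g ≤ 1) :
    (∫ x in D, |g ![0, 0] x|) + (∫ x in D, |g ![1, 0] x|) + (∫ x in D, |g ![0, 1] x|)
      + (∫ x in D, |g ![2, 0] x|) + (∫ x in D, |g ![1, 1] x|) + (∫ x in D, |g ![0, 2] x|) ≤ 1 := by
  have hconv : ∀ α ∈ multiIdx 2 2, ENNReal.ofReal (∫ x in D, |g α x|)
      = eLpNorm (g α) 1 (volume.restrict D) := by
    intro α hα
    rw [eLpNorm_one_eq_lintegral_enorm]
    exact ofReal_integral_norm_eq_lintegral_enorm (memLp_one_iff_integrable.1 (hg α hα))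
  have h1 : sobNorm D 2 1 g = ∑ α ∈ multiIdx 2 2, eLpNorm (g α) 1 (volume.restrict D) := by
    unfold sobNorm
    simp
  rw [h1, ← Finset.sum_congr rfl hconv, multiIdx_22] at hn
  have hnn : ∀ α : Fin 2 → ℕ, 0 ≤ ∫ x in D, |g α x| := fun α =>
    integral_nonneg fun x => abs_nonneg _
  rw [← ENNReal.ofReal_sum_of_nonneg (fun α _ => hnn α)] at hn
  have h2 := ENNReal.ofReal_le_one.1 hn
  have h3 : ∑ α ∈ ({![0, 0], ![1, 0], ![0, 1], ![2, 0], ![1, 1], ![0, 2]} : Finset (Fin 2 → ℕ)),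
      ∫ x in D, |g α x| = (∫ x in D, |g ![0, 0] x|) + (∫ x in D, |g ![1, 0] x|)
        + (∫ x in D, |g ![0, 1] x|) + (∫ x in D, |g ![2, 0] x|) + (∫ x in D, |g ![1, 1] x|)
        + (∫ x in D, |g ![0, 2] x|) := by
    rw [Finset.sum_insert (by decide), Finset.sum_insert (by decide), Finset.sum_insert (by decide),
      Finset.sum_insert (by decide), Finset.sum_insert (by decide), Finset.sum_singleton]
    ring
  linarith

theorem embed_cone {D : Set (Fin 2 → ℝ)} (hD : Admissible D) :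
    ∃ K : ℝ, 0 ≤ K ∧ ∀ f ∈ UnitBall D 2 1, ∀ z ∈ D, |f z| ≤ K := by
  obtain ⟨-, hDo, -, r, hr, θ, hθ, hcone⟩ := hD
  obtain ⟨ω, hω, hω0, hωi, hω1, hωs⟩ := exists_omega
  have hωs' : tsupport ω ⊆ Icc 0 1 := hωs.trans (Icc_subset_Icc (by norm_num) (by norm_num))
  have hωc : HasCompactSupport ω := isCompact_Icc.of_isClosed_subset (isClosed_tsupport _) hωs
  obtain ⟨C, hC⟩ := hω.continuous.bounded_above_of_compact_support hωc
  set Cω := max C 1 with hCω
  have hCω' : ∀ x, ω x ≤ Cω := fun x => (le_abs_self _).trans ((hC x).trans (le_max_left _ _))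
  set R := max r 1 with hR
  have hc0 : 0 < Real.cos θ := Real.cos_pos_of_mem_Ioo ⟨by linarith [hθ.1, Real.pi_pos], hθ.2⟩
  have hs0 : 0 < Real.sin θ := Real.sin_pos_of_pos_of_lt_pi hθ.1 (by linarith [hθ.2, Real.pi_pos])
  set c := Real.cos θ with hc
  set s := Real.sin θ with hs
  have hcs : c ^ 2 + s ^ 2 = 1 := by rw [hc, hs]; exact Real.cos_sq_add_sin_sq θ
  set Δ := (r / 2) ^ 2 * (2 * c * s) with hΔ
  have hΔ0 : 0 < Δ := by positivity
  refine ⟨2 * (Cω * R) ^ 2 / Δ, by positivity, fun f hf z hz => ?_⟩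
  obtain ⟨ξ, hξ, hcn⟩ := hcone z hz
  rw [Fin.sum_univ_two] at hξ
  simp only [Fin.sum_univ_two] at hcn
  set a : Fin 2 → ℝ := ![r / 2 * (c * ξ 0 - s * ξ 1), r / 2 * (c * ξ 1 + s * ξ 0)] with ha
  set b : Fin 2 → ℝ := ![r / 2 * (c * ξ 0 + s * ξ 1), r / 2 * (c * ξ 1 - s * ξ 0)] with hb
  have a0 : a 0 = r / 2 * (c * ξ 0 - s * ξ 1) := rfl
  have a1 : a 1 = r / 2 * (c * ξ 1 + s * ξ 0) := rfl
  have b0 : b 0 = r / 2 * (c * ξ 0 + s * ξ 1) := rfl
  have b1 : b 1 = r / 2 * (c * ξ 1 - s * ξ 0) := rfl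
  have hdetv : a 0 * b 1 - a 1 * b 0 = - Δ := by
    rw [a0, a1, b0, b1, hΔ]
    linear_combination (-(r / 2) ^ 2 * (2 * c * s)) * hξ
  have hdet : a 0 * b 1 - a 1 * b 0 ≠ 0 := by rw [hdetv]; exact neg_ne_zero.2 hΔ0.ne'
  have hdabs : |a 0 * b 1 - a 1 * b 0| = Δ := by rw [hdetv, abs_neg, abs_of_pos hΔ0]
  have hsq : ∀ x y : ℝ, x ^ 2 + y ^ 2 = (r / 2) ^ 2 → |x| ≤ R := by
    intro x y h
    have h1 : |x| ≤ r / 2 := by
      apply abs_le_of_sq_le_sq _ (by positivity)
      nlinarith [sq_nonneg y]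
    calc |x| ≤ r / 2 := h1
      _ ≤ r := by linarith
      _ ≤ R := le_max_left _ _
  have haa : a 0 ^ 2 + a 1 ^ 2 = (r / 2) ^ 2 := by
    rw [a0, a1]
    have : (c * ξ 0 - s * ξ 1) ^ 2 + (c * ξ 1 + s * ξ 0) ^ 2 = 1 := by
      calc _ = (c ^ 2 + s ^ 2) * (ξ 0 ^ 2 + ξ 1 ^ 2) := by ring
        _ = 1 := by rw [hcs, hξ, one_mul]
    linear_combination (r / 2) ^ 2 * this
  have hbb : b 0 ^ 2 + b 1 ^ 2 = (r / 2) ^ 2 := by
    rw [b0, b1]
    have : (c * ξ 0 + s * ξ 1) ^ 2 + (c * ξ 1 - s * ξ 0) ^ 2 = 1 := by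
      calc _ = (c ^ 2 + s ^ 2) * (ξ 0 ^ 2 + ξ 1 ^ 2) := by ring
        _ = 1 := by rw [hcs, hξ, one_mul]
    linear_combination (r / 2) ^ 2 * this
  have haR : ∀ i, |a i| ≤ R := by
    intro i
    fin_cases i
    · exact hsq _ _ haa
    · exact hsq _ _ (by rw [add_comm]; exact haa)
  have hbR : ∀ i, |b i| ≤ R := by
    intro i
    fin_cases i
    · exact hsq _ _ hbb
    · exact hsq _ _ (by rw [add_comm]; exact hbb)
  -- the parallelogram is contained in the cone
  have hpar : ∀ σ ∈ Icc (0 : ℝ) 1, ∀ t ∈ Icc (0 : ℝ) 1, z + (σ • a + t • b) ∈ D := by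
    intro σ hσ t ht
    set w : Fin 2 → ℝ := σ • a + t • b with hw
    set L := Real.sqrt (w 0 ^ 2 + w 1 ^ 2) with hL
    have hL2 : L ^ 2 = w 0 ^ 2 + w 1 ^ 2 := Real.sq_sqrt (by positivity)
    rcases (Real.sqrt_nonneg (w 0 ^ 2 + w 1 ^ 2)).eq_or_lt with hL0 | hL0
    · have hw0 : w = 0 := by
        have h0 : w 0 ^ 2 + w 1 ^ 2 = 0 := by rw [← hL2, hL, ← hL0]; ring
        have h00 : w 0 = 0 := pow_eq_zero_iff (two_ne_zero) |>.1
          (le_antisymm (by linarith [sq_nonneg (w 1)]) (sq_nonneg _))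
        have h01 : w 1 = 0 := pow_eq_zero_iff (two_ne_zero) |>.1
          (le_antisymm (by linarith [sq_nonneg (w 0)]) (sq_nonneg _))
        ext i
        fin_cases i
        · exact h00
        · exact h01
      rw [hw0, add_zero]; exact hz
    · have hLpos : 0 < L := hL0
      have w0 : w 0 = σ * a 0 + t * b 0 := by simp [hw]
      have w1 : w 1 = σ * a 1 + t * b 1 := by simp [hw]
      have hcross : a 0 * b 0 + a 1 * b 1 ≤ (r / 2) ^ 2 := by
        linarith [sq_nonneg (a 0 - b 0), sq_nonneg (a 1 - b 1),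
          sub_sq (a 0) (b 0), sub_sq (a 1) (b 1)]
      have hLle : L ≤ (σ + t) * (r / 2) := by
        apply Real.sqrt_le_iff.2
        refine ⟨mul_nonneg (add_nonneg hσ.1 ht.1) (by positivity), ?_⟩
        rw [w0, w1]
        have hst : 0 ≤ σ * t := mul_nonneg hσ.1 ht.1
        have hm := mul_le_mul_of_nonneg_left hcross hst
        have e1 : (σ * a 0 + t * b 0) ^ 2 + (σ * a 1 + t * b 1) ^ 2
            = σ ^ 2 * (a 0 ^ 2 + a 1 ^ 2) + t ^ 2 * (b 0 ^ 2 + b 1 ^ 2)
              + 2 * (σ * t * (a 0 * b 0 + a 1 * b 1)) := by ring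
        rw [e1, haa, hbb]
        calc σ ^ 2 * (r / 2) ^ 2 + t ^ 2 * (r / 2) ^ 2 + 2 * (σ * t * (a 0 * b 0 + a 1 * b 1))
            ≤ σ ^ 2 * (r / 2) ^ 2 + t ^ 2 * (r / 2) ^ 2 + 2 * (σ * t * (r / 2) ^ 2) := by linarith
          _ = ((σ + t) * (r / 2)) ^ 2 := by ring
      have hin : w 0 * ξ 0 + w 1 * ξ 1 = (σ + t) * (r / 2) * c := by
        rw [w0, w1, a0, a1, b0, b1]
        linear_combination (r / 2 * c * (σ + t)) * hξ
      have := hcn (L⁻¹ • w) ?_ ?_ L ⟨hLpos.le, ?_⟩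
      · rw [smul_smul, mul_inv_cancel₀ hLpos.ne', one_smul] at this
        exact this
      · simp only [Pi.smul_apply, smul_eq_mul]
        rw [mul_pow, mul_pow, ← mul_add, ← hL2, inv_pow]
        exact inv_mul_cancel₀ (by positivity)
      · simp only [Pi.smul_apply, smul_eq_mul]
        have : L⁻¹ * w 0 * ξ 0 + L⁻¹ * w 1 * ξ 1 = L⁻¹ * ((σ + t) * (r / 2) * c) := by
          rw [← hin]; ring
        rw [this, ← div_eq_inv_mul, le_div_iff₀ hLpos]
        calc c * L ≤ c * ((σ + t) * (r / 2)) := mul_le_mul_of_nonneg_left hLle hc0.le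
          _ = (σ + t) * (r / 2) * c := by ring
      · calc L ≤ (σ + t) * (r / 2) := hLle
          _ ≤ 2 * (r / 2) := by
            apply mul_le_mul_of_nonneg_right _ (by positivity)
            linarith [hσ.2, ht.2]
          _ = r := by ring
  obtain ⟨hcf, g, hg0, hg, hn⟩ := hf
  have hgi : ∀ α ∈ multiIdx 2 2, IntegrableOn (g α) D := fun α hα =>
    memLp_one_iff_integrable.1 (hg α hα).1
  have hsum := sum_integrals_le (fun α hα => (hg α hα).1) hn
  have m0 : (![0, 0] : Fin 2 → ℕ) ∈ multiIdx 2 2 := by decide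
  have m1 : (![1, 0] : Fin 2 → ℕ) ∈ multiIdx 2 2 := by decide
  have m2 : (![0, 1] : Fin 2 → ℕ) ∈ multiIdx 2 2 := by decide
  have m3 : (![2, 0] : Fin 2 → ℕ) ∈ multiIdx 2 2 := by decide
  have m4 : (![1, 1] : Fin 2 → ℕ) ∈ multiIdx 2 2 := by decide
  have m5 : (![0, 2] : Fin 2 → ℕ) ∈ multiIdx 2 2 := by decide
  have hzero : (![0, 0] : Fin 2 → ℕ) = 0 := by decide
  rw [hzero, hg0] at hsum
  have hfi : IntegrableOn f D := by
    have := hgi _ m0
    rwa [hzero, hg0] at this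
  have hw0 : Weak1 D 0 f (g ![1, 0]) := by
    intro φ hφ
    have := (hg _ m1).2 φ hφ
    rw [mderiv_10] at this
    simpa [Fin.sum_univ_two] using this
  have hw1 : Weak1 D 1 f (g ![0, 1]) := by
    intro φ hφ
    have := (hg _ m2).2 φ hφ
    rw [mderiv_01] at this
    simpa [Fin.sum_univ_two] using this
  have hw00 : Weak2 D 0 0 f (g ![2, 0]) := by
    intro φ hφ
    have := (hg _ m3).2 φ hφ
    rw [mderiv_20] at this
    simpa [Fin.sum_univ_two] using this
  have hw01 : Weak2 D 0 1 f (g ![1, 1]) := by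
    intro φ hφ
    have := (hg _ m4).2 φ hφ
    rw [mderiv_11] at this
    simpa [Fin.sum_univ_two] using this
  have hw11 : Weak2 D 1 1 f (g ![0, 2]) := by
    intro φ hφ
    have := (hg _ m5).2 φ hφ
    rw [mderiv_02] at this
    simpa [Fin.sum_univ_two] using this
  have key := pointwise_bound hDo hdet hpar hcf hfi (hgi _ m1) (hgi _ m2) (hgi _ m3) (hgi _ m4)
    (hgi _ m5) hw0 hw1 hw00 hw01 hw11 (le_max_right r 1) haR hbR hω hω0 hωi hω1 hωs'
    (le_max_right C 1) hCω'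
  rw [hdabs] at key
  rw [le_div_iff₀ hΔ0, mul_comm]
  calc Δ * |f z| ≤ _ := key
    _ ≤ 2 * (Cω * R) ^ 2 * 1 := mul_le_mul_of_nonneg_left hsum (by positivity)
    _ = 2 * (Cω * R) ^ 2 := mul_one _

end Pool.Agent.Lib.MP_961271_an
end

section
/-!
A Morrey type inequality by the kernel method.
-/
open MeasureTheory Set Filter Topology
open scoped ENNReal

namespace Pool.Agent.Lib.MP_961271_an

variable {d : ℕ}

theorem integral_ker (η : (Fin d → ℝ) → ℝ) (z : Fin d → ℝ) {t : ℝ} (ht : 0 < t) :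
    ∫ x, ker η z t x = ∫ x, η x := by
  unfold ker
  rw [integral_const_mul]
  have h1 : ∫ x, η (t⁻¹ • (x - z)) = ∫ x, η (t⁻¹ • x) :=
    integral_sub_right_eq_self (fun x => η (t⁻¹ • x)) z
  rw [h1, Measure.integral_comp_inv_smul_of_nonneg volume _ ht.le]
  simp only [Module.finrank_fintype_fun_eq_card, Fintype.card_fin, smul_eq_mul]
  rw [← mul_assoc, inv_pow, inv_mul_cancel₀ (by positivity), one_mul]

theorem abs_ker (η : (Fin d → ℝ) → ℝ) (z : Fin d → ℝ) {t : ℝ} (ht : 0 < t) (x : Fin d → ℝ) :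
    |ker η z t x| = ker (fun y => |η y|) z t x := by
  unfold ker
  rw [abs_mul, abs_of_pos (by positivity)]

theorem integrable_ker {η : (Fin d → ℝ) → ℝ} (hη : ContDiff ℝ ((⊤ : ℕ∞) : WithTop ℕ∞) η)
    (hc : HasCompactSupport η) (z : Fin d → ℝ) {t : ℝ} (ht : 0 < t) : Integrable (ker η z t) :=
  (ker_smooth hη z t).continuous.integrable_of_hasCompactSupport (ker_compact hc z ht.ne')

/-- The weighted means converge to the value at the centre. -/
theorem FF_tendsto {D : Set (Fin d → ℝ)} (hDo : IsOpen D) {η : (Fin d → ℝ) → ℝ}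
    (hη : ContDiff ℝ ((⊤ : ℕ∞) : WithTop ℕ∞) η) (hc : HasCompactSupport η)
    (h1 : ∫ y, η y = 1) {z : Fin d → ℝ} (hz : z ∈ D)
    (hsupp : ∀ t ∈ Ioc (0 : ℝ) 1, ∀ y ∈ tsupport η, z + t • y ∈ D)
    {f : (Fin d → ℝ) → ℝ} (hfc : ContinuousOn f D) (hf : IntegrableOn f D) :
    Tendsto (FF D f η z) (𝓝[>] 0) (𝓝 (f z)) := by
  set I : ℝ := ∫ y, |η y| with hI
  have hI0 : 0 ≤ I := integral_nonneg fun _ => abs_nonneg _
  obtain ⟨ρ, hρ⟩ := hc.isBounded.exists_norm_le
  have hρ0 : 0 ≤ max ρ 1 := le_trans zero_le_one (le_max_right _ _)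
  rw [Metric.tendsto_nhds]
  intro ε hε
  -- continuity at `z`
  have hcz : ContinuousAt f z := hfc.continuousAt (hDo.mem_nhds hz)
  obtain ⟨δ, hδ, hfδ⟩ := Metric.continuousAt_iff.1 hcz (ε / (I + 1)) (by positivity)
  have hev : ∀ᶠ t : ℝ in 𝓝[>] 0, t ∈ Ioc (0 : ℝ) 1 ∧ t * max ρ 1 < δ := by
    have e1 : ∀ᶠ t : ℝ in 𝓝[>] 0, t ∈ Ioc (0 : ℝ) 1 := Ioc_mem_nhdsGT zero_lt_one
    have e2 : ∀ᶠ t : ℝ in 𝓝[>] 0, t ∈ Ioo (0 : ℝ) (δ / max ρ 1) :=
      Ioo_mem_nhdsGT (by positivity)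
    filter_upwards [e1, e2] with t ht1 ht2
    refine ⟨ht1, ?_⟩
    have := ht2.2
    rwa [lt_div_iff₀ (by positivity)] at this
  filter_upwards [hev] with t ht
  obtain ⟨htI, htδ⟩ := ht
  have ht0 : 0 < t := htI.1
  have htest : IsTest D (ker η z t) := ker_isTest hη hc ht0.ne' (hsupp t htI)
  have hkint : Integrable (ker η z t) := integrable_ker hη hc z ht0
  obtain ⟨B, hB⟩ := (ker_smooth hη z t).continuous.bounded_above_of_compact_support
    (ker_compact hc z ht0.ne')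
  have hfk : IntegrableOn (fun x => f x * ker η z t x) D :=
    hf.mul_bdd (c := B) (ker_smooth hη z t).continuous.aestronglyMeasurable
      (Eventually.of_forall hB)
  have hker1 : ∫ x in D, ker η z t x = 1 := by
    rw [setIntegral_eq_integral_of_forall_compl_eq_zero, integral_ker η z ht0, h1]
    intro x hx
    exact image_eq_zero_of_notMem_tsupport fun h => hx (htest.2.2 h)
  have hdiff : FF D f η z t - f z = ∫ x in D, (f x - f z) * ker η z t x := by
    unfold FF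
    simp only [sub_mul]
    rw [integral_sub hfk (hkint.integrableOn.const_mul _), integral_const_mul, hker1, mul_one]
  have habs : Integrable (fun x => |ker η z t x|) := hkint.abs
  rw [dist_eq_norm, Real.norm_eq_abs, hdiff]
  have hle : |∫ x in D, (f x - f z) * ker η z t x| ≤ ∫ x in D, ε / (I + 1) * |ker η z t x| := by
    rw [← Real.norm_eq_abs]
    refine norm_integral_le_of_norm_le (habs.integrableOn.const_mul _) ?_
    filter_upwards [self_mem_ae_restrict hDo.measurableSet] with x hx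
    rw [norm_mul, Real.norm_eq_abs, Real.norm_eq_abs]
    by_cases hk : ker η z t x = 0
    · rw [hk]; simp
    · apply mul_le_mul_of_nonneg_right _ (abs_nonneg _)
      have hxs : t⁻¹ • (x - z) ∈ tsupport η := by
        apply ker_tsupport
        exact subset_tsupport _ hk
      have hn := hρ _ hxs
      have hd : dist x z < δ := by
        rw [dist_eq_norm]
        have : x - z = t • (t⁻¹ • (x - z)) := by
          rw [smul_smul, mul_inv_cancel₀ ht0.ne', one_smul]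
        rw [this, norm_smul, Real.norm_eq_abs, abs_of_pos ht0]
        calc t * ‖t⁻¹ • (x - z)‖ ≤ t * max ρ 1 :=
              mul_le_mul_of_nonneg_left (hn.trans (le_max_left _ _)) ht0.le
          _ < δ := htδ
      have := hfδ hd
      rw [dist_eq_norm, Real.norm_eq_abs] at this
      exact this.le
  refine lt_of_le_of_lt hle ?_
  rw [integral_const_mul]
  have h2 : ∫ x in D, |ker η z t x| ≤ I := by
    refine (setIntegral_le_integral habs (Eventually.of_forall fun _ => abs_nonneg _)).trans ?_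
    have : (fun x => |ker η z t x|) = ker (fun y => |η y|) z t := by
      funext x
      exact abs_ker η z ht0 x
    rw [this, integral_ker _ z ht0]
  calc ε / (I + 1) * ∫ x in D, |ker η z t x| ≤ ε / (I + 1) * I := by gcongr
    _ < ε / (I + 1) * (I + 1) := by gcongr; linarith
    _ = ε := by field_simp

/-- Hoelder's inequality on a set of small measure. -/
theorem setIntegral_abs_le {A q : Set (Fin d → ℝ)} (hAq : A ⊆ q)
    {g : (Fin d → ℝ) → ℝ} (hg : MemLp g 4 (volume.restrict q)) {v : ℝ} (hv : 0 ≤ v)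
    (hvol : volume A ≤ ENNReal.ofReal v) :
    IntegrableOn g A ∧
    ∫ x in A, |g x| ≤ v ^ (3 / 4 : ℝ) * (eLpNorm g 4 (volume.restrict q)).toReal := by
  have hAt : volume A ≠ ⊤ := (hvol.trans_lt ENNReal.ofReal_lt_top).ne
  have hgA : MemLp g 4 (volume.restrict A) := hg.mono_measure (Measure.restrict_mono hAq le_rfl)
  have : IsFiniteMeasure (volume.restrict A) := ⟨by
    rw [Measure.restrict_apply_univ]; exact lt_top_iff_ne_top.2 hAt⟩
  have hg1 : MemLp g 1 (volume.restrict A) := hgA.mono_exponent (by norm_num)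
  have hint : IntegrableOn g A := memLp_one_iff_integrable.1 hg1
  refine ⟨hint, ?_⟩
  have h1 := eLpNorm_le_eLpNorm_mul_rpow_measure_univ (μ := volume.restrict A) (f := g)
    (p := 1) (q := 4) (by norm_num) hgA.1
  have h2 : eLpNorm g 4 (volume.restrict A) ≤ eLpNorm g 4 (volume.restrict q) :=
    eLpNorm_mono_measure g (Measure.restrict_mono hAq le_rfl)
  have h3 : ENNReal.ofReal (∫ x in A, |g x|) = eLpNorm g 1 (volume.restrict A) := by
    rw [eLpNorm_one_eq_lintegral_enorm]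
    exact ofReal_integral_norm_eq_lintegral_enorm hint
  have hB : eLpNorm g 4 (volume.restrict q) ≠ ⊤ := hg.2.ne
  have h4 : ENNReal.ofReal (∫ x in A, |g x|) ≤
      ENNReal.ofReal ((eLpNorm g 4 (volume.restrict q)).toReal * v ^ (3 / 4 : ℝ)) := by
    rw [h3, ENNReal.ofReal_mul ENNReal.toReal_nonneg, ENNReal.ofReal_toReal hB,
      ← ENNReal.ofReal_rpow_of_nonneg hv (by norm_num)]
    refine h1.trans (mul_le_mul' h2 ?_)
    rw [Measure.restrict_apply_univ]
    have e : (1 / (1 : ℝ≥0∞).toReal - 1 / (4 : ℝ≥0∞).toReal) = 3 / 4 := by norm_num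
    rw [e]
    exact ENNReal.rpow_le_rpow hvol (by norm_num)
  rw [ENNReal.ofReal_le_ofReal_iff (by positivity)] at h4
  linarith

/-- Bound for the mean of a function against the dilated kernel. -/
theorem abs_FF_le {D q : Set (Fin 2 → ℝ)} (hD : MeasurableSet D) (hqD : q ⊆ D)
    {θ : (Fin 2 → ℝ) → ℝ} {M V : ℝ} (hM : ∀ y, |θ y| ≤ M) (hV0 : 0 ≤ V)
    (hV : volume (tsupport θ) ≤ ENNReal.ofReal V)
    {z : Fin 2 → ℝ} {t : ℝ} (ht : 0 < t) (hsupp : ∀ y ∈ tsupport θ, z + t • y ∈ q)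
    {g : (Fin 2 → ℝ) → ℝ} (hg : MemLp g 4 (volume.restrict q)) :
    |FF D g θ z t| ≤ M * V ^ (3 / 4 : ℝ) * (eLpNorm g 4 (volume.restrict q)).toReal
      * t ^ (-(1 / 2) : ℝ) := by
  have hM0 : 0 ≤ M := (abs_nonneg _).trans (hM 0)
  -- the support region
  set A : Set (Fin 2 → ℝ) := (fun x => t⁻¹ • (x - z)) ⁻¹' tsupport θ with hA
  have hAm : MeasurableSet A := by
    have hc : Continuous (fun x : Fin 2 → ℝ => t⁻¹ • (x - z)) := by fun_prop
    exact hc.measurable (isClosed_tsupport θ).measurableSet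
  have hAq : A ⊆ q := by
    intro x hx
    have := hsupp _ hx
    simpa [smul_smul, ht.ne'] using this
  have hvolA : volume A ≤ ENNReal.ofReal (t ^ 2 * V) := by
    have e : A = (fun x => x - z) ⁻¹' ((fun x => t⁻¹ • x) ⁻¹' tsupport θ) := rfl
    have e2 : volume A = volume ((fun x : Fin 2 → ℝ => t⁻¹ • x) ⁻¹' tsupport θ) := by
      rw [e]
      simp only [sub_eq_add_neg]
      exact measure_preimage_add_right volume (-z) _
    rw [e2, Measure.addHaar_preimage_smul volume (inv_ne_zero ht.ne')]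
    simp only [Module.finrank_fintype_fun_eq_card, Fintype.card_fin]
    rw [inv_pow, inv_inv, abs_of_pos (by positivity), ENNReal.ofReal_mul (by positivity)]
    exact mul_le_mul' le_rfl hV
  obtain ⟨hgi, hgb⟩ := setIntegral_abs_le hAq hg (by positivity) hvolA
  have hz0 : ∀ x, x ∉ A → ker θ z t x = 0 := by
    intro x hx
    unfold ker
    rw [image_eq_zero_of_notMem_tsupport (f := θ) hx, mul_zero]
  have hFF : FF D g θ z t = ∫ x in A, g x * ker θ z t x := by
    unfold FF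
    exact setIntegral_eq_of_subset_of_forall_sdiff_eq_zero hD (hAq.trans hqD)
      (fun x hx => by rw [hz0 x hx.2, mul_zero])
  rw [hFF]
  have h1 : |∫ x in A, g x * ker θ z t x| ≤ ∫ x in A, (t⁻¹ ^ 2 * M) * |g x| := by
    rw [← Real.norm_eq_abs]
    refine norm_integral_le_of_norm_le (hgi.abs.const_mul _) (Eventually.of_forall fun x => ?_)
    rw [norm_mul, Real.norm_eq_abs, Real.norm_eq_abs, mul_comm]
    refine mul_le_mul_of_nonneg_right ?_ (abs_nonneg _)
    unfold ker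
    rw [abs_mul, abs_of_pos (by positivity : 0 < t⁻¹ ^ 2)]
    exact mul_le_mul_of_nonneg_left (hM _) (by positivity)
  refine h1.trans ?_
  rw [integral_const_mul]
  have h2 : (t ^ 2 * V) ^ (3 / 4 : ℝ) = t ^ (3 / 2 : ℝ) * V ^ (3 / 4 : ℝ) := by
    rw [Real.mul_rpow (by positivity) hV0]
    congr 1
    rw [← Real.rpow_natCast, ← Real.rpow_mul ht.le]
    norm_num
  have h3 : t⁻¹ ^ 2 * t ^ (3 / 2 : ℝ) = t ^ (-(1 / 2) : ℝ) := by
    rw [inv_pow, ← Real.rpow_natCast, ← Real.rpow_neg ht.le, ← Real.rpow_add ht]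
    norm_num
  calc t⁻¹ ^ 2 * M * ∫ x in A, |g x|
      ≤ t⁻¹ ^ 2 * M * ((t ^ 2 * V) ^ (3 / 4 : ℝ) * (eLpNorm g 4 (volume.restrict q)).toReal) := by
        gcongr
    _ = M * V ^ (3 / 4 : ℝ) * (eLpNorm g 4 (volume.restrict q)).toReal
        * (t⁻¹ ^ 2 * t ^ (3 / 2 : ℝ)) := by rw [h2]; ring
    _ = _ := by rw [h3]

/-- The kernel estimate for the oscillation. -/
theorem kernel_osc {D q : Set (Fin 2 → ℝ)} (hDo : IsOpen D) (hqD : q ⊆ D)
    {η : (Fin 2 → ℝ) → ℝ} (hη : ContDiff ℝ ((⊤ : ℕ∞) : WithTop ℕ∞) η) (hc : HasCompactSupport η)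
    (h1 : ∫ y, η y = 1) {M V : ℝ} (hM : ∀ i y, |cmul i η y| ≤ M) (hV0 : 0 ≤ V)
    (hV : volume (tsupport η) ≤ ENNReal.ofReal V)
    {z : Fin 2 → ℝ} (hz : z ∈ D) (hsupp : ∀ t ∈ Ioc (0 : ℝ) 1, ∀ y ∈ tsupport η, z + t • y ∈ q)
    {f : (Fin 2 → ℝ) → ℝ} {g : Fin 2 → (Fin 2 → ℝ) → ℝ} (hfc : ContinuousOn f D)
    (hf : IntegrableOn f D) (hw : ∀ i, Weak1 D i f (g i))
    (hg : ∀ i, MemLp (g i) 4 (volume.restrict q)) :
    |f z - FF D f η z 1| ≤ 2 * (M * V ^ (3 / 4 : ℝ)
      * ∑ i, (eLpNorm (g i) 4 (volume.restrict q)).toReal) := by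
  have hM0 : 0 ≤ M := (abs_nonneg _).trans (hM 0 0)
  set B : ℝ := M * V ^ (3 / 4 : ℝ) * ∑ i, (eLpNorm (g i) 4 (volume.restrict q)).toReal with hB
  have hB0 : 0 ≤ B := by positivity
  set F : ℝ → ℝ := FF D f η z with hF
  set F' : ℝ → ℝ := fun t => ∑ i, FF D (g i) (cmul i η) z t with hF'
  have hder : ∀ t ∈ Ioc (0 : ℝ) 1, HasDerivAt F (F' t) t := fun t ht =>
    hasDerivAt_FF hη hc ht.1 (fun y hy => hqD (hsupp t ht y hy)) hf hw
  have hbd : ∀ t ∈ Ioc (0 : ℝ) 1, |F' t| ≤ B * t ^ (-(1 / 2) : ℝ) := by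
    intro t ht
    simp only [hF', hB]
    refine (Finset.abs_sum_le_sum_abs _ _).trans ?_
    rw [Finset.mul_sum, Finset.sum_mul]
    refine Finset.sum_le_sum fun i _ => ?_
    refine abs_FF_le hDo.measurableSet hqD (hM i) hV0 ?_ ht.1
      (fun y hy => hsupp t ht y (cmul_supp hy)) (hg i)
    exact (measure_mono cmul_supp).trans hV
  have hsq : ∀ t : ℝ, 0 < t → HasDerivAt (fun t : ℝ => 2 * B * Real.sqrt t)
      (B * t ^ (-(1 / 2) : ℝ)) t := by
    intro t ht
    have := (Real.hasDerivAt_sqrt ht.ne').const_mul (2 * B)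
    refine this.congr_deriv ?_
    rw [Real.rpow_neg ht.le, ← Real.sqrt_eq_rpow]
    field_simp
  -- comparison on `[t, 1]`
  have hcmp : ∀ t ∈ Ioc (0 : ℝ) 1, |F 1 - F t| ≤ 2 * B := by
    intro t ht
    have key : ∀ s : ℝ, |s| = 1 → s * (F 1 - F t) ≤ 2 * B := by
      intro s hs
      have hanti : AntitoneOn (fun u => s * F u - 2 * B * Real.sqrt u) (Icc t 1) := by
        have hpos : ∀ u ∈ Icc t 1, u ∈ Ioc (0 : ℝ) 1 := fun u hu => ⟨lt_of_lt_of_le ht.1 hu.1, hu.2⟩
        have hd : ∀ u ∈ Icc t 1, HasDerivAt (fun u => s * F u - 2 * B * Real.sqrt u)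
            (s * F' u - B * u ^ (-(1 / 2) : ℝ)) u := fun u hu =>
          ((hder u (hpos u hu)).const_mul s).sub (hsq u (hpos u hu).1)
        apply antitoneOn_of_deriv_nonpos (convex_Icc t 1)
        · exact fun u hu => (hd u hu).continuousAt.continuousWithinAt
        · exact fun u hu => (hd u (interior_subset hu)).differentiableAt.differentiableWithinAt
        · intro u hu
          rw [(hd u (interior_subset hu)).deriv]
          have h2 := hbd u (hpos u (interior_subset hu))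
          have h3 : s * F' u ≤ |F' u| := by
            calc s * F' u ≤ |s * F' u| := le_abs_self _
              _ = |F' u| := by rw [abs_mul, hs, one_mul]
          linarith
      have h4 := hanti (left_mem_Icc.2 ht.2) (right_mem_Icc.2 ht.2) ht.2
      simp only [Real.sqrt_one, mul_one] at h4
      have h5 : 0 ≤ 2 * B * Real.sqrt t := by positivity
      linarith
    rw [abs_le]
    constructor
    · have := key (-1) (by norm_num)
      linarith
    · have := key 1 (by norm_num)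
      linarith
  have hlim := FF_tendsto hDo hη hc h1 hz (fun t ht y hy => hqD (hsupp t ht y hy)) hfc hf
  have h6 : Tendsto (fun t => |F 1 - F t|) (𝓝[>] 0) (𝓝 |F 1 - f z|) :=
    (tendsto_const_nhds.sub hlim).abs
  have h7 := le_of_tendsto h6 (b := 2 * B) (by
    filter_upwards [Ioc_mem_nhdsGT (zero_lt_one' ℝ)] with t ht using hcmp t ht)
  rw [abs_sub_comm]
  exact h7

end Pool.Agent.Lib.MP_961271_an
end

section
/-!
The oscillation estimate on squares.
-/
open MeasureTheory Set Filter Topology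
open scoped ENNReal

namespace Pool.Agent.Lib.MP_961271_an

/-- Open square with lower left corner `c` and side `ℓ`. -/
def Sq (c : Fin 2 → ℝ) (ℓ : ℝ) : Set (Fin 2 → ℝ) :=
  Set.univ.pi fun i => Ioo (c i) (c i + ℓ)

/-- Closed square. -/
def Sqc (c : Fin 2 → ℝ) (ℓ : ℝ) : Set (Fin 2 → ℝ) :=
  Set.univ.pi fun i => Icc (c i) (c i + ℓ)

theorem sq_open (c : Fin 2 → ℝ) (ℓ : ℝ) : IsOpen (Sq c ℓ) :=
  isOpen_set_pi finite_univ fun _ _ => isOpen_Ioo

theorem volume_sq (c : Fin 2 → ℝ) {ℓ : ℝ} (hℓ : 0 ≤ ℓ) :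
    volume (Sq c ℓ) = ENNReal.ofReal (ℓ ^ 2) := by
  unfold Sq
  rw [Real.volume_pi_Ioo]
  simp [← ENNReal.ofReal_mul hℓ, sq]

theorem volume_sqc (c : Fin 2 → ℝ) {ℓ : ℝ} (hℓ : 0 ≤ ℓ) :
    volume (Sqc c ℓ) = ENNReal.ofReal (ℓ ^ 2) := by
  unfold Sqc
  rw [Set.pi_univ_Icc, Real.volume_Icc_pi]
  simp [← ENNReal.ofReal_mul hℓ, sq]

/-- The bump attached to a cell, seen from the point `z`. -/
noncomputable def cellEta (ω : ℝ → ℝ) (c : Fin 2 → ℝ) (ℓ : ℝ) (z y : Fin 2 → ℝ) : ℝ :=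
  ∏ i, (ℓ⁻¹ * ω (ℓ⁻¹ * (z i + y i - c i)))

theorem cellEta_smooth {ω : ℝ → ℝ} (hω : ContDiff ℝ ((⊤ : ℕ∞) : WithTop ℕ∞) ω)
    (c : Fin 2 → ℝ) (ℓ : ℝ) (z : Fin 2 → ℝ) :
    ContDiff ℝ ((⊤ : ℕ∞) : WithTop ℕ∞) (cellEta ω c ℓ z) := by
  unfold cellEta
  refine contDiff_prod fun i _ => contDiff_const.mul (hω.comp ?_)
  exact contDiff_const.mul ((contDiff_const.add (contDiff_apply ℝ ℝ i)).sub contDiff_const)

theorem cellEta_tsupport {ω : ℝ → ℝ} (hωs : tsupport ω ⊆ Icc (1 / 4) (3 / 4))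
    {c : Fin 2 → ℝ} {ℓ : ℝ} (hℓ : 0 < ℓ) {z y : Fin 2 → ℝ} (hy : y ∈ tsupport (cellEta ω c ℓ z)) :
    ∀ i, z i + y i ∈ Icc (c i + ℓ / 4) (c i + 3 * ℓ / 4) := by
  have hclosed : IsClosed {y : Fin 2 → ℝ | ∀ i, z i + y i ∈ Icc (c i + ℓ / 4) (c i + 3 * ℓ / 4)} := by
    simp only [Set.ofPred_forall]
    refine isClosed_iInter fun i => ?_
    exact isClosed_Icc.preimage (by fun_prop)
  refine (closure_minimal ?_ hclosed) hy
  intro y hy i
  have h1 : ω (ℓ⁻¹ * (z i + y i - c i)) ≠ 0 := by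
    intro h0
    apply hy
    unfold cellEta
    exact Finset.prod_eq_zero (Finset.mem_univ i) (by rw [h0, mul_zero])
  have h2 := hωs (subset_tsupport _ h1)
  have e : ℓ⁻¹ * (z i + y i - c i) = (z i + y i - c i) / ℓ := by rw [div_eq_inv_mul]
  rw [e] at h2
  obtain ⟨h3, h4⟩ := h2
  rw [le_div_iff₀ hℓ] at h3
  rw [div_le_iff₀ hℓ] at h4
  constructor <;> linarith

theorem cellEta_integral {ω : ℝ → ℝ} (h1 : ∫ x, ω x = 1)
    (c : Fin 2 → ℝ) {ℓ : ℝ} (hℓ : 0 < ℓ) (z : Fin 2 → ℝ) : ∫ y, cellEta ω c ℓ z y = 1 := by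
  unfold cellEta
  rw [integral_fintype_prod_volume_eq_prod (fun i t => ℓ⁻¹ * ω (ℓ⁻¹ * (z i + t - c i)))]
  refine Finset.prod_eq_one fun i _ => ?_
  rw [integral_const_mul]
  have e1 : ∀ t, ω (ℓ⁻¹ * (z i + t - c i)) = (fun s => ω (ℓ⁻¹ * s)) (t + (z i - c i)) := by
    intro t
    simp only
    congr 2
    ring
  simp only [e1]
  rw [integral_add_right_eq_self (fun s => ω (ℓ⁻¹ * s)) (z i - c i),
    Measure.integral_comp_mul_left, h1, inv_inv, abs_of_pos hℓ]
  simp [hℓ.ne']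

/-- The oscillation estimate on squares, with a universal constant. -/
theorem sq_osc_real : ∃ C : ℝ, 0 < C ∧ ∀ {D : Set (Fin 2 → ℝ)}, IsOpen D →
    ∀ {f : (Fin 2 → ℝ) → ℝ} {g : Fin 2 → (Fin 2 → ℝ) → ℝ}, ContinuousOn f D →
    IntegrableOn f D → (∀ i, Weak1 D i f (g i)) →
    ∀ {c : Fin 2 → ℝ} {ℓ : ℝ}, 0 < ℓ → Sq c ℓ ⊆ D →
    (∀ i, MemLp (g i) 4 (volume.restrict (Sq c ℓ))) →
    ∀ z ∈ D, z ∈ Sqc c ℓ → ∀ z' ∈ D, z' ∈ Sqc c ℓ →
    |f z - f z'| ≤ C * ℓ ^ (1 / 2 : ℝ)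
      * ∑ i, (eLpNorm (g i) 4 (volume.restrict (Sq c ℓ))).toReal := by
  obtain ⟨ω, hω, hω0, hωi, hω1, hωs⟩ := exists_omega
  have hωc : HasCompactSupport ω := isCompact_Icc.of_isClosed_subset (isClosed_tsupport _) hωs
  obtain ⟨C, hC⟩ := hω.continuous.bounded_above_of_compact_support hωc
  have hC0 : 0 ≤ C := (norm_nonneg _).trans (hC 0)
  refine ⟨4 * C ^ 2 + 1, by positivity, ?_⟩
  intro D hDo f g hfc hf hw c ℓ hℓ hqD hg
  set S : ℝ := ∑ i, (eLpNorm (g i) 4 (volume.restrict (Sq c ℓ))).toReal with hS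
  have hS0 : 0 ≤ S := Finset.sum_nonneg fun _ _ => ENNReal.toReal_nonneg
  -- the common mean
  set m : ℝ := ∫ x in D, f x * ∏ i, (ℓ⁻¹ * ω (ℓ⁻¹ * (x i - c i))) with hm
  have key : ∀ z ∈ D, z ∈ Sqc c ℓ → |f z - m| ≤ 2 * (C ^ 2 * ℓ ^ (1 / 2 : ℝ) * S) := by
    intro z hz hzc
    have hsm := cellEta_smooth hω c ℓ z
    have hts := fun (y : Fin 2 → ℝ) (hy : y ∈ tsupport (cellEta ω c ℓ z)) =>
      cellEta_tsupport hωs (c := c) hℓ hy
    have hsub : tsupport (cellEta ω c ℓ z) ⊆ Sqc (fun i => c i - z i) ℓ := by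
      intro y hy i _
      have := hts y hy i
      constructor <;> linarith [this.1, this.2]
    have hcomp : HasCompactSupport (cellEta ω c ℓ z) := by
      refine (isCompact_univ_pi fun i => isCompact_Icc).of_isClosed_subset (isClosed_tsupport _) hsub
    have hV : volume (tsupport (cellEta ω c ℓ z)) ≤ ENNReal.ofReal (ℓ ^ 2) :=
      (measure_mono hsub).trans (volume_sqc _ hℓ.le).le
    have hin : ∀ t ∈ Ioc (0 : ℝ) 1, ∀ y ∈ tsupport (cellEta ω c ℓ z), z + t • y ∈ Sq c ℓ := by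
      intro t ht y hy i _
      have h1 := hts y hy i
      have h2 := hzc i (mem_univ i)
      have e : (z + t • y) i = (1 - t) * z i + t * (z i + y i) := by
        simp; ring
      rw [e]
      have h3 : (1 - t) * c i ≤ (1 - t) * z i := mul_le_mul_of_nonneg_left h2.1 (by linarith [ht.2])
      have h4 : (1 - t) * z i ≤ (1 - t) * (c i + ℓ) :=
        mul_le_mul_of_nonneg_left h2.2 (by linarith [ht.2])
      have h5 : t * (c i + ℓ / 4) ≤ t * (z i + y i) := mul_le_mul_of_nonneg_left h1.1 ht.1.le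
      have h6 : t * (z i + y i) ≤ t * (c i + 3 * ℓ / 4) := mul_le_mul_of_nonneg_left h1.2 ht.1.le
      have h7 : 0 < t * ℓ := mul_pos ht.1 hℓ
      constructor <;> nlinarith
    have hM : ∀ i y, |cmul i (cellEta ω c ℓ z) y| ≤ ℓ⁻¹ * C ^ 2 := by
      intro i y
      unfold cmul
      by_cases hy : y ∈ tsupport (cellEta ω c ℓ z)
      · have h1 : |y i| ≤ ℓ := by
          have h2 := hts y hy i
          have h3 := hzc i (mem_univ i)
          rw [abs_le]
          constructor <;> linarith [h2.1, h2.2, h3.1, h3.2]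
        have h4 : |cellEta ω c ℓ z y| ≤ (ℓ⁻¹ * C) ^ 2 := by
          unfold cellEta
          rw [Finset.abs_prod, Fin.prod_univ_two, sq]
          have h5 : ∀ t, |ℓ⁻¹ * ω t| ≤ ℓ⁻¹ * C := by
            intro t
            rw [abs_mul, abs_of_pos (by positivity : 0 < ℓ⁻¹)]
            exact mul_le_mul_of_nonneg_left (by simpa [Real.norm_eq_abs] using hC t) (by positivity)
          exact mul_le_mul (h5 _) (h5 _) (abs_nonneg _) (by positivity)
        rw [abs_mul]
        calc |y i| * |cellEta ω c ℓ z y| ≤ ℓ * (ℓ⁻¹ * C) ^ 2 :=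
              mul_le_mul h1 h4 (abs_nonneg _) hℓ.le
          _ = ℓ⁻¹ * C ^ 2 := by field_simp
      · rw [image_eq_zero_of_notMem_tsupport hy, mul_zero, abs_zero]
        positivity
    have h8 := kernel_osc hDo hqD hsm hcomp (cellEta_integral hω1 c hℓ z) hM (by positivity) hV hz
      hin hfc hf hw hg
    have h9 : FF D f (cellEta ω c ℓ z) z 1 = m := by
      unfold FF ker cellEta
      rw [hm]
      congr 1
      funext x
      simp
    rw [h9] at h8
    refine h8.trans (le_of_eq ?_)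
    have h10 : (ℓ ^ 2) ^ (3 / 4 : ℝ) = ℓ * ℓ ^ (1 / 2 : ℝ) := by
      rw [← Real.rpow_natCast, ← Real.rpow_mul hℓ.le]
      nth_rewrite 2 [← Real.rpow_one ℓ]
      rw [← Real.rpow_add hℓ]
      norm_num
    rw [h10, ← hS]
    field_simp
  intro z hz hzc z' hz' hzc'
  have h1 := key z hz hzc
  have h2 := key z' hz' hzc'
  have h3 : |f z - f z'| ≤ |f z - m| + |f z' - m| := by
    rw [abs_sub_comm (f z') m]
    exact abs_sub_le _ _ _
  have h4 : 0 ≤ ℓ ^ (1 / 2 : ℝ) * S := by positivity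
  calc |f z - f z'| ≤ 4 * C ^ 2 * (ℓ ^ (1 / 2 : ℝ) * S) := by linarith
    _ ≤ (4 * C ^ 2 + 1) * (ℓ ^ (1 / 2 : ℝ) * S) := by gcongr; linarith
    _ = _ := by ring

end Pool.Agent.Lib.MP_961271_an
end

section
/-!
Fourth powers of the oscillation estimate.
-/
open MeasureTheory Set Filter Topology
open scoped ENNReal

namespace Pool.Agent.Lib.MP_961271_an

theorem eLpNorm_four {α : Type*} [MeasurableSpace α] (μ : Measure α) (g : α → ℝ) :
    eLpNorm g 4 μ ^ 4 = ∫⁻ x, ‖g x‖ₑ ^ 4 ∂μ := by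
  rw [eLpNorm_eq_lintegral_rpow_enorm_toReal (by norm_num) (by norm_num)]
  rw [← ENNReal.rpow_natCast, ← ENNReal.rpow_mul]
  simp only [ENNReal.toReal_ofNat, Nat.cast_ofNat]
  norm_num

/-- The oscillation estimate on squares for fourth powers. -/
theorem sq_osc : ∃ C : ℝ, 0 < C ∧ ∀ {D : Set (Fin 2 → ℝ)}, IsOpen D →
    ∀ {f : (Fin 2 → ℝ) → ℝ} {g : Fin 2 → (Fin 2 → ℝ) → ℝ}, ContinuousOn f D →
    IntegrableOn f D → (∀ i, Weak1 D i f (g i)) →
    (∀ i, MemLp (g i) 4 (volume.restrict D)) →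
    ∀ {c : Fin 2 → ℝ} {ℓ : ℝ}, 0 < ℓ → Sq c ℓ ⊆ D →
    ∀ z ∈ D, z ∈ Sqc c ℓ → ∀ z' ∈ D, z' ∈ Sqc c ℓ →
    ‖f z - f z'‖ₑ ^ 4 ≤ ENNReal.ofReal (C * ℓ ^ 2)
      * ∫⁻ x in Sq c ℓ, (‖g 0 x‖ₑ ^ 4 + ‖g 1 x‖ₑ ^ 4) := by
  obtain ⟨C, hC, h⟩ := sq_osc_real
  refine ⟨8 * C ^ 4, by positivity, ?_⟩
  intro D hDo f g hfc hf hw hg c ℓ hℓ hqD z hz hzc z' hz' hzc'
  have hg' : ∀ i, MemLp (g i) 4 (volume.restrict (Sq c ℓ)) := fun i =>
    (hg i).mono_measure (Measure.restrict_mono hqD le_rfl)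
  have h1 := h hDo hfc hf hw hℓ hqD hg' z hz hzc z' hz' hzc'
  rw [Fin.sum_univ_two] at h1
  set B0 : ℝ := (eLpNorm (g 0) 4 (volume.restrict (Sq c ℓ))).toReal with hB0
  set B1 : ℝ := (eLpNorm (g 1) 4 (volume.restrict (Sq c ℓ))).toReal with hB1
  have b0 : 0 ≤ B0 := ENNReal.toReal_nonneg
  have b1 : 0 ≤ B1 := ENNReal.toReal_nonneg
  have e0 : ENNReal.ofReal (B0 ^ 4) = ∫⁻ x in Sq c ℓ, ‖g 0 x‖ₑ ^ 4 := by
    rw [← eLpNorm_four, ENNReal.ofReal_pow b0, hB0, ENNReal.ofReal_toReal (hg' 0).2.ne]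
  have e1 : ENNReal.ofReal (B1 ^ 4) = ∫⁻ x in Sq c ℓ, ‖g 1 x‖ₑ ^ 4 := by
    rw [← eLpNorm_four, ENNReal.ofReal_pow b1, hB1, ENNReal.ofReal_toReal (hg' 1).2.ne]
  have hm : AEMeasurable (fun x => ‖g 0 x‖ₑ ^ 4) (volume.restrict (Sq c ℓ)) :=
    (hg' 0).1.enorm.pow_const 4
  rw [lintegral_add_left' hm, ← e0, ← e1, ← ENNReal.ofReal_add (by positivity) (by positivity),
    ← ENNReal.ofReal_mul (by positivity), Real.enorm_eq_ofReal_abs, ← ENNReal.ofReal_pow (abs_nonneg _)]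
  apply ENNReal.ofReal_le_ofReal
  have h2 : (ℓ ^ (1 / 2 : ℝ)) ^ 4 = ℓ ^ 2 := by
    rw [← Real.rpow_natCast, ← Real.rpow_mul hℓ.le, ← Real.rpow_natCast]
    norm_num
  have h3 : (B0 + B1) ^ 4 ≤ 8 * (B0 ^ 4 + B1 ^ 4) := by
    nlinarith [sq_nonneg (B0 ^ 2 - B1 ^ 2), sq_nonneg (B0 - B1), sq_nonneg (B0 + B1),
      mul_nonneg b0 b1, sq_nonneg ((B0 - B1) ^ 2), sq_nonneg (B0 ^ 2 - B1 ^ 2),
      mul_nonneg (mul_nonneg b0 b1) (sq_nonneg (B0 - B1))]
  calc |f z - f z'| ^ 4 ≤ (C * ℓ ^ (1 / 2 : ℝ) * (B0 + B1)) ^ 4 :=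
        pow_le_pow_left₀ (abs_nonneg _) h1 4
    _ = C ^ 4 * ((ℓ ^ (1 / 2 : ℝ)) ^ 4) * (B0 + B1) ^ 4 := by ring
    _ ≤ C ^ 4 * ((ℓ ^ (1 / 2 : ℝ)) ^ 4) * (8 * (B0 ^ 4 + B1 ^ 4)) := by gcongr
    _ = 8 * C ^ 4 * ℓ ^ 2 * (B0 ^ 4 + B1 ^ 4) := by rw [h2]; ring

end Pool.Agent.Lib.MP_961271_an
end

section
open MeasureTheory Set Filter Topology
open scoped ENNReal

namespace Pool.Agent.Lib.MP_961271_an

variable {d : ℕ}

theorem isProb_unif {D : Set (Fin d → ℝ)} (h0 : volume D ≠ 0) (ht : volume D ≠ ⊤) :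
    IsProbabilityMeasure (unif D) := by
  refine ⟨?_⟩
  unfold unif
  rw [Measure.smul_apply, Measure.restrict_apply_univ, smul_eq_mul]
  exact ENNReal.inv_mul_cancel h0 ht

theorem Admissible.volume_ne_zero {D : Set (Fin d → ℝ)} (hD : Admissible D) : volume D ≠ 0 :=
  (hD.2.1.measure_pos volume hD.1).ne'

theorem Admissible.volume_ne_top {D : Set (Fin d → ℝ)} (hD : Admissible D) : volume D ≠ ⊤ :=
  hD.2.2.1.measure_lt_top.ne

/-- An additional independent sample point. -/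
noncomputable def Alg.succ {D : Set (Fin d → ℝ)} {q : ℝ≥0∞} {n : ℕ} (A : Alg D q n)
    (h0 : volume D ≠ 0) (ht : volume D ≠ ⊤) : Alg D q (n + 1) :=
  letI := A.mΩ
  haveI := A.hμ
  haveI := isProb_unif h0 ht
  { Ω := (Fin d → ℝ) × A.Ω
    mΩ := inferInstance
    μ := (unif D).prod A.μ
    hμ := inferInstance
    X := fun p => (MeasurableEquiv.piFinSuccAbove (fun _ : Fin (n + 1) => Fin d → ℝ) 0).symm
      (p.1, A.X p.2)
    hX := (MeasurableEquiv.measurable _).comp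
      (measurable_fst.prodMk (A.hX.comp measurable_snd))
    law := by
      have h1 : MeasurePreserving (fun p : (Fin d → ℝ) × A.Ω => (p.1, A.X p.2))
          ((unif D).prod A.μ) ((unif D).prod (Measure.pi (fun _ : Fin n => unif D))) := by
        have h2 : MeasurePreserving A.X A.μ (Measure.pi (fun _ : Fin n => unif D)) :=
          ⟨A.hX, A.law⟩
        exact (MeasurePreserving.id (unif D)).prod h2
      have h3 := (measurePreserving_piFinSuccAbove (fun _ : Fin (n + 1) => unif D) 0).symm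
      exact (h3.comp h1).map_eq
    Φ := fun p y => A.Φ p.2 (fun i => y i.succ)
    hΦ := fun p y => A.hΦ p.2 _ }

theorem Alg.succ_err {D : Set (Fin d → ℝ)} {q : ℝ≥0∞} {n : ℕ} (A : Alg D q n)
    (h0 : volume D ≠ 0) (ht : volume D ≠ ⊤) (f : (Fin d → ℝ) → ℝ) (p : (Fin d → ℝ) × A.Ω) :
    (A.succ h0 ht).err f p = A.err f p.2 := by
  unfold Alg.err Alg.succ
  simp only
  congr 1

theorem upperInt_snd {Ω : Type} [MeasurableSpace Ω] {Ω' : Type} [MeasurableSpace Ω']
    {μ : Measure Ω} {ν : Measure Ω'} [IsProbabilityMeasure ν] [IsProbabilityMeasure μ]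
    (F : Ω → ℝ≥0∞) : upperInt (ν.prod μ) (fun p => F p.2) ≤ upperInt μ F := by
  refine le_upperInt fun g hg hF => ?_
  refine (upperInt_le (hg.comp measurable_snd) (fun p => hF p.2)).trans ?_
  have h := (measurePreserving_snd (μ := ν) (ν := μ)).lintegral_comp hg
  exact h.le

theorem minErr_succ_le {D : Set (Fin d → ℝ)} (hD : Admissible D) (c : Crit) (s : ℕ)
    (p q : ℝ≥0∞) (n : ℕ) : minErr c D s p q (n + 1) ≤ minErr c D s p q n := by
  have h0 := hD.volume_ne_zero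
  have ht := hD.volume_ne_top
  unfold minErr
  refine le_iInf fun A => ?_
  refine (iInf_le _ (A.succ h0 ht)).trans ?_
  let _ := A.mΩ
  have := A.hμ
  have := isProb_unif h0 ht
  cases c with
  | ran =>
    show (⨆ f ∈ UnitBall D s p, upperInt ((unif D).prod A.μ)
      (fun ω => (A.succ h0 ht).err f ω)) ≤ ⨆ f ∈ UnitBall D s p, upperInt A.μ (fun ω => A.err f ω)
    refine iSup₂_mono fun f _ => ?_
    simp only [Alg.succ_err]
    exact upperInt_snd (fun ω => A.err f ω)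
  | unif =>
    show upperInt ((unif D).prod A.μ) (fun ω => ⨆ f ∈ UnitBall D s p, (A.succ h0 ht).err f ω)
      ≤ upperInt A.μ (fun ω => ⨆ f ∈ UnitBall D s p, A.err f ω)
    simp only [Alg.succ_err]
    exact upperInt_snd (fun ω => ⨆ f ∈ UnitBall D s p, A.err f ω)

theorem minErr_antitone {D : Set (Fin d → ℝ)} (hD : Admissible D) (c : Crit) (s : ℕ)
    (p q : ℝ≥0∞) : Antitone (minErr c D s p q) :=
  antitone_nat_of_succ_le (minErr_succ_le hD c s p q)

/-- The zero algorithm. -/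
noncomputable def zeroAlg {D : Set (Fin d → ℝ)} (q : ℝ≥0∞) (n : ℕ)
    (h0 : volume D ≠ 0) (ht : volume D ≠ ⊤) : Alg D q n :=
  haveI := isProb_unif h0 ht
  { Ω := Fin n → Fin d → ℝ
    mΩ := inferInstance
    μ := Measure.pi (fun _ : Fin n => unif D)
    hμ := inferInstance
    X := id
    hX := measurable_id
    law := Measure.map_id
    Φ := fun _ _ _ => 0
    hΦ := fun _ _ => MemLp.zero }

theorem minErr_le_of_bound {D : Set (Fin d → ℝ)} (hD : Admissible D) {s : ℕ} {p : ℝ≥0∞} {K : ℝ}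
    (hK : ∀ f ∈ UnitBall D s p, ∀ z ∈ D, |f z| ≤ K) (n : ℕ) :
    minErr Crit.ran D s p ∞ n ≤ ENNReal.ofReal K := by
  have h0 := hD.volume_ne_zero
  have ht := hD.volume_ne_top
  have := isProb_unif h0 ht
  unfold minErr
  refine (iInf_le _ (zeroAlg ∞ n h0 ht)).trans ?_
  show (⨆ f ∈ UnitBall D s p, upperInt (Measure.pi (fun _ : Fin n => unif D))
      (fun ω => (zeroAlg ∞ n h0 ht).err f ω)) ≤ _
  refine iSup₂_le fun f hf => ?_
  have herr : ∀ ω, (zeroAlg ∞ n h0 ht).err f ω ≤ ENNReal.ofReal K := by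
    intro ω
    unfold Alg.err zeroAlg
    simp only [sub_zero]
    rw [eLpNorm_exponent_top]
    refine eLpNormEssSup_le_of_ae_bound (C := K) ?_
    filter_upwards [self_mem_ae_restrict hD.2.1.measurableSet] with z hz
    exact hK f hf z hz
  refine (upperInt_le (Ω := Fin n → Fin d → ℝ) (μ := Measure.pi (fun _ : Fin n => unif D))
    (g := fun _ => ENNReal.ofReal K) measurable_const herr).trans ?_
  simp

end Pool.Agent.Lib.MP_961271_an
end

section
/-!
The multilevel algorithm on a square.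
-/
open MeasureTheory Set Filter Topology
open scoped ENNReal

namespace Pool.Agent.Lib.MP_961271_an

/-- The index of the cell of level `j` containing `z`. -/
noncomputable def cidx (c : Fin 2 → ℝ) (s : ℝ) (j : ℕ) (z : Fin 2 → ℝ) : Fin 2 → ℤ :=
  fun i => ⌊2 ^ j * (z i - c i) / s⌋

theorem cidx_measurable (c : Fin 2 → ℝ) (s : ℝ) (j : ℕ) : Measurable (cidx c s j) := by
  unfold cidx
  refine measurable_pi_lambda _ fun i => Int.measurable_floor.comp ?_
  exact ((measurable_pi_apply i).sub_const _ |>.const_mul _).div_const _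

/-- Lower left corner of the cell. -/
noncomputable def corner (c : Fin 2 → ℝ) (s : ℝ) (j : ℕ) (a : Fin 2 → ℤ) : Fin 2 → ℝ :=
  fun i => c i + s / 2 ^ j * a i

theorem cell_mem_iff {c : Fin 2 → ℝ} {s : ℝ} (hs : 0 < s) (j : ℕ) (a : Fin 2 → ℤ)
    (x : Fin 2 → ℝ) : cidx c s j x = a ↔ ∀ i, corner c s j a i ≤ x i ∧
      x i < corner c s j a i + s / 2 ^ j := by
  have h2 : (0 : ℝ) < 2 ^ j := by positivity
  unfold cidx corner
  rw [funext_iff]
  refine forall_congr' fun i => ?_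
  rw [Int.floor_eq_iff, le_div_iff₀ hs, div_lt_iff₀ hs]
  have e1 : s / 2 ^ j * (a i : ℝ) = (a i : ℝ) * s / 2 ^ j := by ring
  have e2 : c i + s / 2 ^ j * (a i : ℝ) + s / 2 ^ j = c i + ((a i : ℝ) + 1) * s / 2 ^ j := by ring
  rw [e2, e1]
  constructor
  · rintro ⟨h3, h4⟩
    constructor
    · have : (a i : ℝ) * s / 2 ^ j ≤ x i - c i := by
        rw [div_le_iff₀ h2]; linarith
      linarith
    · have : x i - c i < ((a i : ℝ) + 1) * s / 2 ^ j := by
        rw [lt_div_iff₀ h2]; linarith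
      linarith
  · rintro ⟨h3, h4⟩
    constructor
    · have : (a i : ℝ) * s / 2 ^ j ≤ x i - c i := by linarith
      rw [div_le_iff₀ h2] at this
      linarith
    · have : x i - c i < ((a i : ℝ) + 1) * s / 2 ^ j := by linarith
      rw [lt_div_iff₀ h2] at this
      linarith

theorem cidx_range {c : Fin 2 → ℝ} {s : ℝ} (hs : 0 < s) (j : ℕ) {z : Fin 2 → ℝ}
    (hz : z ∈ Sq c s) (i : Fin 2) : 0 ≤ cidx c s j z i ∧ cidx c s j z i + 1 ≤ 2 ^ j := by
  have h1 := hz i (mem_univ i)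
  have h2 : (0 : ℝ) < 2 ^ j := by positivity
  unfold cidx
  constructor
  · apply Int.floor_nonneg.2
    exact div_nonneg (mul_nonneg h2.le (by linarith [h1.1])) hs.le
  · have h3 : ⌊2 ^ j * (z i - c i) / s⌋ < (2 : ℤ) ^ j := by
      rw [Int.floor_lt]
      push_cast
      rw [div_lt_iff₀ hs]
      apply mul_lt_mul_of_pos_left _ h2
      linarith [h1.2]
    omega

/-- The open cell is contained in the square. -/
theorem cell_subset {c : Fin 2 → ℝ} {s : ℝ} (hs : 0 < s) (j : ℕ) {z : Fin 2 → ℝ}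
    (hz : z ∈ Sq c s) : Sq (corner c s j (cidx c s j z)) (s / 2 ^ j) ⊆
      {x | x ∈ Sq c s ∧ cidx c s j x = cidx c s j z} := by
  intro x hx
  have h2 : (0 : ℝ) < 2 ^ j := by positivity
  have hx' : ∀ i, _ := fun i => hx i (mem_univ i)
  constructor
  · intro i _
    obtain ⟨h3, h4⟩ := cidx_range hs j hz i
    have h5 : (0 : ℝ) ≤ cidx c s j z i := by exact_mod_cast h3
    have h6 : (cidx c s j z i : ℝ) + 1 ≤ 2 ^ j := by exact_mod_cast h4
    have h7 := hx' i
    unfold corner at h7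
    have h8 : s / 2 ^ j * ((cidx c s j z i : ℝ) + 1) ≤ s := by
      calc s / 2 ^ j * ((cidx c s j z i : ℝ) + 1) ≤ s / 2 ^ j * 2 ^ j := by gcongr
        _ = s := by field_simp
    have h9 : 0 ≤ s / 2 ^ j * (cidx c s j z i : ℝ) := by positivity
    constructor
    · linarith [h7.1]
    · linarith [h7.2]
  · rw [cell_mem_iff hs]
    intro i
    exact ⟨(hx' i).1.le, (hx' i).2⟩

theorem cell_closed {c : Fin 2 → ℝ} {s : ℝ} (hs : 0 < s) (j : ℕ) {z x : Fin 2 → ℝ}
    (hx : cidx c s j x = cidx c s j z) :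
    x ∈ Sqc (corner c s j (cidx c s j z)) (s / 2 ^ j) := by
  intro i _
  have := (cell_mem_iff hs j _ x).1 hx i
  exact ⟨this.1, this.2.le⟩

theorem volume_cell_le {c : Fin 2 → ℝ} {s : ℝ} (hs : 0 < s) (j : ℕ) (z : Fin 2 → ℝ) :
    volume {x | x ∈ Sq c s ∧ cidx c s j x = cidx c s j z} ≤ ENNReal.ofReal ((s / 2 ^ j) ^ 2) := by
  refine (measure_mono ?_).trans
    (volume_sqc (corner c s j (cidx c s j z)) (by positivity : 0 ≤ s / 2 ^ j)).le
  intro x hx
  exact cell_closed hs j hx.2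

theorem le_volume_cell {c : Fin 2 → ℝ} {s : ℝ} (hs : 0 < s) (j : ℕ) {z : Fin 2 → ℝ}
    (hz : z ∈ Sq c s) :
    ENNReal.ofReal ((s / 2 ^ j) ^ 2) ≤ volume {x | x ∈ Sq c s ∧ cidx c s j x = cidx c s j z} := by
  rw [← volume_sq (corner c s j (cidx c s j z)) (by positivity : 0 ≤ s / 2 ^ j)]
  exact measure_mono (cell_subset hs j hz)

theorem unif_compl_le {D Q : Set (Fin 2 → ℝ)} (h0 : volume D ≠ 0) (h2 : volume D ≤ 2)
    (hQ : MeasurableSet Q) (hQD : Q ⊆ D) {v : ℝ} (hv0 : 0 ≤ v) (hv : ENNReal.ofReal v ≤ volume Q) :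
    unif D Qᶜ ≤ ENNReal.ofReal (Real.exp (-(v / 2))) := by
  have ht : volume D ≠ ⊤ := (h2.trans_lt (by norm_num)).ne
  have := isProb_unif h0 ht
  rw [prob_compl_eq_one_sub hQ]
  have h3 : ENNReal.ofReal (v / 2) ≤ unif D Q := by
    unfold unif
    rw [Measure.smul_apply, smul_eq_mul, Measure.restrict_apply hQ,
      inter_eq_self_of_subset_left hQD]
    have e : ENNReal.ofReal (v / 2) = 2⁻¹ * ENNReal.ofReal v := by
      rw [div_eq_inv_mul, ENNReal.ofReal_mul (by norm_num)]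
      congr 1
      rw [ENNReal.ofReal_inv_of_pos (by norm_num)]
      norm_num
    rw [e]
    exact mul_le_mul' (ENNReal.inv_le_inv.2 h2) hv
  calc 1 - unif D Q ≤ 1 - ENNReal.ofReal (v / 2) := tsub_le_tsub_left h3 1
    _ = ENNReal.ofReal (1 - v / 2) := by
        rw [ENNReal.ofReal_sub _ (by positivity), ENNReal.ofReal_one]
    _ ≤ ENNReal.ofReal (Real.exp (-(v / 2))) := by
        apply ENNReal.ofReal_le_ofReal
        have := Real.add_one_le_exp (-(v / 2))
        linarith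

/-- The probability that no sample falls in a cell. -/
theorem pi_none {D Q : Set (Fin 2 → ℝ)} (h0 : volume D ≠ 0) (h2 : volume D ≤ 2)
    (hQ : MeasurableSet Q) (hQD : Q ⊆ D) {v : ℝ} (hv0 : 0 ≤ v) (hv : ENNReal.ofReal v ≤ volume Q)
    (n : ℕ) : Measure.pi (fun _ : Fin n => unif D) {ω | ∀ i, ω i ∉ Q}
      ≤ ENNReal.ofReal (Real.exp (-(n * v / 2))) := by
  have ht : volume D ≠ ⊤ := (h2.trans_lt (by norm_num)).ne
  have := isProb_unif h0 ht
  have e : {ω : Fin n → Fin 2 → ℝ | ∀ i, ω i ∉ Q} = Set.univ.pi fun _ => Qᶜ := by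
    ext ω
    simp
  rw [e, Measure.pi_pi]
  simp only [Finset.prod_const, Finset.card_univ, Fintype.card_fin]
  refine (pow_le_pow_left' (unif_compl_le h0 h2 hQ hQD hv0 hv) n).trans (le_of_eq ?_)
  rw [← ENNReal.ofReal_pow (Real.exp_pos _).le, ← Real.exp_nat_mul]
  congr 2
  ring

end Pool.Agent.Lib.MP_961271_an
end

section
/-!
The multilevel algorithm on a square: error bound.
-/
open MeasureTheory Set Filter Topology
open scoped ENNReal

namespace Pool.Agent.Lib.MP_961271_an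

/-- No sample in the cell of level `j` of `z`. -/
def NoS (c : Fin 2 → ℝ) (s : ℝ) {n : ℕ} (j : ℕ) (ω : Fin n → Fin 2 → ℝ) (z : Fin 2 → ℝ) : Prop :=
  ∀ i, ¬ (ω i ∈ Sq c s ∧ cidx c s j (ω i) = cidx c s j z)

theorem noS_measurable (c : Fin 2 → ℝ) (s : ℝ) {n : ℕ} (j : ℕ) :
    MeasurableSet {p : (Fin n → Fin 2 → ℝ) × (Fin 2 → ℝ) | NoS c s j p.1 p.2} := by
  unfold NoS
  simp only [Set.ofPred_forall]
  refine MeasurableSet.iInter fun i => MeasurableSet.compl ?_
  have hm : Measurable (fun p : (Fin n → Fin 2 → ℝ) × (Fin 2 → ℝ) => p.1 i) :=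
    (measurable_pi_apply i).comp measurable_fst
  refine MeasurableSet.inter ?_ ?_
  · exact hm (sq_open c s).measurableSet
  · exact measurableSet_eq_fun ((cidx_measurable c s j).comp hm)
      ((cidx_measurable c s j).comp measurable_snd)

open Classical in
theorem exists_selector (c : Fin 2 → ℝ) (s : ℝ) (n J : ℕ) :
    ∃ sel : (Fin n → Fin 2 → ℝ) → (Fin (J + 1) → Fin 2 → ℤ) → Option (Fin n),
      (∀ ω v i, sel ω v = some i → ∃ j : Fin (J + 1), ω i ∈ Sq c s ∧ cidx c s j (ω i) = v j ∧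
        ∀ j' : Fin (J + 1), j < j' → ∀ i', ¬ (ω i' ∈ Sq c s ∧ cidx c s j' (ω i') = v j')) ∧
      (∀ ω v, sel ω v = none → ∀ j : Fin (J + 1), ∀ i,
        ¬ (ω i ∈ Sq c s ∧ cidx c s j (ω i) = v j)) := by
  have hex : ∀ (ω : Fin n → Fin 2 → ℝ) (v : Fin (J + 1) → Fin 2 → ℤ), ∃ o : Option (Fin n),
      (∀ i, o = some i → ∃ j : Fin (J + 1), ω i ∈ Sq c s ∧ cidx c s j (ω i) = v j ∧
        ∀ j' : Fin (J + 1), j < j' → ∀ i', ¬ (ω i' ∈ Sq c s ∧ cidx c s j' (ω i') = v j')) ∧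
      (o = none → ∀ j : Fin (J + 1), ∀ i, ¬ (ω i ∈ Sq c s ∧ cidx c s j (ω i) = v j)) := by
    intro ω v
    let P : Finset (Fin (J + 1)) := Finset.univ.filter
      (fun j => ∃ i, ω i ∈ Sq c s ∧ cidx c s j (ω i) = v j)
    by_cases hP : P.Nonempty
    · have hmem := P.max'_mem hP
      obtain ⟨i, hi1, hi2⟩ := (Finset.mem_filter.1 hmem).2
      refine ⟨some i, ?_, fun h => by simp at h⟩
      intro i' hi'
      rw [Option.some.injEq] at hi'
      subst hi'
      refine ⟨P.max' hP, hi1, hi2, fun j' hj' i' hc => ?_⟩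
      have : j' ∈ P := Finset.mem_filter.2 ⟨Finset.mem_univ _, i', hc⟩
      exact absurd (P.le_max' _ this) (not_le.2 hj')
    · refine ⟨none, fun i h => by simp at h, fun _ j i hc => hP ?_⟩
      exact ⟨j, Finset.mem_filter.2 ⟨Finset.mem_univ _, i, hc⟩⟩
  choose sel h1 h2 using hex
  exact ⟨sel, h1, h2⟩

/-- The vector of cell indices. -/
noncomputable def key (c : Fin 2 → ℝ) (s : ℝ) (J : ℕ) (z : Fin 2 → ℝ) :
    Fin (J + 1) → Fin 2 → ℤ := fun j => cidx c s j z

theorem key_measurable (c : Fin 2 → ℝ) (s : ℝ) (J : ℕ) : Measurable (key c s J) :=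
  measurable_pi_lambda _ fun j => cidx_measurable c s j

open Classical in
/-- The local error weight. -/
noncomputable def aW (c : Fin 2 → ℝ) (s : ℝ) (C : ℝ) (Gd : (Fin 2 → ℝ) → ℝ≥0∞) (j : ℕ)
    (z : Fin 2 → ℝ) : ℝ≥0∞ :=
  ENNReal.ofReal (C * (s / 2 ^ j) ^ 2) *
    ∫⁻ x in Sq c s, if cidx c s j x = cidx c s j z then Gd x else 0

theorem aW_measurable (c : Fin 2 → ℝ) (s : ℝ) (C : ℝ) (Gd : (Fin 2 → ℝ) → ℝ≥0∞) (j : ℕ) :
    Measurable (aW c s C Gd j) := by
  classical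
  let A : (Fin 2 → ℤ) → ℝ≥0∞ := fun a => ENNReal.ofReal (C * (s / 2 ^ j) ^ 2) *
    ∫⁻ x in Sq c s, if cidx c s j x = a then Gd x else 0
  have : aW c s C Gd j = fun z => A (cidx c s j z) := by
    funext z
    simp only [aW, A]
  rw [this]
  exact (measurable_of_countable A).comp (cidx_measurable c s j)

theorem lintegral_aW {c : Fin 2 → ℝ} {s : ℝ} (hs : 0 < s) {C : ℝ} (hC : 0 ≤ C)
    {Gd : (Fin 2 → ℝ) → ℝ≥0∞} (hGd : Measurable Gd) (j : ℕ) :
    ∫⁻ z in Sq c s, aW c s C Gd j z ≤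
      ENNReal.ofReal (C * (s / 2 ^ j) ^ 4) * ∫⁻ x in Sq c s, Gd x := by
  classical
  have hm2 : MeasurableSet {p : (Fin 2 → ℝ) × (Fin 2 → ℝ) | cidx c s j p.2 = cidx c s j p.1} :=
    measurableSet_eq_fun ((cidx_measurable c s j).comp measurable_snd)
      ((cidx_measurable c s j).comp measurable_fst)
  have hm : Measurable (fun p : (Fin 2 → ℝ) × (Fin 2 → ℝ) =>
      if cidx c s j p.2 = cidx c s j p.1 then Gd p.2 else 0) :=
    Measurable.ite hm2 (hGd.comp measurable_snd) measurable_const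
  have h1 : ∫⁻ z in Sq c s, aW c s C Gd j z = ENNReal.ofReal (C * (s / 2 ^ j) ^ 2) *
      ∫⁻ z in Sq c s, ∫⁻ x in Sq c s, if cidx c s j x = cidx c s j z then Gd x else 0 := by
    unfold aW
    rw [lintegral_const_mul]
    exact hm.lintegral_prod_right'
  rw [h1, lintegral_lintegral_swap (f := fun z x => if cidx c s j x = cidx c s j z then Gd x else 0)
    hm.aemeasurable]
  have h2 : ∀ x, ∫⁻ z in Sq c s, (if cidx c s j x = cidx c s j z then Gd x else 0)
      ≤ ENNReal.ofReal ((s / 2 ^ j) ^ 2) * Gd x := by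
    intro x
    have hQm : MeasurableSet {z | cidx c s j x = cidx c s j z} :=
      measurableSet_eq_fun measurable_const (cidx_measurable c s j)
    have e : (fun z => if cidx c s j x = cidx c s j z then Gd x else 0)
        = {z | cidx c s j x = cidx c s j z}.indicator (fun _ => Gd x) := by
      funext z
      simp [indicator]
    rw [e, lintegral_indicator_const hQm, mul_comm]
    refine mul_le_mul' ?_ le_rfl
    rw [Measure.restrict_apply hQm]
    refine le_trans (measure_mono ?_) (volume_cell_le (c := c) hs j x)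
    intro z hz
    exact ⟨hz.2, hz.1.symm⟩
  calc ENNReal.ofReal (C * (s / 2 ^ j) ^ 2) * ∫⁻ x in Sq c s, ∫⁻ z in Sq c s,
        (if cidx c s j x = cidx c s j z then Gd x else 0)
      ≤ ENNReal.ofReal (C * (s / 2 ^ j) ^ 2) *
        ∫⁻ x in Sq c s, ENNReal.ofReal ((s / 2 ^ j) ^ 2) * Gd x :=
        mul_le_mul' le_rfl (lintegral_mono h2)
    _ = ENNReal.ofReal (C * (s / 2 ^ j) ^ 4) * ∫⁻ x in Sq c s, Gd x := by
        rw [lintegral_const_mul _ hGd, ← mul_assoc, ← ENNReal.ofReal_mul (by positivity)]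
        congr 2
        ring

open Classical in
theorem sq_alg {c : Fin 2 → ℝ} {s : ℝ} (hs : 0 < s) {D : Set (Fin 2 → ℝ)}
    (h0 : volume D ≠ 0) (h2 : volume D ≤ 2) (hRD : Sq c s ⊆ D) (n J : ℕ) :
    ∃ Φ : (Fin n → Fin 2 → ℝ) → (Fin n → ℝ) → (Fin 2 → ℝ) → ℝ,
      (∀ ω y, Measurable (Φ ω y)) ∧ (∀ ω y z, |Φ ω y z| ≤ ∑ i, |y i|) ∧
      ∀ (f : (Fin 2 → ℝ) → ℝ) (F Gd : (Fin 2 → ℝ) → ℝ≥0∞) (C : ℝ), 0 ≤ C → Measurable F →
        Measurable Gd → (∀ z ∈ Sq c s, ‖f z‖ₑ ^ 4 ≤ F z) →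
        (∀ j, ∀ x ∈ Sq c s, ∀ z ∈ Sq c s, cidx c s j x = cidx c s j z →
          ‖f z - f x‖ₑ ^ 4 ≤ aW c s C Gd j z) →
        ∃ gg : (Fin n → Fin 2 → ℝ) → ℝ≥0∞, Measurable gg ∧
          (∀ ω, ∫⁻ z in Sq c s, ‖f z - Φ ω (fun i => f (ω i)) z‖ₑ ^ 4 ≤ gg ω) ∧
          ∫⁻ ω, gg ω ∂(Measure.pi (fun _ : Fin n => unif D)) ≤
            ENNReal.ofReal (C * ((∑ j ∈ Finset.range J,
              Real.exp (-(n * (s / 2 ^ (j + 1)) ^ 2 / 2)) * (s / 2 ^ j) ^ 4) + (s / 2 ^ J) ^ 4))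
              * (∫⁻ x in Sq c s, Gd x)
            + ENNReal.ofReal (Real.exp (-(n * s ^ 2 / 2))) * (∫⁻ x in Sq c s, F x) := by
  have ht : volume D ≠ ⊤ := (h2.trans_lt (by norm_num)).ne
  have hprob := isProb_unif h0 ht
  obtain ⟨sel, hsel1, hsel2⟩ := exists_selector c s n J
  refine ⟨fun ω y z => match sel ω (key c s J z) with
    | some i => y i
    | none => 0, ?_, ?_, ?_⟩
  · intro ω y
    have : Measurable (fun v : Fin (J + 1) → Fin 2 → ℤ => (match sel ω v with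
      | some i => y i
      | none => 0 : ℝ)) := measurable_of_countable _
    exact this.comp (key_measurable c s J)
  · intro ω y z
    simp only
    cases sel ω (key c s J z) with
    | none => simp only [abs_zero]; exact Finset.sum_nonneg fun _ _ => abs_nonneg _
    | some i =>
      exact Finset.single_le_sum (f := fun i => |y i|) (fun _ _ => abs_nonneg _)
        (Finset.mem_univ i)
  intro f F Gd C hC hF hGd hfF hosc
  -- the dominating function
  let H : (Fin n → Fin 2 → ℝ) → (Fin 2 → ℝ) → ℝ≥0∞ := fun ω z =>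
    (∑ j ∈ Finset.range J, if NoS c s (j + 1) ω z then aW c s C Gd j z else 0)
      + aW c s C Gd J z + if NoS c s 0 ω z then F z else 0
  have hHm : Measurable (Function.uncurry H) := by
    refine (((Finset.measurable_fun_sum _ fun j _ => ?_).add
      ((aW_measurable c s C Gd J).comp measurable_snd))).add ?_
    · exact Measurable.ite (noS_measurable c s (j + 1))
        ((aW_measurable c s C Gd j).comp measurable_snd) measurable_const
    · exact Measurable.ite (noS_measurable c s 0) (hF.comp measurable_snd) measurable_const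
  refine ⟨fun ω => ∫⁻ z in Sq c s, H ω z, hHm.lintegral_prod_right', ?_, ?_⟩
  · intro ω
    refine lintegral_mono_ae ?_
    filter_upwards [self_mem_ae_restrict (sq_open c s).measurableSet] with z hz
    simp only [H]
    cases hse : sel ω (key c s J z) with
    | none =>
      simp only
      rw [sub_zero]
      have hN : NoS c s 0 ω z := fun i hc => hsel2 ω _ hse 0 i hc
      rw [if_pos hN]
      exact (hfF z hz).trans le_add_self
    | some i =>
      simp only
      obtain ⟨j, hj1, hj2, hj3⟩ := hsel1 ω _ i hse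
      have hos := hosc j (ω i) hj1 z hz hj2
      refine hos.trans ?_
      rcases Nat.lt_or_ge j.1 J with hjJ | hjJ
      · have hN : NoS c s (j.1 + 1) ω z := by
          intro i' hc
          exact hj3 ⟨j.1 + 1, by omega⟩ (by
            show j.1 < j.1 + 1
            omega) i' hc
        have h3 : aW c s C Gd j.1 z ≤ ∑ j ∈ Finset.range J,
            if NoS c s (j + 1) ω z then aW c s C Gd j z else 0 := by
          refine le_trans ?_ (Finset.single_le_sum (f := fun j =>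
            if NoS c s (j + 1) ω z then aW c s C Gd j z else 0) (fun _ _ => zero_le)
            (Finset.mem_range.2 hjJ))
          rw [if_pos hN]
        exact h3.trans ((le_self_add).trans le_self_add)
      · have h4 : j.1 = J := by have := j.2; omega
        rw [h4]
        exact (le_add_self).trans le_self_add
  · -- the expectation
    rw [lintegral_lintegral_swap (f := H) hHm.aemeasurable]
    have hin : ∀ z ∈ Sq c s, ∫⁻ ω, H ω z ∂(Measure.pi (fun _ : Fin n => unif D)) ≤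
        (∑ j ∈ Finset.range J, ENNReal.ofReal (Real.exp (-(n * (s / 2 ^ (j + 1)) ^ 2 / 2)))
          * aW c s C Gd j z) + aW c s C Gd J z
        + ENNReal.ofReal (Real.exp (-(n * s ^ 2 / 2))) * F z := by
      intro z hz
      have hNm : ∀ j, MeasurableSet {ω : Fin n → Fin 2 → ℝ | NoS c s j ω z} := by
        intro j
        have : Measurable (fun ω : Fin n → Fin 2 → ℝ => (ω, z)) := measurable_id.prodMk
          measurable_const
        exact this (noS_measurable c s j)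
      have hNp : ∀ j, Measure.pi (fun _ : Fin n => unif D) {ω | NoS c s j ω z} ≤
          ENNReal.ofReal (Real.exp (-(n * (s / 2 ^ j) ^ 2 / 2))) := by
        intro j
        have hQm : MeasurableSet {x | x ∈ Sq c s ∧ cidx c s j x = cidx c s j z} :=
          (sq_open c s).measurableSet.inter
            (measurableSet_eq_fun (cidx_measurable c s j) measurable_const)
        exact pi_none h0 h2 hQm (fun x hx => hRD hx.1) (by positivity) (le_volume_cell hs j hz) n
      have hterm : ∀ (j : ℕ) (A : ℝ≥0∞), ∫⁻ ω, (if NoS c s j ω z then A else 0)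
          ∂(Measure.pi (fun _ : Fin n => unif D)) ≤
          ENNReal.ofReal (Real.exp (-(n * (s / 2 ^ j) ^ 2 / 2))) * A := by
        intro j A
        have e : (fun ω : Fin n → Fin 2 → ℝ => if NoS c s j ω z then A else 0)
            = {ω | NoS c s j ω z}.indicator (fun _ => A) := by
          funext ω
          simp [indicator]
        rw [e, lintegral_indicator_const (hNm j), mul_comm]
        exact mul_le_mul' (hNp j) le_rfl
      have hmt : ∀ (j : ℕ) (A : ℝ≥0∞), Measurable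
          (fun ω : Fin n → Fin 2 → ℝ => if NoS c s j ω z then A else 0) := fun j A =>
        Measurable.ite (hNm j) measurable_const measurable_const
      simp only [H]
      rw [lintegral_add_right _ (hmt 0 (F z)), lintegral_add_right _ measurable_const,
        lintegral_finsetSum _ (fun j _ => hmt (j + 1) _)]
      refine add_le_add (add_le_add (Finset.sum_le_sum fun j _ => hterm (j + 1) _) ?_) ?_
      · rw [lintegral_const]
        simp
      · have := hterm 0 (F z)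
        simpa using this
    have hout : ∫⁻ z in Sq c s, ∫⁻ ω, H ω z ∂(Measure.pi (fun _ : Fin n => unif D)) ≤
        ∫⁻ z in Sq c s, ((∑ j ∈ Finset.range J,
          ENNReal.ofReal (Real.exp (-(n * (s / 2 ^ (j + 1)) ^ 2 / 2)))
          * aW c s C Gd j z) + aW c s C Gd J z
        + ENNReal.ofReal (Real.exp (-(n * s ^ 2 / 2))) * F z) :=
      setLIntegral_mono' (sq_open c s).measurableSet hin
    refine hout.trans ?_
    have haW := fun j => aW_measurable c s C Gd j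
    rw [lintegral_add_right _ (hF.const_mul _), lintegral_add_right _ (haW J),
      lintegral_finsetSum _ (fun j _ => (haW j).const_mul _), lintegral_const_mul _ hF]
    refine add_le_add ?_ le_rfl
    have hs1 : ∀ j, ∫⁻ z in Sq c s, ENNReal.ofReal (Real.exp (-(n * (s / 2 ^ (j + 1)) ^ 2 / 2)))
        * aW c s C Gd j z ≤ ENNReal.ofReal (C * (Real.exp (-(n * (s / 2 ^ (j + 1)) ^ 2 / 2))
          * (s / 2 ^ j) ^ 4)) * ∫⁻ x in Sq c s, Gd x := by
      intro j
      rw [lintegral_const_mul _ (haW j)]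
      refine (mul_le_mul' le_rfl (lintegral_aW hs hC hGd j)).trans (le_of_eq ?_)
      rw [← mul_assoc, ← ENNReal.ofReal_mul (Real.exp_pos _).le]
      congr 2
      ring
    refine (add_le_add (Finset.sum_le_sum fun j _ => hs1 j) (lintegral_aW hs hC hGd J)).trans ?_
    rw [← Finset.sum_mul, ← add_mul, ← ENNReal.ofReal_sum_of_nonneg (fun j _ => by positivity),
      ← ENNReal.ofReal_add (Finset.sum_nonneg fun j _ => by positivity) (by positivity),
      mul_add, Finset.mul_sum]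

end Pool.Agent.Lib.MP_961271_an
end

section
/-!
The upper bound for domains which are almost a finite union of squares.
-/
open MeasureTheory Set Filter Topology
open scoped ENNReal

namespace Pool.Agent.Lib.MP_961271_an

theorem level_sum {n : ℕ} (hn : 1 ≤ n) {s : ℝ} (hs : 0 < s) {J : ℕ}
    (h1 : (4 : ℝ) ^ J ≤ n * s ^ 2) (h2 : n * s ^ 2 < (4 : ℝ) ^ (J + 1)) :
    (∑ j ∈ Finset.range J, Real.exp (-(n * (s / 2 ^ (j + 1)) ^ 2 / 2)) * (s / 2 ^ j) ^ 4)
      + (s / 2 ^ J) ^ 4 ≤ 1040 / (n : ℝ) ^ 2 := by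
  have hn0 : (0 : ℝ) < n := by exact_mod_cast hn
  have hexp : ∀ x : ℝ, 0 < x → Real.exp (-(x / 2)) ≤ 48 / x ^ 3 := by
    intro x hx
    have h3 : (x / 2) ^ 3 / 6 ≤ Real.exp (x / 2) := by
      have := Real.pow_div_factorial_le_exp (x / 2) (by positivity) 3
      simpa [Nat.factorial] using this
    rw [Real.exp_neg, inv_eq_one_div, div_le_div_iff₀ (Real.exp_pos _) (by positivity)]
    nlinarith
  have hterm : ∀ j ∈ Finset.range J, Real.exp (-(n * (s / 2 ^ (j + 1)) ^ 2 / 2)) * (s / 2 ^ j) ^ 4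
      ≤ 768 / (n : ℝ) ^ 2 * ((4 : ℝ) ^ (j + 1) / 4 ^ J) := by
    intro j _
    set x : ℝ := n * (s / 2 ^ (j + 1)) ^ 2 with hx
    have hx0 : 0 < x := by positivity
    have e1 : (s / 2 ^ j) ^ 4 = 16 * x ^ 2 / (n : ℝ) ^ 2 := by
      rw [hx]
      field_simp
      ring
    have e2 : x = n * s ^ 2 / 4 ^ (j + 1) := by
      rw [hx, div_pow, ← pow_mul, mul_comm (j + 1) 2, pow_mul]
      norm_num
      ring
    have h4 : 1 / x ≤ (4 : ℝ) ^ (j + 1) / 4 ^ J := by
      rw [e2, one_div_div]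
      gcongr
    calc Real.exp (-(x / 2)) * (s / 2 ^ j) ^ 4 ≤ 48 / x ^ 3 * (16 * x ^ 2 / (n : ℝ) ^ 2) := by
          rw [e1]
          gcongr
          exact hexp x hx0
      _ = 768 / (n : ℝ) ^ 2 * (1 / x) := by field_simp; norm_num
      _ ≤ _ := by gcongr
  have hgeo : ∑ j ∈ Finset.range J, (4 : ℝ) ^ (j + 1) ≤ 4 / 3 * 4 ^ J := by
    clear h1 h2 hterm
    induction J with
    | zero => norm_num
    | succ J ih =>
      rw [Finset.sum_range_succ]
      have e : (4 : ℝ) / 3 * 4 ^ (J + 1) = 4 / 3 * 4 ^ J + 4 ^ (J + 1) := by ring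
      rw [e]
      linarith
  have hlast : (s / 2 ^ J) ^ 4 ≤ 16 / (n : ℝ) ^ 2 := by
    have e : (s / 2 ^ J) ^ 4 = (n * s ^ 2 / 4 ^ J) ^ 2 / (n : ℝ) ^ 2 := by
      have : (4 : ℝ) ^ J = (2 ^ J) ^ 2 := by rw [← pow_mul, mul_comm, pow_mul]; norm_num
      rw [this]
      field_simp
    rw [e]
    gcongr
    have h5 : n * s ^ 2 / 4 ^ J ≤ 4 := by
      rw [div_le_iff₀ (by positivity)]
      have : (4 : ℝ) ^ (J + 1) = 4 * 4 ^ J := by ring
      linarith
    have h6 : 0 ≤ n * s ^ 2 / 4 ^ J := by positivity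
    nlinarith
  calc _ ≤ (∑ j ∈ Finset.range J, 768 / (n : ℝ) ^ 2 * ((4 : ℝ) ^ (j + 1) / 4 ^ J))
        + 16 / (n : ℝ) ^ 2 := add_le_add (Finset.sum_le_sum hterm) hlast
    _ = 768 / (n : ℝ) ^ 2 * ((∑ j ∈ Finset.range J, (4 : ℝ) ^ (j + 1)) / 4 ^ J)
        + 16 / (n : ℝ) ^ 2 := by rw [← Finset.mul_sum, Finset.sum_div]
    _ ≤ 768 / (n : ℝ) ^ 2 * (4 / 3) + 16 / (n : ℝ) ^ 2 := by
        have h7 : (∑ j ∈ Finset.range J, (4 : ℝ) ^ (j + 1)) / 4 ^ J ≤ 4 / 3 := by
          rw [div_le_iff₀ (by positivity)]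
          exact hgeo
        have h8 : 0 ≤ 768 / (n : ℝ) ^ 2 := by positivity
        linarith [mul_le_mul_of_nonneg_left h7 h8]
    _ = 1040 / (n : ℝ) ^ 2 := by ring

/-- Consequences of membership in the unit ball of `W_4^1`. -/
theorem unitBall_data {D : Set (Fin 2 → ℝ)} (hDt : volume D ≠ ⊤) {f : (Fin 2 → ℝ) → ℝ}
    (hf : f ∈ UnitBall D 1 4) : ContinuousOn f D ∧ IntegrableOn f D ∧
    MemLp f 4 (volume.restrict D) ∧
    ∃ g : Fin 2 → (Fin 2 → ℝ) → ℝ, (∀ i, Weak1 D i f (g i)) ∧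
      (∀ i, MemLp (g i) 4 (volume.restrict D)) ∧
      (∫⁻ x in D, ‖f x‖ₑ ^ 4) + ((∫⁻ x in D, ‖g 0 x‖ₑ ^ 4) + ∫⁻ x in D, ‖g 1 x‖ₑ ^ 4) ≤ 1 := by
  obtain ⟨hfc, g, hg0, hg, hn⟩ := hf
  have : IsFiniteMeasure (volume.restrict D) := ⟨by
    rw [Measure.restrict_apply_univ]; exact lt_top_iff_ne_top.2 hDt⟩
  have m00 : (0 : Fin 2 → ℕ) ∈ multiIdx 2 1 := multiIdx_zero_mem 2 1
  have m10 : (![1, 0] : Fin 2 → ℕ) ∈ multiIdx 2 1 := by rw [multiIdx_21]; decide
  have m01 : (![0, 1] : Fin 2 → ℕ) ∈ multiIdx 2 1 := by rw [multiIdx_21]; decide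
  have hf4 : MemLp f 4 (volume.restrict D) := by
    have := (hg 0 m00).1
    rwa [hg0] at this
  have hfi : IntegrableOn f D := memLp_one_iff_integrable.1 (hf4.mono_exponent (by norm_num))
  refine ⟨hfc, hfi, hf4, ![g ![1, 0], g ![0, 1]], ?_, ?_, ?_⟩
  · intro i φ hφ
    fin_cases i
    · have := (hg _ m10).2 φ hφ
      rw [mderiv_10] at this
      simpa using this
    · have := (hg _ m01).2 φ hφ
      rw [mderiv_01] at this
      simpa using this
  · intro i
    fin_cases i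
    · exact (hg _ m10).1
    · exact (hg _ m01).1
  · unfold sobNorm at hn
    rw [if_neg (by norm_num)] at hn
    have h4 : ((4 : ℝ≥0∞)).toReal = 4 := by norm_num
    rw [h4] at hn
    have h5 : ∑ α ∈ multiIdx 2 1, eLpNorm (g α) 4 (volume.restrict D) ^ (4 : ℝ) ≤ 1 := by
      by_contra h
      rw [not_le] at h
      have := ENNReal.one_lt_rpow h (show (0 : ℝ) < 1 / 4 by norm_num)
      exact absurd hn (not_le.2 this)
    rw [multiIdx_21, Finset.sum_insert (by decide), Finset.sum_insert (by decide),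
      Finset.sum_singleton] at h5
    have h6 : ∀ u : ℝ≥0∞, u ^ (4 : ℝ) = u ^ 4 := fun u => by
      rw [← ENNReal.rpow_natCast]; norm_num
    simp only [h6] at h5
    rw [eLpNorm_four, eLpNorm_four, eLpNorm_four] at h5
    have h7 : (![0, 0] : Fin 2 → ℕ) = 0 := by
      ext i; fin_cases i <;> rfl
    rw [h7, hg0] at h5
    exact h5

end Pool.Agent.Lib.MP_961271_an
end

section
/-!
Cone condition and embedding for domains in which each point sees a box.
-/
open MeasureTheory Set Filter Topology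
open scoped ENNReal

namespace Pool.Agent.Lib.MP_961271_an

/-- Each point of `D` sees a box of radius `ρ`, within `D`. -/
def SeesBox (D : Set (Fin 2 → ℝ)) (ρ : ℝ) : Prop :=
  ∀ x ∈ D, ∃ p : Fin 2 → ℝ, (∀ i, |p i| ≤ 1) ∧ 1 / 8 ≤ |p 0| ∧
    ∀ w : Fin 2 → ℝ, (∀ i, |w i| ≤ ρ) → ∀ t ∈ Ioc (0 : ℝ) 1, x + t • (p + w) ∈ D

theorem cone_of_boxes {D : Set (Fin 2 → ℝ)} {ρ : ℝ} (hρ : 0 < ρ) (hρ1 : ρ ≤ 1)
    (h : SeesBox D ρ) : ConeCondition D := by
  refine ⟨1 / 8, by norm_num, ρ / 2, ⟨by positivity, ?_⟩, ?_⟩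
  · linarith [Real.pi_gt_three]
  intro x hx
  obtain ⟨p, hp1, hp8, hp⟩ := h x hx
  set N : ℝ := Real.sqrt (p 0 ^ 2 + p 1 ^ 2) with hN
  have hN2 : N ^ 2 = p 0 ^ 2 + p 1 ^ 2 := Real.sq_sqrt (by positivity)
  have hN8 : 1 / 8 ≤ N := by
    apply Real.le_sqrt_of_sq_le
    have : (1 / 8 : ℝ) ^ 2 ≤ |p 0| ^ 2 := pow_le_pow_left₀ (by norm_num) hp8 2
    rw [sq_abs] at this
    nlinarith [sq_nonneg (p 1)]
  have hN0 : 0 < N := by linarith
  have hNle : N ≤ 2 := by
    rw [hN]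
    apply Real.sqrt_le_iff.2
    refine ⟨by norm_num, ?_⟩
    have h0 : p 0 ^ 2 ≤ 1 := by
      rw [← sq_abs]
      nlinarith [hp1 0, abs_nonneg (p 0)]
    have h1 : p 1 ^ 2 ≤ 1 := by
      rw [← sq_abs]
      nlinarith [hp1 1, abs_nonneg (p 1)]
    linarith
  refine ⟨fun i => p i / N, ?_, ?_⟩
  · rw [Fin.sum_univ_two, div_pow, div_pow, ← add_div, ← hN2]
    exact div_self (by positivity)
  · intro y hy hyc t ht
    rw [Fin.sum_univ_two] at hy hyc
    rcases ht.1.eq_or_lt with ht0 | ht0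
    · rw [← ht0, zero_smul, add_zero]
      exact hx
    have hcos : 1 - (ρ / 2) ^ 2 / 2 ≤ Real.cos (ρ / 2) := Real.one_sub_sq_div_two_le_cos
    have hsum : (p 0 / N) ^ 2 + (p 1 / N) ^ 2 = 1 := by
      rw [div_pow, div_pow, ← add_div, ← hN2]
      exact div_self (by positivity)
    have hdist : (y 0 - p 0 / N) ^ 2 + (y 1 - p 1 / N) ^ 2 ≤ (ρ / 2) ^ 2 := by
      nlinarith
    have hi : ∀ i, |y i - p i / N| ≤ ρ / 2 := by
      intro i
      apply abs_le_of_sq_le_sq _ (by positivity)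
      fin_cases i
      · simp only [Fin.zero_eta, Fin.isValue]
        nlinarith [sq_nonneg (y 1 - p 1 / N)]
      · simp only [Fin.mk_one, Fin.isValue]
        nlinarith [sq_nonneg (y 0 - p 0 / N)]
    have h1 := hp (fun i => N * (y i - p i / N)) (by
      intro i
      rw [abs_mul, abs_of_pos hN0]
      calc N * |y i - p i / N| ≤ 2 * (ρ / 2) :=
            mul_le_mul hNle (hi i) (abs_nonneg _) (by norm_num)
        _ = ρ := by ring) (t / N) ⟨by positivity, by
          rw [div_le_one hN0]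
          exact ht.2.trans hN8⟩
    convert h1 using 2
    funext i
    simp only [Pi.smul_apply, Pi.add_apply, smul_eq_mul]
    field_simp
    ring

theorem embed_boxes {ρ : ℝ} (hρ : 0 < ρ) (hρ1 : ρ ≤ 1) : ∃ K : ℝ, 0 ≤ K ∧
    ∀ D : Set (Fin 2 → ℝ), IsOpen D → volume D ≠ ⊤ → SeesBox D ρ →
    ∀ f ∈ UnitBall D 1 4, ∀ z ∈ D, |f z| ≤ K := by
  obtain ⟨ω, hω, hω0, hωi, hω1, hωs⟩ := exists_omega
  have hωc : HasCompactSupport ω := isCompact_Icc.of_isClosed_subset (isClosed_tsupport _) hωs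
  obtain ⟨C, hC⟩ := hω.continuous.bounded_above_of_compact_support hωc
  have hC0 : 0 ≤ C := (norm_nonneg _).trans (hC 0)
  set M : ℝ := 2 * ((4 * ρ)⁻¹ * C) ^ 2 with hM
  have hM0 : 0 ≤ M := by positivity
  refine ⟨5 * (M * 4 ^ (3 / 4 : ℝ)), by positivity, ?_⟩
  intro D hDo hDt hbox f hf z hz
  obtain ⟨hfc, hfi, hf4, g, hw, hg, hnorm⟩ := unitBall_data hDt hf
  obtain ⟨p, hp1, -, hp⟩ := hbox z hz
  set c : Fin 2 → ℝ := fun i => z i + p i - 2 * ρ with hc
  set η := cellEta ω c (4 * ρ) z with hη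
  have hsm : ContDiff ℝ ((⊤ : ℕ∞) : WithTop ℕ∞) η := cellEta_smooth hω c (4 * ρ) z
  have hts : ∀ y ∈ tsupport η, ∀ i, |y i - p i| ≤ ρ := by
    intro y hy i
    have h1 := cellEta_tsupport hωs (c := c) (by positivity : 0 < 4 * ρ) hy i
    simp only [hc] at h1
    rw [abs_le]
    constructor <;> linarith [h1.1, h1.2]
  have hsub : tsupport η ⊆ Sqc (fun i => p i - ρ) (2 * ρ) := by
    intro y hy i _
    have := abs_le.1 (hts y hy i)
    constructor <;> linarith [this.1, this.2]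
  have hcomp : HasCompactSupport η :=
    (isCompact_univ_pi fun i => isCompact_Icc).of_isClosed_subset (isClosed_tsupport _) hsub
  have hV : volume (tsupport η) ≤ ENNReal.ofReal 4 := by
    refine ((measure_mono hsub).trans (volume_sqc _ (by positivity)).le).trans ?_
    apply ENNReal.ofReal_le_ofReal
    nlinarith
  have hin : ∀ t ∈ Ioc (0 : ℝ) 1, ∀ y ∈ tsupport η, z + t • y ∈ D := by
    intro t ht y hy
    have := hp (y - p) (fun i => hts y hy i) t ht
    rwa [add_sub_cancel] at this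
  have hηb : ∀ y, |η y| ≤ ((4 * ρ)⁻¹ * C) ^ 2 := by
    intro y
    rw [hη]
    unfold cellEta
    rw [Finset.abs_prod, Fin.prod_univ_two, sq]
    have h5 : ∀ t, |(4 * ρ)⁻¹ * ω t| ≤ (4 * ρ)⁻¹ * C := by
      intro t
      rw [abs_mul, abs_of_pos (by positivity : 0 < (4 * ρ)⁻¹)]
      exact mul_le_mul_of_nonneg_left (by simpa [Real.norm_eq_abs] using hC t) (by positivity)
    exact mul_le_mul (h5 _) (h5 _) (abs_nonneg _) (by positivity)
  have hMb : ∀ i y, |cmul i η y| ≤ M := by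
    intro i y
    unfold cmul
    by_cases hy : y ∈ tsupport η
    · have h1 : |y i| ≤ 2 := by
        have h2 := hts y hy i
        have h3 := hp1 i
        calc |y i| = |(y i - p i) + p i| := by congr 1; ring
          _ ≤ |y i - p i| + |p i| := abs_add_le _ _
          _ ≤ 2 := by linarith
      rw [abs_mul, hM]
      exact mul_le_mul h1 (hηb y) (abs_nonneg _) (by norm_num)
    · rw [image_eq_zero_of_notMem_tsupport hy, mul_zero, abs_zero]
      exact hM0
  have hηM : ∀ y, |η y| ≤ M := fun y => (hηb y).trans (by rw [hM]; nlinarith [sq_nonneg ((4 * ρ)⁻¹ * C)])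
  have h8 := kernel_osc hDo (subset_refl D) hsm hcomp (cellEta_integral hω1 c (by positivity) z)
    hMb (by norm_num) hV hz hin hfc hfi hw hg
  have h9 := abs_FF_le (t := 1) hDo.measurableSet (subset_refl D) hηM (by norm_num) hV one_pos
    (z := z) (fun y hy => hin 1 ⟨one_pos, le_rfl⟩ y hy) hf4
  have hle : ∀ u : (Fin 2 → ℝ) → ℝ, ∫⁻ x in D, ‖u x‖ₑ ^ 4 ≤ 1 →
      (eLpNorm u 4 (volume.restrict D)).toReal ≤ 1 := by
    intro u hu
    rw [← eLpNorm_four] at hu
    have h10 : eLpNorm u 4 (volume.restrict D) ≤ 1 := by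
      by_contra hcon
      rw [not_le] at hcon
      exact absurd hu (not_le.2 (one_lt_pow₀ hcon (by norm_num)))
    exact ENNReal.toReal_le_of_le_ofReal zero_le_one (by simpa using h10)
  have n0 := hle (g 0) ((le_self_add.trans le_add_self).trans hnorm)
  have n1 := hle (g 1) ((le_add_self.trans le_add_self).trans hnorm)
  have nf := hle f (le_self_add.trans hnorm)
  rw [Fin.sum_univ_two] at h8
  rw [Real.one_rpow, mul_one] at h9
  have hMV : 0 ≤ M * 4 ^ (3 / 4 : ℝ) := by positivity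
  have h11 : |f z| ≤ |f z - FF D f η z 1| + |FF D f η z 1| := by
    calc |f z| = |(f z - FF D f η z 1) + FF D f η z 1| := by congr 1; ring
      _ ≤ _ := abs_add_le _ _
  have h12 : M * 4 ^ (3 / 4 : ℝ) * ((eLpNorm (g 0) 4 (volume.restrict D)).toReal
      + (eLpNorm (g 1) 4 (volume.restrict D)).toReal) ≤ M * 4 ^ (3 / 4 : ℝ) * 2 :=
    mul_le_mul_of_nonneg_left (by linarith) hMV
  have h13 : M * 4 ^ (3 / 4 : ℝ) * (eLpNorm f 4 (volume.restrict D)).toReal
      ≤ M * 4 ^ (3 / 4 : ℝ) * 1 := mul_le_mul_of_nonneg_left nf hMV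
  linarith

end Pool.Agent.Lib.MP_961271_an
end

section
open MeasureTheory Set Filter Topology
open scoped ENNReal

namespace Pool.Agent.Lib.MP_961271_an

variable {d : ℕ}

/-- A unit vector (for the Euclidean norm) has sup norm at most one. -/
theorem norm_le_one_of_sq {y : Fin d → ℝ} (hy : ∑ i, y i ^ 2 = 1) : ‖y‖ ≤ 1 := by
  rw [pi_norm_le_iff_of_nonneg zero_le_one]
  intro i
  rw [Real.norm_eq_abs]
  apply abs_le_one_iff_mul_self_le_one.2
  have : y i ^ 2 ≤ ∑ i, y i ^ 2 :=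
    Finset.single_le_sum (f := fun i => y i ^ 2) (fun j _ => sq_nonneg _) (Finset.mem_univ i)
  nlinarith

theorem admissible_of_convex (hd : 1 ≤ d) {D : Set (Fin d → ℝ)} (hne : D.Nonempty)
    (ho : IsOpen D) (hb : Bornology.IsBounded D) (hc : Convex ℝ D) : Admissible D := by
  refine ⟨hne, ho, hb, ?_⟩
  obtain ⟨c, hcD⟩ := hne
  obtain ⟨ρ', hρ', hball⟩ := Metric.isOpen_iff.1 ho c hcD
  set ρ := ρ' / 2 with hρd
  have hρ : 0 < ρ := by positivity
  have hball' : ∀ w, ‖w - c‖ ≤ ρ → w ∈ D := fun w hw => hball (by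
    rw [Metric.mem_ball, dist_eq_norm]; linarith)
  obtain ⟨M', hM'⟩ := (Metric.isBounded_iff_subset_ball c).1 hb
  -- a bound for the Euclidean distance
  set M := max (Real.sqrt (d * M' ^ 2)) ρ with hM
  have hM0 : 0 < M := lt_max_of_lt_right hρ
  have hMb : ∀ x ∈ D, ∑ i, (c i - x i) ^ 2 ≤ M ^ 2 := by
    intro x hx
    have h1 : dist x c < M' := hM' hx
    have h2 : ∀ i, (c i - x i) ^ 2 ≤ M' ^ 2 := fun i => by
      have h3 : |x i - c i| ≤ ‖x - c‖ := norm_le_pi_norm (x - c) i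
      rw [dist_eq_norm] at h1
      rw [← sq_abs, abs_sub_comm]
      exact pow_le_pow_left₀ (abs_nonneg _) (by linarith) 2
    calc ∑ i, (c i - x i) ^ 2 ≤ ∑ _i : Fin d, M' ^ 2 := Finset.sum_le_sum fun i _ => h2 i
      _ = d * M' ^ 2 := by simp
      _ = Real.sqrt (d * M' ^ 2) ^ 2 := (Real.sq_sqrt (by positivity)).symm
      _ ≤ M ^ 2 := pow_le_pow_left₀ (Real.sqrt_nonneg _) (le_max_left _ _) 2
  have hρM : ρ ≤ M := le_max_right _ _
  refine ⟨ρ / 2, by positivity, ρ / M, ⟨by positivity, ?_⟩, ?_⟩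
  · calc ρ / M ≤ 1 := (div_le_one hM0).2 hρM
      _ < Real.pi / 2 := by linarith [Real.pi_gt_three]
  intro x hx
  by_cases hcase : ‖x - c‖ ≤ ρ / 2
  · -- near the centre any direction works
    refine ⟨Pi.single ⟨0, hd⟩ 1, ?_, ?_⟩
    · have : ∀ i : Fin d, (Pi.single (⟨0, hd⟩ : Fin d) (1 : ℝ) : Fin d → ℝ) i ^ 2
          = if i = ⟨0, hd⟩ then 1 else 0 := by
        intro i
        by_cases h : i = ⟨0, hd⟩
        · subst h; simp
        · simp [h]
      simp [this]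
    · intro y hy _ t ht
      apply hball'
      calc ‖x + t • y - c‖ = ‖(x - c) + t • y‖ := by congr 1; abel
        _ ≤ ‖x - c‖ + ‖t • y‖ := norm_add_le _ _
        _ ≤ ρ / 2 + ρ / 2 * 1 := by
            refine add_le_add hcase ?_
            rw [norm_smul, Real.norm_eq_abs, abs_of_nonneg ht.1]
            exact mul_le_mul ht.2 (norm_le_one_of_sq hy) (norm_nonneg _) (by positivity)
        _ = ρ := by ring
  · rw [not_le] at hcase
    set L2 := ∑ i, (c i - x i) ^ 2 with hL2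
    have hL2pos : (ρ / 2) ^ 2 < L2 := by
      obtain ⟨i, hi⟩ : ∃ i, ρ / 2 < |x i - c i| := by
        by_contra h
        push Not at h
        exact absurd hcase (not_lt.2 ((pi_norm_le_iff_of_nonneg (by positivity)).2
          fun i => by simpa [Real.norm_eq_abs] using h i))
      calc (ρ / 2) ^ 2 < |x i - c i| ^ 2 := by gcongr
        _ = (c i - x i) ^ 2 := by rw [sq_abs]; ring
        _ ≤ L2 := Finset.single_le_sum (f := fun i => (c i - x i) ^ 2)
          (fun j _ => sq_nonneg _) (Finset.mem_univ i)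
    set L := Real.sqrt L2 with hL
    have hLsq : L ^ 2 = L2 := Real.sq_sqrt (by positivity)
    have hL0 : 0 < L := Real.sqrt_pos.2 (lt_of_le_of_lt (by positivity) hL2pos)
    have hLρ : ρ / 2 < L := by
      apply Real.lt_sqrt_of_sq_lt hL2pos
    have hLM : L ≤ M := by
      apply Real.sqrt_le_iff.2
      exact ⟨hM0.le, hMb x hx⟩
    refine ⟨fun i => L⁻¹ * (c i - x i), ?_, ?_⟩
    · simp only [mul_pow]
      rw [← Finset.mul_sum, ← hL2, ← hLsq, inv_pow]
      exact inv_mul_cancel₀ (by positivity)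
    · intro y hy hyc t ht
      -- the auxiliary point
      set w : Fin d → ℝ := x + L • y with hw
      have hwD : w ∈ D := by
        apply hball'
        rw [pi_norm_le_iff_of_nonneg hρ.le]
        intro i
        rw [Real.norm_eq_abs]
        apply abs_le_of_sq_le_sq _ hρ.le
        have h1 : ∑ i, (w i - c i) ^ 2 = L ^ 2 * (2 - 2 * ∑ i, y i * (L⁻¹ * (c i - x i))) := by
          have e1 : ∀ i, (w i - c i) ^ 2 = L ^ 2 * y i ^ 2 + (c i - x i) ^ 2
              - 2 * L ^ 2 * (y i * (L⁻¹ * (c i - x i))) := by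
            intro i
            simp only [hw, Pi.add_apply, Pi.smul_apply, smul_eq_mul]
            field_simp
            ring
          simp only [e1]
          rw [Finset.sum_sub_distrib, Finset.sum_add_distrib, ← Finset.mul_sum, ← Finset.mul_sum,
            hy, ← hL2, ← hLsq]
          ring
        have h2 : Real.cos (ρ / M) ≥ 1 - (ρ / M) ^ 2 / 2 := Real.one_sub_sq_div_two_le_cos
        calc (w i - c i) ^ 2 ≤ ∑ i, (w i - c i) ^ 2 :=
              Finset.single_le_sum (f := fun i => (w i - c i) ^ 2)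
                (fun j _ => sq_nonneg _) (Finset.mem_univ i)
          _ = L ^ 2 * (2 - 2 * ∑ i, y i * (L⁻¹ * (c i - x i))) := h1
          _ ≤ L ^ 2 * (ρ / M) ^ 2 := by
              apply mul_le_mul_of_nonneg_left _ (sq_nonneg _)
              linarith
          _ ≤ M ^ 2 * (ρ / M) ^ 2 := by gcongr
          _ = ρ ^ 2 := by field_simp
      have h3 : x + t • y = (1 - t / L) • x + (t / L) • w := by
        rw [hw]
        ext i
        simp only [Pi.add_apply, Pi.smul_apply, smul_eq_mul]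
        field_simp
        ring
      rw [h3]
      have htL : t / L ≤ 1 := (div_le_one hL0).2 (ht.2.trans hLρ.le)
      exact hc hx hwD (by linarith) (div_nonneg ht.1 hL0.le) (by ring)

end Pool.Agent.Lib.MP_961271_an
end

section
/-!
The unit square with teeth at rapidly decreasing scales.
-/
open MeasureTheory Set Filter Topology
open scoped ENNReal

namespace Pool.Agent.Lib.MP_961271_an

/-- The length of the `k`-th tooth. -/
noncomputable def Lk (k : ℕ) : ℝ := (1 / 4 : ℝ) ^ (5 ^ k)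

theorem Lk_pos (k : ℕ) : 0 < Lk k := by unfold Lk; positivity

theorem Lk_succ (k : ℕ) : Lk (k + 1) = Lk k ^ 5 := by
  unfold Lk
  rw [← pow_mul, pow_succ]

theorem Lk_le (k : ℕ) : Lk k ≤ 1 / 4 := by
  unfold Lk
  calc (1 / 4 : ℝ) ^ (5 ^ k) ≤ (1 / 4 : ℝ) ^ 1 :=
        pow_le_pow_of_le_one (by norm_num) (by norm_num) (Nat.one_le_pow _ _ (by norm_num))
    _ = 1 / 4 := pow_one _

theorem Lk_succ_lt (k : ℕ) : 2 * Lk (k + 1) < Lk k := by
  have h1 := Lk_pos k
  have h2 := Lk_le k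
  rw [Lk_succ]
  have h3 : Lk k ^ 4 ≤ (1 / 4) ^ 4 := pow_le_pow_left₀ h1.le h2 4
  calc 2 * Lk k ^ 5 = 2 * (Lk k ^ 4 * Lk k) := by ring
    _ ≤ 2 * ((1 / 4) ^ 4 * Lk k) := by gcongr
    _ < Lk k := by linarith

theorem Lk_anti {k l : ℕ} (h : k ≤ l) : Lk l ≤ Lk k := by
  induction l, h using Nat.le_induction with
  | base => exact le_rfl
  | succ l hl ih => linarith [Lk_succ_lt l, Lk_pos (l + 1)]

theorem Lk_lt {k l : ℕ} (h : k < l) : 2 * Lk l < Lk k := by
  have h1 : Lk l ≤ Lk (k + 1) := Lk_anti h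
  linarith [Lk_succ_lt k]

/-- The `k`-th tooth, prolonged into the square. -/
def Tooth (m k : ℕ) : Set (Fin 2 → ℝ) :=
  {x | (-Lk k < x 0 ∧ x 0 < 1) ∧ 1 / 4 + Lk k < x 1 ∧ x 1 < 1 / 4 + Lk k + Lk k / m}

/-- The domain. -/
def Dom (m : ℕ) : Set (Fin 2 → ℝ) := Sq 0 1 ∪ ⋃ k, Tooth m k

theorem mem_sq01 {x : Fin 2 → ℝ} : x ∈ Sq 0 1 ↔ (0 < x 0 ∧ x 0 < 1) ∧ 0 < x 1 ∧ x 1 < 1 := by
  unfold Sq
  simp [Fin.forall_fin_two]

theorem tooth_height {m k : ℕ} (hm : 1 ≤ m) {x : Fin 2 → ℝ} (hx : x ∈ Tooth m k) :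
    1 / 4 < x 1 ∧ x 1 < 3 / 4 := by
  obtain ⟨-, h1, h2⟩ := hx
  have h3 := Lk_pos k
  have h4 := Lk_le k
  have hm' : (1 : ℝ) ≤ m := by exact_mod_cast hm
  have h5 : Lk k / m ≤ Lk k := div_le_self h3.le hm'
  constructor <;> linarith

/-- The heights of different teeth are disjoint. -/
theorem height_unique {m k l : ℕ} (hm : 1 ≤ m) {t : ℝ} (h1 : 1 / 4 + Lk k ≤ t)
    (h2 : t ≤ 1 / 4 + Lk k + Lk k / m) (h3 : 1 / 4 + Lk l ≤ t)
    (h4 : t ≤ 1 / 4 + Lk l + Lk l / m) : k = l := by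
  have hm' : (1 : ℝ) ≤ m := by exact_mod_cast hm
  have h5 : Lk k / m ≤ Lk k := div_le_self (Lk_pos k).le hm'
  have h6 : Lk l / m ≤ Lk l := div_le_self (Lk_pos l).le hm'
  by_contra hkl
  rcases lt_or_gt_of_ne hkl with h | h
  · linarith [Lk_lt h]
  · linarith [Lk_lt h]

theorem dom_cases {m : ℕ} (hm : 1 ≤ m) {x : Fin 2 → ℝ} (hx : x ∈ Dom m) :
    x ∈ Sq 0 1 ∨ (x 0 ≤ 0 ∧ ∃ k, x ∈ Tooth m k) := by
  rcases hx with hx | hx
  · exact Or.inl hx
  · obtain ⟨k, hk⟩ := mem_iUnion.1 hx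
    by_cases h0 : x 0 ≤ 0
    · exact Or.inr ⟨h0, k, hk⟩
    · left
      have := tooth_height hm hk
      rw [mem_sq01]
      exact ⟨⟨not_le.1 h0, hk.1.2⟩, by linarith [this.1], by linarith [this.2]⟩

theorem tooth_open (m k : ℕ) : IsOpen (Tooth m k) := by
  have h0 : Continuous (fun x : Fin 2 → ℝ => x 0) := continuous_apply 0
  have h1 : Continuous (fun x : Fin 2 → ℝ => x 1) := continuous_apply 1
  exact ((isOpen_lt continuous_const h0).inter (isOpen_lt h0 continuous_const)).inter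
    ((isOpen_lt continuous_const h1).inter (isOpen_lt h1 continuous_const))

theorem dom_open (m : ℕ) : IsOpen (Dom m) :=
  (sq_open 0 1).union (isOpen_iUnion fun k => tooth_open m k)

theorem dom_subset {m : ℕ} (hm : 1 ≤ m) : Dom m ⊆ Set.univ.pi fun i : Fin 2 =>
    Ioo ((![-1, 0] : Fin 2 → ℝ) i) ((![1, 1] : Fin 2 → ℝ) i) := by
  intro x hx
  rw [mem_univ_pi, Fin.forall_fin_two]
  simp only [Matrix.cons_val_zero, Matrix.cons_val_one, mem_Ioo]
  rcases dom_cases hm hx with h | ⟨h0, k, hk⟩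
  · rw [mem_sq01] at h
    exact ⟨⟨by linarith [h.1.1], h.1.2⟩, h.2⟩
  · have h1 := tooth_height hm hk
    have h2 := Lk_le k
    exact ⟨⟨by linarith [hk.1.1], hk.1.2⟩, by linarith [h1.1], by linarith [h1.2]⟩

theorem dom_bounded {m : ℕ} (hm : 1 ≤ m) : Bornology.IsBounded (Dom m) := by
  refine Bornology.IsBounded.subset ?_ (dom_subset hm)
  exact Bornology.IsBounded.pi fun i => Metric.isBounded_Ioo _ _

theorem dom_volume_le {m : ℕ} (hm : 1 ≤ m) : volume (Dom m) ≤ 2 := by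
  refine (measure_mono (dom_subset hm)).trans (le_of_eq ?_)
  rw [Real.volume_pi_Ioo, Fin.prod_univ_two]
  simp
  norm_num

theorem one_le_dom_volume (m : ℕ) : 1 ≤ volume (Dom m) := by
  have h : volume (Sq 0 1) ≤ volume (Dom m) := measure_mono subset_union_left
  rw [volume_sq 0 zero_le_one] at h
  simpa using h

theorem dom_sees {m : ℕ} (hm : 1 ≤ m) : SeesBox (Dom m) (1 / (32 * m)) := by
  have hm' : (1 : ℝ) ≤ m := by exact_mod_cast hm
  have hm0 : (0 : ℝ) < m := by linarith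
  set ρ : ℝ := 1 / (32 * m) with hρ
  have hρ0 : 0 < ρ := by positivity
  have hρ1 : ρ ≤ 1 / 32 := by
    rw [hρ]
    apply one_div_le_one_div_of_le (by norm_num)
    linarith
  intro x hx
  rcases dom_cases hm hx with h | ⟨h0, k, hk⟩
  · rw [mem_sq01] at h
    -- towards the centre
    refine ⟨fun i => if x i < 1 / 2 then 1 / 4 else - (1 / 4), ?_, ?_, ?_⟩
    · intro i
      simp only
      split_ifs
      · rw [abs_of_pos (by norm_num)]; norm_num
      · rw [abs_neg, abs_of_pos (by norm_num)]; norm_num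
    · simp only
      split_ifs
      · rw [abs_of_pos (by norm_num)]; norm_num
      · rw [abs_neg, abs_of_pos (by norm_num)]; norm_num
    · intro w hw t ht
      left
      have key : ∀ i : Fin 2, 0 < x i → x i < 1 →
          0 < (x + t • ((fun i => if x i < 1 / 2 then (1 / 4 : ℝ) else - (1 / 4)) + w)) i ∧
          (x + t • ((fun i => if x i < 1 / 2 then (1 / 4 : ℝ) else - (1 / 4)) + w)) i < 1 := by
        intro i h1 h2
        have hwi := abs_le.1 (hw i)
        simp only [Pi.add_apply, Pi.smul_apply, smul_eq_mul]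
        split_ifs with hlt
        · have h3 : 0 < t * (1 / 4 + w i) := mul_pos ht.1 (by linarith [hwi.1])
          have h4 : t * (1 / 4 + w i) ≤ 1 * (1 / 4 + w i) :=
            mul_le_mul_of_nonneg_right ht.2 (by linarith [hwi.1])
          constructor
          · linarith
          · linarith [hwi.2]
        · have h3 : 0 < t * (1 / 4 - w i) := mul_pos ht.1 (by linarith [hwi.2])
          have h4 : t * (1 / 4 - w i) ≤ 1 * (1 / 4 - w i) :=
            mul_le_mul_of_nonneg_right ht.2 (by linarith [hwi.2])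
          have e : t * (-(1 / 4) + w i) = - (t * (1 / 4 - w i)) := by ring
          rw [e]
          constructor
          · linarith [hwi.1]
          · linarith
      rw [mem_sq01]
      exact ⟨key 0 h.1.1 h.1.2, key 1 h.2.1 h.2.2⟩
  · -- out of the tooth
    have hL := Lk_pos k
    have hL4 := Lk_le k
    have hht := tooth_height hm hk
    obtain ⟨⟨hk1, hk2⟩, hk3, hk4⟩ := hk
    have hLm : 0 < Lk k / m := by positivity
    have hσ : ∃ σ : ℝ, (σ = 1 ∧ x 1 < 1 / 4 + Lk k + Lk k / m / 2) ∨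
        (σ = -1 ∧ 1 / 4 + Lk k + Lk k / m / 2 ≤ x 1) := by
      rcases lt_or_ge (x 1) (1 / 4 + Lk k + Lk k / m / 2) with h | h
      · exact ⟨1, Or.inl ⟨rfl, h⟩⟩
      · exact ⟨-1, Or.inr ⟨rfl, h⟩⟩
    obtain ⟨σ, hσ⟩ := hσ
    refine ⟨![3 / 8, σ * (2 * ρ)], ?_, ?_, ?_⟩
    · intro i
      fin_cases i
      · simp
        norm_num [abs_of_pos]
      · simp only [Fin.mk_one, Matrix.cons_val_one]
        rcases hσ with ⟨rfl, -⟩ | ⟨rfl, -⟩
        · simp only [Matrix.cons_val_fin_one]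
          rw [one_mul, abs_of_pos (by positivity)]; linarith
        · simp only [Matrix.cons_val_fin_one]
          rw [neg_one_mul, abs_neg, abs_of_pos (by positivity)]; linarith
    · simp
      norm_num [abs_of_pos]
    · intro w hw t ht
      have hw0 := abs_le.1 (hw 0)
      have hw1 := abs_le.1 (hw 1)
      set u : Fin 2 → ℝ := x + t • ((![3 / 8, σ * (2 * ρ)] : Fin 2 → ℝ) + w) with hu
      have u0 : u 0 = x 0 + t * (3 / 8 + w 0) := rfl
      have u1 : u 1 = x 1 + t * (σ * (2 * ρ) + w 1) := rfl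
      have hρm : ρ * m = 1 / 32 := by rw [hρ]; field_simp
      -- first coordinate
      have a1 : 0 < t * (3 / 8 + w 0) := mul_pos ht.1 (by linarith [hw0.1])
      have a2 : t * (3 / 8 + w 0) ≤ 1 * (3 / 8 + w 0) :=
        mul_le_mul_of_nonneg_right ht.2 (by linarith [hw0.1])
      -- second coordinate
      have b1 : |t * (σ * (2 * ρ) + w 1)| ≤ t * (3 * ρ) := by
        rw [abs_mul, abs_of_pos ht.1]
        apply mul_le_mul_of_nonneg_left _ ht.1.le
        rw [abs_le]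
        rcases hσ with ⟨rfl, -⟩ | ⟨rfl, -⟩
        · constructor <;> linarith [hw1.1, hw1.2]
        · constructor <;> linarith [hw1.1, hw1.2]
      have b1' := abs_le.1 b1
      by_cases hu0 : 0 < u 0
      · left
        rw [mem_sq01]
        have b2 : t * (3 * ρ) ≤ 1 * (3 * ρ) := mul_le_mul_of_nonneg_right ht.2 (by positivity)
        refine ⟨⟨hu0, by rw [u0]; linarith [hw0.2]⟩, ?_, ?_⟩
        · rw [u1]; linarith [b1'.1, hht.1]
        · rw [u1]; linarith [b1'.2, hht.2]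
      · right
        rw [not_lt] at hu0
        refine mem_iUnion.2 ⟨k, ⟨⟨by rw [u0]; linarith, by linarith⟩, ?_⟩⟩
        -- `t` is small
        have c1 : t * (1 / 4) ≤ t * (3 / 8 + w 0) :=
          mul_le_mul_of_nonneg_left (by linarith [hw0.1]) ht.1.le
        have c2 : t ≤ 4 * Lk k := by rw [u0] at hu0; linarith
        have c3 : t * (3 * ρ) < Lk k / m / 2 := by
          calc t * (3 * ρ) ≤ 4 * Lk k * (3 * ρ) := by gcongr
            _ = 12 * (ρ * m) * (Lk k / m) := by field_simp; ring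
            _ = 3 / 8 * (Lk k / m) := by rw [hρm]; ring
            _ < Lk k / m / 2 := by linarith
        rcases hσ with ⟨rfl, hh⟩ | ⟨rfl, hh⟩
        · have d1 : 0 < t * (1 * (2 * ρ) + w 1) := mul_pos ht.1 (by linarith [hw1.1])
          constructor
          · rw [u1]; linarith
          · rw [u1]; linarith [b1'.2]
        · have d1 : 0 < t * (2 * ρ - w 1) := mul_pos ht.1 (by linarith [hw1.2])
          have e : t * (-1 * (2 * ρ) + w 1) = - (t * (2 * ρ - w 1)) := by ring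
          constructor
          · rw [u1]; linarith [b1'.1]
          · rw [u1, e]; linarith

theorem dom_admissible {m : ℕ} (hm : 1 ≤ m) : Admissible (Dom m) := by
  have hm' : (1 : ℝ) ≤ m := by exact_mod_cast hm
  refine ⟨⟨fun _ => 1 / 2, Or.inl (mem_sq01.2 (by norm_num))⟩, dom_open m, dom_bounded hm, ?_⟩
  refine cone_of_boxes (ρ := 1 / (32 * m)) (by positivity) ?_ (dom_sees hm)
  rw [div_le_one (by positivity)]
  linarith

end Pool.Agent.Lib.MP_961271_an
end
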