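import Pool.Agent.Lib.MP_961271_an.UpperTeeth
import Pool.Agent.Lib.MP_961271_an.Q2

/-!
Dependence on the shape at a positive rate: `d = 2`, `s = 1`, `p = q = 4`, Monte Carlo error,
rate `n ^ (-1/2)`.  The unit square has a bounded normalised error; a convex domain of the same
area with a sharp vertex has a large one, for all large `n`.
-/

open MeasureTheory Set Filter Topology
open scoped ENNReal NNReal

namespace Pool.Agent.Lib.MP_961271_an

theorem smooth_weak_21 {D : Set (Fin 2 → ℝ)} {F : (Fin 2 → ℝ) → ℝ}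
    (hF : ContDiff ℝ ((⊤ : ℕ∞) : WithTop ℕ∞) F) :
    ∀ α ∈ multiIdx 2 1, IsWeakDeriv D α F (mderiv α F) := by
  intro α hα
  rw [multiIdx_21] at hα
  simp only [Finset.mem_insert, Finset.mem_singleton] at hα
  rcases hα with rfl | rfl | rfl
  · intro φ hφ
    have e : ∀ ψ : (Fin 2 → ℝ) → ℝ, mderiv (![0, 0] : Fin 2 → ℕ) ψ = ψ := fun ψ => rfl
    rw [e, e]
    simp
  · intro φ hφ
    rw [mderiv_10, mderiv_10, smooth_weak1 hF hφ 0]
    simp [Fin.sum_univ_two]
  · intro φ hφ
    rw [mderiv_01, mderiv_01, smooth_weak1 hF hφ 1]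
    simp [Fin.sum_univ_two]

/-- Functions of the first coordinate in the unit ball of `W_4^1`. -/
theorem mem_unitBall_fst4 {D : Set (Fin 2 → ℝ)} (hDb : volume D ≠ ⊤)
    {H : ℝ → ℝ} (hH : ContDiff ℝ ((⊤ : ℕ∞) : WithTop ℕ∞) H) {δ : ℝ}
    (hz : ∀ t, δ ≤ t → H t = 0) {v B0 B1 : ℝ} (hv0 : 0 ≤ v)
    (hv : volume (D ∩ {x | x 0 < δ}) ≤ ENNReal.ofReal v)
    (hB0 : ∀ t, |H t| ≤ B0) (hB1 : ∀ t, |deriv H t| ≤ B1)
    (hsum : (B0 ^ 4 + B1 ^ 4) * v ≤ 1) :
    (fun x : Fin 2 → ℝ => H (x 0)) ∈ UnitBall D 1 4 := by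
  set F : (Fin 2 → ℝ) → ℝ := fun x => H (x 0) with hF
  have hFs : ContDiff ℝ ((⊤ : ℕ∞) : WithTop ℕ∞) F := hH.comp (contDiff_apply ℝ ℝ 0)
  -- the derivative vanishes as well
  have hz1 : ∀ t, δ < t → deriv H t = 0 := by
    intro t ht
    have : H =ᶠ[𝓝 t] fun _ => 0 := by
      filter_upwards [Ioi_mem_nhds ht] with s hs using hz s (le_of_lt hs)
    rw [this.deriv_eq]
    simp
  have hz1' : ∀ t, δ ≤ t → deriv H t = 0 := by
    intro t ht
    rcases ht.eq_or_lt with rfl | h
    · have hc : Continuous (deriv H) := (smooth_deriv hH).continuous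
      have h1 : Tendsto (deriv H) (𝓝[>] δ) (𝓝 (deriv H δ)) :=
        (hc.tendsto δ).mono_left nhdsWithin_le_nhds
      have h2 : Tendsto (deriv H) (𝓝[>] δ) (𝓝 0) := by
        refine tendsto_const_nhds.congr' ?_
        filter_upwards [self_mem_nhdsWithin] with s hs using (hz1 s hs).symm
      exact tendsto_nhds_unique h1 h2
    · exact hz1 t h
  have d10 : mderiv (![1, 0] : Fin 2 → ℕ) F = fun x => deriv H (x 0) := pderiv_zero_fst hH
  have d01 : mderiv (![0, 1] : Fin 2 → ℕ) F = fun _ => 0 := pderiv_one_fst hH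
  have d00 : mderiv (![0, 0] : Fin 2 → ℕ) F = F := rfl
  have : IsFiniteMeasure (volume.restrict D) :=
    ⟨by rw [Measure.restrict_apply_univ]; exact lt_top_iff_ne_top.2 hDb⟩
  -- a bound for the `L_4` norms
  have hL4 : ∀ (G : ℝ → ℝ) (B : ℝ), Continuous G → (∀ t, |G t| ≤ B) → (∀ t, δ ≤ t → G t = 0) →
      MemLp (fun x : Fin 2 → ℝ => G (x 0)) 4 (volume.restrict D) ∧
      eLpNorm (fun x : Fin 2 → ℝ => G (x 0)) 4 (volume.restrict D) ^ (4 : ℝ) ≤
        ENNReal.ofReal (B ^ 4 * v) := by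
    intro G B hG hGB hG0
    have hmeas : AEStronglyMeasurable (fun x : Fin 2 → ℝ => G (x 0)) (volume.restrict D) :=
      (hG.comp (continuous_apply 0)).aestronglyMeasurable
    have hB : 0 ≤ B := (abs_nonneg _).trans (hGB 0)
    refine ⟨MemLp.of_bound hmeas B (Eventually.of_forall fun x => hGB (x 0)), ?_⟩
    have e4 : eLpNorm (fun x : Fin 2 → ℝ => G (x 0)) 4 (volume.restrict D) ^ (4 : ℝ) =
        eLpNorm (fun x : Fin 2 → ℝ => G (x 0)) 4 (volume.restrict D) ^ 4 := by
      rw [← ENNReal.rpow_natCast]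
      norm_num
    rw [e4, eLpNorm_four]
    calc ∫⁻ x in D, ‖G (x 0)‖ₑ ^ 4
        ≤ ∫⁻ x in D, ({x : Fin 2 → ℝ | x 0 < δ}).indicator
            (fun _ => ENNReal.ofReal (B ^ 4)) x := by
          refine lintegral_mono fun x => ?_
          by_cases hx : x 0 < δ
          · rw [indicator_of_mem (show x ∈ {x : Fin 2 → ℝ | x 0 < δ} from hx)]
            rw [Real.enorm_eq_ofReal_abs, ← ENNReal.ofReal_pow (abs_nonneg _)]
            exact ENNReal.ofReal_le_ofReal (pow_le_pow_left₀ (abs_nonneg _) (hGB _) 4)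
          · rw [hG0 _ (not_lt.1 hx)]
            simp
      _ = ENNReal.ofReal (B ^ 4) * volume (D ∩ {x | x 0 < δ}) := by
          have hms : MeasurableSet {x : Fin 2 → ℝ | x 0 < δ} :=
            measurableSet_lt (measurable_pi_apply 0) measurable_const
          rw [lintegral_indicator hms, lintegral_const, Measure.restrict_restrict hms,
            Measure.restrict_apply_univ, inter_comm]
      _ ≤ ENNReal.ofReal (B ^ 4) * ENNReal.ofReal v := by
          gcongr
      _ = ENNReal.ofReal (B ^ 4 * v) := (ENNReal.ofReal_mul (by positivity)).symm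
  have r0 := hL4 H B0 hH.continuous hB0 hz
  have r1 := hL4 (deriv H) B1 (smooth_deriv hH).continuous hB1 hz1'
  have hB0' : 0 ≤ B0 := (abs_nonneg _).trans (hB0 0)
  have hB1' : 0 ≤ B1 := (abs_nonneg _).trans (hB1 0)
  refine ⟨hFs.continuous.continuousOn, fun α => mderiv α F, rfl, fun α hα => ⟨?_, ?_⟩, ?_⟩
  · rw [multiIdx_21] at hα
    simp only [Finset.mem_insert, Finset.mem_singleton] at hα
    rcases hα with rfl | rfl | rfl
    · show MemLp (mderiv _ F) 4 _
      rw [d00]; exact r0.1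
    · show MemLp (mderiv _ F) 4 _
      rw [d10]; exact r1.1
    · show MemLp (mderiv _ F) 4 _
      rw [d01]; exact MemLp.zero
  · exact smooth_weak_21 hFs α hα
  · unfold sobNorm
    rw [if_neg (by simp)]
    have h4 : (4 : ℝ≥0∞).toReal = 4 := by simp
    rw [h4, multiIdx_21, Finset.sum_insert (by decide), Finset.sum_insert (by decide),
      Finset.sum_singleton]
    show (eLpNorm (mderiv (![0, 0] : Fin 2 → ℕ) F) 4 (volume.restrict D) ^ (4 : ℝ) +
        (eLpNorm (mderiv (![1, 0] : Fin 2 → ℕ) F) 4 (volume.restrict D) ^ (4 : ℝ) +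
          eLpNorm (mderiv (![0, 1] : Fin 2 → ℕ) F) 4 (volume.restrict D) ^ (4 : ℝ))) ^
      (1 / 4 : ℝ) ≤ 1
    rw [d00, d10, d01]
    have hzero : eLpNorm (fun _ : Fin 2 → ℝ => (0 : ℝ)) 4 (volume.restrict D) = 0 :=
      eLpNorm_zero'
    rw [hzero, ENNReal.zero_rpow_of_pos (by norm_num), add_zero]
    apply ENNReal.rpow_le_one _ (by norm_num)
    calc _ ≤ ENNReal.ofReal (B0 ^ 4 * v) + ENNReal.ofReal (B1 ^ 4 * v) := add_le_add r0.2 r1.2
      _ = ENNReal.ofReal ((B0 ^ 4 + B1 ^ 4) * v) := by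
          rw [← ENNReal.ofReal_add (by positivity) (by positivity)]
          congr 1
          ring
      _ ≤ 1 := ENNReal.ofReal_le_one.2 hsum

/-- Lower bound for the sharp parallelogram of area one: the normalised minimal errors are at least
`c * L` for all large `n`. -/
theorem thin_lower : ∃ c : ℝ, 0 < c ∧ ∀ L : ℝ, 1 ≤ L → ∀ᶠ n : ℕ in atTop,
    ENNReal.ofReal (c * L) ≤ normErr Crit.ran (Par ![L, 0] ![L, L⁻¹]) 1 4 4 n := by
  obtain ⟨h, hh, hh0, hh1, hhb, B, hB, hB1, hB2⟩ := exists_profile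
  refine ⟨(8 * (1 + B))⁻¹, by positivity, fun L hL => ?_⟩
  have hL0 : 0 < L := by linarith
  set a : Fin 2 → ℝ := ![L, 0] with ha
  set b : Fin 2 → ℝ := ![L, L⁻¹] with hb
  have hdetv : a 0 * b 1 - a 1 * b 0 = 1 := by
    simp [ha, hb, hL0.ne']
  have hdet : a 0 * b 1 - a 1 * b 0 ≠ 0 := by rw [hdetv]; exact one_ne_zero
  set P := Par a b with hP
  have hadm : Admissible P := par_admissible hdet
  have hvol : volume P = 1 := by rw [hP, volume_par hdet, hdetv]; simp
  have hu : ∀ x, ucoord a b x = x 0 / L - L * x 1 := by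
    intro x
    unfold ucoord
    rw [hdetv]
    simp [ha, hb]
    ring
  have hv : ∀ x, vcoord a b x = L * x 1 := by
    intro x
    unfold vcoord
    rw [hdetv]
    simp [ha, hb]
  have hPx : ∀ x ∈ P, 0 < x 0 ∧ 0 < x 1 ∧ x 1 < x 0 / L ^ 2 := by
    intro x hx
    obtain ⟨h1, h2⟩ := hx
    rw [hu] at h1
    rw [hv] at h2
    have h3 : 0 < x 1 := by
      exact (mul_pos_iff_of_pos_left hL0).1 h2.1
    have h4 : L * x 1 < x 0 / L := by linarith [h1.1]
    have h5 : x 1 < x 0 / L ^ 2 := by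
      rw [lt_div_iff₀ (by positivity)]
      rw [lt_div_iff₀ hL0] at h4
      calc x 1 * L ^ 2 = L * x 1 * L := by ring
        _ < x 0 := h4
    refine ⟨?_, h3, h5⟩
    have : 0 < x 0 / L := lt_trans (by positivity) h4
    exact (div_pos_iff_of_pos_right hL0).1 this
  obtain ⟨N, hN⟩ := exists_nat_ge (L ^ 2)
  filter_upwards [eventually_ge_atTop (max N 2)] with n hn
  have hnN : L ^ 2 ≤ n := hN.trans (by exact_mod_cast (le_max_left _ _).trans hn)
  have hn2 : 2 ≤ n := (le_max_right _ _).trans hn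
  have hn2' : (2 : ℝ) ≤ n := by exact_mod_cast hn2
  have hn0 : (0 : ℝ) < n := by linarith
  set r : ℝ := Real.sqrt n with hr
  have hr0 : 0 < r := Real.sqrt_pos.2 hn0
  have hr2 : r ^ 2 = n := Real.sq_sqrt hn0.le
  set δ : ℝ := L / r with hδd
  have hδ : 0 < δ := by positivity
  have hδ2 : δ ^ 2 = L ^ 2 / n := by rw [hδd, div_pow, hr2]
  have hδ1 : δ ≤ 1 := by
    rw [hδd, div_le_one hr0]
    exact Real.le_sqrt_of_sq_le hnN
  -- the height of the bump
  set ρ : ℝ := Real.sqrt r with hρ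
  have hρ0 : 0 < ρ := Real.sqrt_pos.2 hr0
  have hρ2 : ρ ^ 2 = r := Real.sq_sqrt hr0.le
  have hρ4 : ρ ^ 4 = (n : ℝ) := by
    have h1 : ρ ^ 4 = (ρ ^ 2) ^ 2 := by ring
    rw [h1, hρ2, hr2]
  set κ : ℝ := δ * ρ / (1 + B) with hκ
  have hκ0 : 0 < κ := by positivity
  set H : ℝ → ℝ := fun t => κ * h (t / δ) with hH
  have hHs : ContDiff ℝ ((⊤ : ℕ∞) : WithTop ℕ∞) H :=
    contDiff_const.mul (hh.comp (contDiff_id.div_const δ))
  have hHd : ∀ t, HasDerivAt H (κ / δ * deriv h (t / δ)) t := by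
    intro t
    have h1 : HasDerivAt h (deriv h (t / δ)) (t / δ) :=
      ((hh.differentiable (by simp)) _).hasDerivAt
    have h2 : HasDerivAt (fun t : ℝ => t / δ) (1 / δ) t := (hasDerivAt_id t).div_const δ
    have h3 := (h1.comp t h2).const_mul κ
    refine h3.congr_deriv ?_
    ring
  set C : Set (Fin 2 → ℝ) := {x | x 0 < δ} with hC
  have hCm : MeasurableSet C := measurableSet_lt (measurable_pi_apply 0) measurable_const
  have hvle : volume (P ∩ C) ≤ ENNReal.ofReal (1 / n) := by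
    have hsub : P ∩ C ⊆ Set.univ.pi fun i : Fin 2 => Ioo (0 : ℝ) (![δ, δ / L ^ 2] i) := by
      rintro x ⟨hxP, hxC⟩
      obtain ⟨q1, q2, q3⟩ := hPx x hxP
      rw [mem_univ_pi, Fin.forall_fin_two]
      refine ⟨⟨q1, hxC⟩, ⟨q2, ?_⟩⟩
      show x 1 < δ / L ^ 2
      refine q3.trans ?_
      gcongr
      exact hxC
    refine (measure_mono hsub).trans ?_
    rw [Real.volume_pi_Ioo, Fin.prod_univ_two]
    simp only [sub_zero, Matrix.cons_val_zero, Matrix.cons_val_one]
    rw [← ENNReal.ofReal_mul hδ.le]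
    apply le_of_eq
    congr 1
    calc δ * (δ / L ^ 2) = δ ^ 2 / L ^ 2 := by rw [← mul_div_assoc]; congr 1; exact (sq δ).symm
      _ = 1 / (n : ℝ) := by rw [hδ2]; field_simp
  have hmem : (fun x : Fin 2 → ℝ => H (x 0)) ∈ UnitBall P 1 4 := by
    refine mem_unitBall_fst4 (δ := δ) (v := 1 / n) (B0 := κ) (B1 := κ / δ * B)
      (by rw [hvol]; exact ENNReal.one_ne_top) hHs ?_ (by positivity) hvle ?_ ?_ ?_
    · intro t ht
      simp only [hH]
      rw [hh0 _ ((one_le_div hδ).2 ht), mul_zero]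
    · intro t
      simp only [hH]
      rw [abs_mul, abs_of_pos hκ0]
      exact mul_le_of_le_one_right hκ0.le (hhb _)
    · intro t
      rw [(hHd t).deriv, abs_mul, abs_of_pos (by positivity : 0 < κ / δ)]
      exact mul_le_mul_of_nonneg_left (hB1 _) (by positivity)
    · have e1 : (κ ^ 4 + (κ / δ * B) ^ 4) * (1 / n) = (δ ^ 4 + B ^ 4) / (1 + B) ^ 4 := by
        rw [← hρ4, hκ]
        field_simp
      rw [e1, div_le_one (by positivity)]
      have h1 : δ ^ 4 ≤ 1 := pow_le_one₀ hδ.le hδ1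
      have h2 : (1 + B) ^ 4 = 1 + 4 * B + 6 * B ^ 2 + 4 * B ^ 3 + B ^ 4 := by ring
      have h3 : 0 ≤ 4 * B + 6 * B ^ 2 + 4 * B ^ 3 := by positivity
      linarith
  have hlow := lower_bound (n := n) (q := 4) (by norm_num) hmem hCm (C := C) (fun x hx => by
    have : δ ≤ x 0 := not_lt.1 hx
    simp only [hH]
    rw [hh0 _ ((one_le_div hδ).2 this), mul_zero])
    ((hHs.continuous.comp (continuous_apply 0)).aestronglyMeasurable)
    hadm.volume_ne_zero hadm.volume_ne_top
  -- the probability that no point falls near the vertex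
  have hprob := isProb_unif hadm.volume_ne_zero hadm.volume_ne_top
  have hunif : unif P C ≤ ENNReal.ofReal (1 / n) := by
    unfold unif
    rw [hvol, inv_one, one_smul, Measure.restrict_apply hCm, inter_comm]
    exact hvle
  have hunif' : ENNReal.ofReal (1 - 1 / n) ≤ unif P Cᶜ := by
    rw [prob_compl_eq_one_sub hCm, ENNReal.ofReal_sub _ (by positivity), ENNReal.ofReal_one]
    exact tsub_le_tsub_left hunif 1
  have hquarter : (1 / 4 : ℝ) ≤ (1 - 1 / n) ^ n := by
    have hs : (-1 : ℝ) ≤ -(1 / n) := by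
      have : 1 / (n : ℝ) ≤ 1 := by rw [div_le_one hn0]; linarith
      linarith
    have h1 := one_add_mul_self_le_rpow_one_add hs (p := (n : ℝ) / 2) (by linarith)
    have h2 : 1 + (n : ℝ) / 2 * -(1 / n) = 1 / 2 := by
      field_simp
      norm_num
    rw [h2] at h1
    have h0 : (0 : ℝ) ≤ 1 + -(1 / n) := by linarith
    have h3 : ((1 + -(1 / (n : ℝ))) ^ ((n : ℝ) / 2)) ^ 2 = (1 - 1 / n) ^ n := by
      rw [← Real.rpow_natCast, ← Real.rpow_mul h0, ← Real.rpow_natCast, ← sub_eq_add_neg]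
      congr 1
      push_cast
      ring
    rw [← h3]
    calc (1 / 4 : ℝ) = (1 / 2) ^ 2 := by norm_num
      _ ≤ _ := pow_le_pow_left₀ (by norm_num) h1 2
  -- the norm
  have hnorm : ENNReal.ofReal (κ / (2 * ρ)) ≤ eLpNorm (fun x : Fin 2 → ℝ => H (x 0)) 4
      (volume.restrict P) := by
    set S : Set (Fin 2 → ℝ) := Set.univ.pi fun i : Fin 2 =>
      Ioo (![δ / 4, 0] i : ℝ) (![δ / 2, δ / (4 * L ^ 2)] i) with hS
    have hSm : MeasurableSet S := MeasurableSet.univ_pi fun _ => measurableSet_Ioo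
    have hSv : volume S = ENNReal.ofReal ((16 * ρ ^ 4)⁻¹) := by
      rw [hS, Real.volume_pi_Ioo, Fin.prod_univ_two]
      simp only [sub_zero, Matrix.cons_val_zero, Matrix.cons_val_one]
      rw [← ENNReal.ofReal_mul (by linarith)]
      congr 1
      calc (δ / 2 - δ / 4) * (δ / (4 * L ^ 2)) = δ ^ 2 / (16 * L ^ 2) := by
            field_simp
            norm_num
        _ = (16 * ρ ^ 4)⁻¹ := by rw [hδ2, hρ4]; field_simp
    have hSP : S ⊆ P := by
      intro x hx
      rw [hS, mem_univ_pi, Fin.forall_fin_two] at hx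
      simp only [Matrix.cons_val_zero, Matrix.cons_val_one, mem_Ioo] at hx
      obtain ⟨⟨q1, q2⟩, q3, q4⟩ := hx
      have e1 : L * x 1 < x 0 / L := by
        rw [lt_div_iff₀ hL0]
        rw [lt_div_iff₀ (by positivity)] at q4
        calc L * x 1 * L = x 1 * (4 * L ^ 2) / 4 := by ring
          _ < δ / 4 := by linarith
          _ < x 0 := q1
      have e2 : x 0 / L < 1 := by
        rw [div_lt_one hL0]
        linarith
      refine ⟨?_, ?_⟩
      · rw [hu]
        exact ⟨by linarith, by linarith [mul_pos hL0 q3]⟩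
      · rw [hv]
        exact ⟨mul_pos hL0 q3, by linarith⟩
    have hHS : ∀ x ∈ S, H (x 0) = κ := by
      intro x hx
      rw [hS, mem_univ_pi, Fin.forall_fin_two] at hx
      simp only [Matrix.cons_val_zero, Matrix.cons_val_one, mem_Ioo] at hx
      obtain ⟨⟨q1, q2⟩, -⟩ := hx
      have q0 : 0 < x 0 := by linarith
      simp only [hH]
      rw [hh1 _ ⟨by positivity, ?_⟩, mul_one]
      rw [div_le_iff₀ hδ]
      linarith
    have h4 : ENNReal.ofReal (κ / (2 * ρ)) ^ 4 ≤
        eLpNorm (fun x : Fin 2 → ℝ => H (x 0)) 4 (volume.restrict P) ^ 4 := by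
      rw [eLpNorm_four]
      calc ENNReal.ofReal (κ / (2 * ρ)) ^ 4 = ENNReal.ofReal (κ ^ 4) * volume S := by
            rw [hSv, ← ENNReal.ofReal_pow (by positivity), ← ENNReal.ofReal_mul (by positivity)]
            congr 1
            field_simp
            norm_num
        _ = ∫⁻ _ in S, ENNReal.ofReal (κ ^ 4) := by
            rw [lintegral_const, Measure.restrict_apply_univ]
        _ = ∫⁻ x in S, ‖H (x 0)‖ₑ ^ 4 := by
            refine setLIntegral_congr_fun hSm fun x hx => ?_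
            rw [hHS x hx, Real.enorm_eq_ofReal hκ0.le, ENNReal.ofReal_pow hκ0.le]
        _ ≤ ∫⁻ x in P, ‖H (x 0)‖ₑ ^ 4 := lintegral_mono_set hSP
    have h5 := (ENNReal.rpow_le_rpow_iff (z := 4) (by norm_num)
      (x := ENNReal.ofReal (κ / (2 * ρ)))
      (y := eLpNorm (fun x : Fin 2 → ℝ => H (x 0)) 4 (volume.restrict P))).1
    apply h5
    have e : ∀ y : ℝ≥0∞, y ^ (4 : ℝ) = y ^ 4 := fun y => by
      rw [← ENNReal.rpow_natCast]; norm_num
    rw [e, e]
    exact h4
  have hres : ENNReal.ofReal (1 / 4 * (κ / (2 * ρ))) ≤ minErr Crit.ran P 1 4 4 n := by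
    refine le_trans ?_ hlow
    rw [ENNReal.ofReal_mul (by positivity)]
    refine mul_le_mul' ?_ hnorm
    refine le_trans ?_ (pow_le_pow_left' hunif' n)
    have h1n : (0 : ℝ) ≤ 1 - 1 / n := by
      have : 1 / (n : ℝ) ≤ 1 := by rw [div_le_one hn0]; linarith
      linarith
    rw [← ENNReal.ofReal_pow h1n]
    exact ENNReal.ofReal_le_ofReal hquarter
  have hexpo : expo 2 1 4 4 = 1 / 2 := by
    unfold expo
    simp
  unfold normErr
  rw [hexpo, ← Real.sqrt_eq_rpow, ← hr]
  calc ENNReal.ofReal ((8 * (1 + B))⁻¹ * L)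
      = ENNReal.ofReal (1 / 4 * (κ / (2 * ρ))) * ENNReal.ofReal r := by
        rw [← ENNReal.ofReal_mul (by positivity)]
        congr 1
        rw [hκ, hδd]
        field_simp
        norm_num
    _ ≤ _ := mul_le_mul' hres le_rfl

end Pool.Agent.Lib.MP_961271_an
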