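import Pool.Agent.Lib.MP_961271_an.Teeth

section
/-!
The test function supported in a tooth.
-/
open MeasureTheory Set Filter Topology
open scoped ENNReal

namespace Pool.Agent.Lib.MP_961271_an

/-- The integral of a partial derivative vanishes if the function vanishes on the boundary. -/
theorem box_div {Ψ : (Fin 2 → ℝ) → ℝ} (hΨ : ContDiff ℝ ((⊤ : ℕ∞) : WithTop ℕ∞) Ψ)
    {a b : Fin 2 → ℝ} (hab : a ≤ b)
    (h0 : ∀ x ∈ Icc a b, ∀ i, x i = a i ∨ x i = b i → Ψ x = 0) (i : Fin 2) :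
    ∫ x in Icc a b, pderiv i Ψ x = 0 := by
  classical
  have hcont : Continuous (pderiv i Ψ) := by
    unfold pderiv
    exact (hΨ.continuous_fderiv (by simp)).clm_apply continuous_const
  have key := integral_divergence_of_hasFDerivAt_off_countable' a b hab
    (fun j => if j = i then Ψ else fun _ => 0)
    (fun j x => if j = i then fderiv ℝ Ψ x else 0) ∅ countable_empty
    (by
      intro j
      by_cases hj : j = i
      · simp only [hj, if_true]; exact hΨ.continuous.continuousOn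
      · simp only [hj, if_false]; exact continuousOn_const)
    (by
      intro x _ j
      by_cases hj : j = i
      · simp only [hj, if_true]; exact ((hΨ.differentiable (by simp)) x).hasFDerivAt
      · simp only [hj, if_false]; exact hasFDerivAt_const _ _)
    (by
      have e : (fun x => ∑ j, (if j = i then fderiv ℝ Ψ x else 0) (Pi.single j 1))
          = pderiv i Ψ := by
        funext x
        rw [Finset.sum_eq_single i]
        · simp [pderiv]
        · intro j _ hj; simp [hj]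
        · simp
      rw [e]
      exact hcont.continuousOn.integrableOn_compact isCompact_Icc)
  have e : (fun x => ∑ j, (if j = i then fderiv ℝ Ψ x else 0) (Pi.single j 1))
      = pderiv i Ψ := by
    funext x
    rw [Finset.sum_eq_single i]
    · simp [pderiv]
    · intro j _ hj; simp [hj]
    · simp
  rw [e] at key
  rw [key]
  refine Finset.sum_eq_zero fun j _ => ?_
  by_cases hj : j = i
  · subst hj
    simp only [if_true]
    have hface : ∀ (v : ℝ), (v = a j ∨ v = b j) → v ∈ Icc (a j) (b j) →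
        ∀ x ∈ Icc (a ∘ j.succAbove) (b ∘ j.succAbove), Ψ (j.insertNth v x) = 0 := by
      intro v hv hvI x hx
      have hmem : (j.insertNth v x : Fin 2 → ℝ) ∈ Icc a b := by
        rw [Fin.insertNth_mem_Icc]
        exact ⟨hvI, hx⟩
      refine h0 _ hmem j ?_
      rw [Fin.insertNth_apply_same]
      exact hv
    rw [setIntegral_eq_zero_of_forall_eq_zero, setIntegral_eq_zero_of_forall_eq_zero, sub_zero]
    · exact fun x hx => hface (a j) (Or.inl rfl) (left_mem_Icc.2 (hab j)) x hx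
    · exact fun x hx => hface (b j) (Or.inr rfl) (right_mem_Icc.2 (hab j)) x hx
  · simp [hj]

/-- Lower and upper corners of the tooth. -/
noncomputable def lo (k : ℕ) : Fin 2 → ℝ := ![-Lk k, 1 / 4 + Lk k]
/-- Lower and upper corners of the tooth. -/
noncomputable def up (m k : ℕ) : Fin 2 → ℝ := ![0, 1 / 4 + Lk k + Lk k / m]

/-- The part of the tooth outside the square. -/
def Rk (m k : ℕ) : Set (Fin 2 → ℝ) := Set.univ.pi fun i => Ioo (lo k i) (up m k i)

theorem mem_Rk {m k : ℕ} {x : Fin 2 → ℝ} : x ∈ Rk m k ↔ (-Lk k < x 0 ∧ x 0 < 0) ∧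
    1 / 4 + Lk k < x 1 ∧ x 1 < 1 / 4 + Lk k + Lk k / m := by
  unfold Rk lo up
  simp [Fin.forall_fin_two]

theorem Rk_open (m k : ℕ) : IsOpen (Rk m k) := isOpen_set_pi finite_univ fun _ _ => isOpen_Ioo

theorem Rk_subset_tooth (m k : ℕ) : Rk m k ⊆ Tooth m k := by
  intro x hx
  rw [mem_Rk] at hx
  exact ⟨⟨hx.1.1, by linarith [hx.1.2]⟩, hx.2⟩

theorem Rk_subset (m k : ℕ) : Rk m k ⊆ Dom m := fun _ hx =>
  Or.inr (mem_iUnion.2 ⟨k, Rk_subset_tooth m k hx⟩)

theorem volume_Rk {m k : ℕ} (hm : 1 ≤ m) :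
    volume (Rk m k) = ENNReal.ofReal (Lk k ^ 2 / m) := by
  have hm' : (1 : ℝ) ≤ m := by exact_mod_cast hm
  have hL := Lk_pos k
  unfold Rk lo up
  rw [Real.volume_pi_Ioo, Fin.prod_univ_two]
  simp only [Matrix.cons_val_zero, Matrix.cons_val_one]
  rw [← ENNReal.ofReal_mul (by linarith)]
  congr 1
  ring

/-- The closed box is contained in the domain up to the faces where test functions vanish. -/
theorem face_notMem {m k : ℕ} (hm : 1 ≤ m) {x : Fin 2 → ℝ} (hx : x ∈ Icc (lo k) (up m k))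
    (hx0 : x 0 < 0) (hf : x 0 = lo k 0 ∨ x 1 = lo k 1 ∨ x 1 = up m k 1) : x ∉ Dom m := by
  intro hD
  have hx1 : lo k 1 ≤ x 1 ∧ x 1 ≤ up m k 1 := ⟨hx.1 1, hx.2 1⟩
  have e0 : lo k 0 = -Lk k := rfl
  have e1 : lo k 1 = 1 / 4 + Lk k := rfl
  have e2 : up m k 1 = 1 / 4 + Lk k + Lk k / m := rfl
  rw [e0, e1, e2] at hf
  rw [e1, e2] at hx1
  rcases dom_cases hm hD with h | ⟨-, l, hl⟩
  · rw [mem_sq01] at h
    linarith [h.1.1]
  · have hkl : k = l := height_unique hm hx1.1 hx1.2 hl.2.1.le hl.2.2.le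
    subst hkl
    rcases hf with h | h | h
    · linarith [hl.1.1]
    · linarith [hl.2.1]
    · linarith [hl.2.2]

/-- Integration by parts in the tooth. -/
theorem tooth_parts {m k : ℕ} (hm : 1 ≤ m) {φ : (Fin 2 → ℝ) → ℝ} (hφ : IsTest (Dom m) φ)
    (i : Fin 2) : ∫ x in Icc (lo k) (up m k), pderiv i (fun x => x 0 * φ x) x = 0 := by
  have hm' : (1 : ℝ) ≤ m := by exact_mod_cast hm
  have hL := Lk_pos k
  refine box_div ((contDiff_apply ℝ ℝ (0 : Fin 2)).mul hφ.1) ?_ ?_ i
  · intro j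
    fin_cases j
    · show -Lk k ≤ 0
      linarith
    · show 1 / 4 + Lk k ≤ 1 / 4 + Lk k + Lk k / m
      have : 0 ≤ Lk k / m := by positivity
      linarith
  · intro x hx j hj
    have hx0 : x 0 ≤ 0 := hx.2 0
    rcases hx0.eq_or_lt with h0 | h0
    · rw [h0, zero_mul]
    · have hn : x ∉ Dom m := by
        apply face_notMem hm hx h0
        fin_cases j
        · rcases hj with hj | hj
          · exact Or.inl hj
          · have : x 0 = 0 := hj
            linarith
        · rcases hj with hj | hj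
          · exact Or.inr (Or.inl hj)
          · exact Or.inr (Or.inr hj)
      have : φ x = 0 := image_eq_zero_of_notMem_tsupport fun h => hn (hφ.2.2 h)
      rw [this, mul_zero]

/-- The test function. -/
noncomputable def fk (m k : ℕ) : (Fin 2 → ℝ) → ℝ := (Rk m k).indicator fun x => - x 0

/-- Its weak derivatives. -/
noncomputable def gk (m k : ℕ) : Fin 2 → (Fin 2 → ℝ) → ℝ :=
  ![(Rk m k).indicator fun _ => -1, fun _ => 0]

theorem ae_eq_box (m k : ℕ) : (Rk m k : Set (Fin 2 → ℝ)) =ᵐ[volume] Icc (lo k) (up m k) := by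
  unfold Rk
  exact Measure.univ_pi_Ioo_ae_eq_Icc

theorem fk_continuousOn {m k : ℕ} (hm : 1 ≤ m) : ContinuousOn (fk m k) (Dom m) := by
  classical
  intro x hx
  apply ContinuousAt.continuousWithinAt
  rcases hx with hx | hx
  · -- in the square
    have h : fk m k =ᶠ[𝓝 x] fun _ => 0 := by
      filter_upwards [(sq_open 0 1).mem_nhds hx] with y hy
      refine indicator_of_notMem (fun hy' => ?_) _
      rw [mem_Rk] at hy'
      rw [mem_sq01] at hy
      linarith [hy.1.1, hy'.1.2]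
    exact (continuousAt_const).congr h.symm
  · obtain ⟨l, hl⟩ := mem_iUnion.1 hx
    by_cases hkl : l = k
    · subst hkl
      have h : fk m l =ᶠ[𝓝 x] fun y => max (- y 0) 0 := by
        filter_upwards [(tooth_open m l).mem_nhds hl] with y hy
        by_cases hy0 : y 0 < 0
        · have hyR : y ∈ Rk m l := by rw [mem_Rk]; exact ⟨⟨hy.1.1, hy0⟩, hy.2⟩
          unfold fk
          rw [indicator_of_mem hyR, max_eq_left (by linarith)]
        · have hyR : y ∉ Rk m l := by rw [mem_Rk]; exact fun h => hy0 h.1.2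
          unfold fk
          rw [indicator_of_notMem hyR, max_eq_right (by linarith [not_lt.1 hy0])]
      refine ContinuousAt.congr ?_ h.symm
      have hc : Continuous (fun y : Fin 2 → ℝ => max (- y 0) 0) :=
        ((continuous_apply 0).neg).max continuous_const
      exact hc.continuousAt
    · have h : fk m k =ᶠ[𝓝 x] fun _ => 0 := by
        filter_upwards [(tooth_open m l).mem_nhds hl] with y hy
        refine indicator_of_notMem (fun hy' => hkl ?_) _
        rw [mem_Rk] at hy'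
        exact height_unique hm hy.2.1.le hy.2.2.le hy'.2.1.le hy'.2.2.le
      exact (continuousAt_const).congr h.symm

theorem fk_weak {m k : ℕ} (hm : 1 ≤ m) (i : Fin 2) :
    Weak1 (Dom m) i (fk m k) (gk m k i) := by
  intro φ hφ
  have hRm : MeasurableSet (Rk m k) := (Rk_open m k).measurableSet
  have hred : ∀ (u v : (Fin 2 → ℝ) → ℝ), ∫ x in Dom m, (Rk m k).indicator u x * v x
      = ∫ x in Icc (lo k) (up m k), u x * v x := by
    intro u v
    have e : (fun x => (Rk m k).indicator u x * v x) = (Rk m k).indicator fun x => u x * v x := by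
      funext x
      by_cases hx : x ∈ Rk m k
      · rw [indicator_of_mem hx, indicator_of_mem hx]
      · rw [indicator_of_notMem hx, indicator_of_notMem hx, zero_mul]
    rw [e, setIntegral_indicator hRm, inter_eq_self_of_subset_right (Rk_subset m k)]
    exact setIntegral_congr_set (ae_eq_box m k)
  have hφc : Continuous φ := hφ.1.continuous
  have hdc : ∀ i, Continuous (pderiv i φ) := fun i => by
    unfold pderiv
    exact (hφ.1.continuous_fderiv (by simp)).clm_apply continuous_const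
  have h0c : Continuous (fun x : Fin 2 → ℝ => x 0) := continuous_apply 0
  have hprod : ∀ x, pderiv i (fun x => x 0 * φ x) x
      = x 0 * pderiv i φ x + (if i = 0 then φ x else 0) := by
    intro x
    unfold pderiv
    have hd : HasFDerivAt φ (fderiv ℝ φ x) x := ((hφ.1.differentiable (by simp)) x).hasFDerivAt
    have hg : HasFDerivAt (fun y : Fin 2 → ℝ => y 0)
        (ContinuousLinearMap.proj (R := ℝ) (φ := fun _ : Fin 2 => ℝ) 0) x := hasFDerivAt_apply 0 x
    have h := hg.mul hd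
    have h' : fderiv ℝ (fun y : Fin 2 → ℝ => y 0 * φ y) x = _ := h.fderiv
    rw [h']
    fin_cases i <;> simp
  have hI := tooth_parts (k := k) hm hφ i
  simp only [hprod] at hI
  have hint1 : IntegrableOn (fun x => x 0 * pderiv i φ x) (Icc (lo k) (up m k)) :=
    (h0c.mul (hdc i)).continuousOn.integrableOn_compact isCompact_Icc
  have hint2 : IntegrableOn (fun x => if i = 0 then φ x else 0) (Icc (lo k) (up m k)) := by
    by_cases hi : i = 0
    · simp only [hi, if_true]
      exact hφc.continuousOn.integrableOn_compact isCompact_Icc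
    · simp only [hi, if_false]
      exact integrableOn_zero
  rw [integral_add hint1 hint2] at hI
  unfold fk
  rw [hred]
  simp only [neg_mul]
  rw [integral_neg]
  congr 1
  fin_cases i
  · simp only [gk, Fin.zero_eta, Matrix.cons_val_zero] at hI ⊢
    rw [hred]
    simp only [if_true, neg_mul, one_mul] at hI ⊢
    rw [integral_neg]
    linarith
  · simp only [gk, Fin.mk_one, Matrix.cons_val_one] at hI ⊢
    simp at hI ⊢
    exact hI

end Pool.Agent.Lib.MP_961271_an
end

section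
/-!
The lower bound at the scale of a tooth.
-/
open MeasureTheory Set Filter Topology
open scoped ENNReal

namespace Pool.Agent.Lib.MP_961271_an

/-- Upper bound for the norms of the test function and its derivatives. -/
theorem lintegral_indicator_le {m k : ℕ} (hm : 1 ≤ m) (u : (Fin 2 → ℝ) → ℝ)
    (hu : ∀ x ∈ Rk m k, |u x| ≤ 1) :
    ∫⁻ x in Dom m, ‖(Rk m k).indicator u x‖ₑ ^ 4 ≤ ENNReal.ofReal (Lk k ^ 2 / m) := by
  have hRm : MeasurableSet (Rk m k) := (Rk_open m k).measurableSet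
  calc ∫⁻ x in Dom m, ‖(Rk m k).indicator u x‖ₑ ^ 4
      ≤ ∫⁻ x in Dom m, (Rk m k).indicator (fun _ => (1 : ℝ≥0∞)) x := by
        refine lintegral_mono fun x => ?_
        by_cases hx : x ∈ Rk m k
        · rw [indicator_of_mem hx, indicator_of_mem hx, Real.enorm_eq_ofReal_abs]
          refine pow_le_one₀ zero_le ?_
          exact ENNReal.ofReal_le_one.2 (hu x hx)
        · rw [indicator_of_notMem hx, indicator_of_notMem hx]
          simp
    _ = volume.restrict (Dom m) (Rk m k) := by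
        rw [lintegral_indicator_const hRm, one_mul]
    _ ≤ volume (Rk m k) := Measure.restrict_apply_le _ _
    _ = _ := volume_Rk hm

/-- Lower bound for the norm of the test function. -/
theorem fk_norm_lower {m k : ℕ} (hm : 1 ≤ m) :
    ENNReal.ofReal (Lk k ^ 6 / (32 * m)) ≤ ∫⁻ x in Dom m, ‖fk m k x‖ₑ ^ 4 := by
  have hL := Lk_pos k
  have hm' : (1 : ℝ) ≤ m := by exact_mod_cast hm
  -- the left half of the tooth
  set H : Set (Fin 2 → ℝ) := Set.univ.pi fun i => Ioo ((lo k) i)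
    ((![-(Lk k / 2), 1 / 4 + Lk k + Lk k / m] : Fin 2 → ℝ) i) with hH
  have hHo : IsOpen H := isOpen_set_pi finite_univ fun _ _ => isOpen_Ioo
  have hHmem : ∀ x ∈ H, x ∈ Rk m k ∧ x 0 < -(Lk k / 2) := by
    intro x hx
    have h0 := hx 0 (mem_univ 0)
    have h1 := hx 1 (mem_univ 1)
    simp only [lo, Matrix.cons_val_zero, Matrix.cons_val_one, mem_Ioo] at h0 h1
    rw [mem_Rk]
    exact ⟨⟨⟨h0.1, by linarith [h0.2]⟩, h1⟩, h0.2⟩
  have hHD : H ⊆ Dom m := fun x hx => Rk_subset m k (hHmem x hx).1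
  have hHvol : volume H = ENNReal.ofReal (Lk k / 2 * (Lk k / m)) := by
    rw [hH, Real.volume_pi_Ioo, Fin.prod_univ_two]
    simp only [lo, Matrix.cons_val_zero, Matrix.cons_val_one]
    rw [← ENNReal.ofReal_mul (by linarith)]
    congr 1
    ring
  calc ENNReal.ofReal (Lk k ^ 6 / (32 * m))
      = ENNReal.ofReal ((Lk k / 2) ^ 4) * volume H := by
        rw [hHvol, ← ENNReal.ofReal_mul (by positivity)]
        congr 1
        field_simp
        ring
    _ = ∫⁻ _ in H, ENNReal.ofReal ((Lk k / 2) ^ 4) := by rw [setLIntegral_const]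
    _ ≤ ∫⁻ x in H, ‖fk m k x‖ₑ ^ 4 := by
        refine setLIntegral_mono' hHo.measurableSet fun x hx => ?_
        obtain ⟨h1, h2⟩ := hHmem x hx
        unfold fk
        rw [indicator_of_mem h1, Real.enorm_eq_ofReal_abs, ← ENNReal.ofReal_pow (abs_nonneg _)]
        apply ENNReal.ofReal_le_ofReal
        refine pow_le_pow_left₀ (by positivity) ?_ 4
        rw [abs_of_pos (by linarith)]
        linarith
    _ ≤ _ := lintegral_mono_set hHD

/-- The normalised test function belongs to the unit ball. -/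
theorem fk_unitBall {m k : ℕ} (hm : 1 ≤ m) {c : ℝ} (hc : 0 ≤ c)
    (hc4 : c ^ 4 * (2 * (Lk k ^ 2 / m)) ≤ 1) :
    (fun x => c * fk m k x) ∈ UnitBall (Dom m) 1 4 := by
  classical
  have hL := Lk_pos k
  have hL4 := Lk_le k
  have hm' : (1 : ℝ) ≤ m := by exact_mod_cast hm
  have hRm : MeasurableSet (Rk m k) := (Rk_open m k).measurableSet
  have hDt : volume (Dom m) ≠ ⊤ := ((dom_volume_le hm).trans_lt (by norm_num)).ne
  have hfin : IsFiniteMeasure (volume.restrict (Dom m)) := ⟨by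
    rw [Measure.restrict_apply_univ]; exact lt_top_iff_ne_top.2 hDt⟩
  let gg : (Fin 2 → ℕ) → (Fin 2 → ℝ) → ℝ := fun α =>
    if α = 0 then fun x => c * fk m k x
    else if α = ![1, 0] then fun x => c * (Rk m k).indicator (fun _ => -1) x
    else fun _ => 0
  have gg00 : gg ![0, 0] = fun x => c * fk m k x := if_pos (by ext i; fin_cases i <;> rfl)
  have gg10 : gg ![1, 0] = fun x => c * (Rk m k).indicator (fun _ => -1) x := by
    simp only [gg]
    rw [if_neg (by intro h; have := congrFun h 0; simp at this)]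
    simp
  have gg01 : gg ![0, 1] = fun _ => 0 := by
    simp only [gg]
    rw [if_neg (by intro h; have := congrFun h 1; simp at this),
      if_neg (by intro h; have := congrFun h 0; simp at this)]
  have hbd : ∀ (u : (Fin 2 → ℝ) → ℝ), Measurable u → (∀ x ∈ Rk m k, |u x| ≤ 1) →
      MemLp (fun x => c * (Rk m k).indicator u x) 4 (volume.restrict (Dom m)) ∧
      eLpNorm (fun x => c * (Rk m k).indicator u x) 4 (volume.restrict (Dom m)) ^ 4 ≤
        ENNReal.ofReal (c ^ 4 * (Lk k ^ 2 / m)) := by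
    intro u hum hu
    constructor
    · refine MemLp.of_bound (C := c) ((hum.indicator hRm).const_mul c).aestronglyMeasurable
        (Eventually.of_forall fun x => ?_)
      rw [Real.norm_eq_abs, abs_mul, abs_of_nonneg hc]
      by_cases hx : x ∈ Rk m k
      · rw [indicator_of_mem hx]
        exact mul_le_of_le_one_right hc (hu x hx)
      · rw [indicator_of_notMem hx, abs_zero, mul_zero]
        exact hc
    · rw [eLpNorm_four]
      have e : ∀ x, ‖c * (Rk m k).indicator u x‖ₑ ^ 4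
          = ENNReal.ofReal (c ^ 4) * ‖(Rk m k).indicator u x‖ₑ ^ 4 := by
        intro x
        rw [enorm_mul, mul_pow, Real.enorm_eq_ofReal hc, ENNReal.ofReal_pow hc]
      simp only [e]
      rw [lintegral_const_mul _ ((hum.indicator hRm).enorm.pow_const 4),
        ENNReal.ofReal_mul (by positivity)]
      exact mul_le_mul' le_rfl (lintegral_indicator_le hm u hu)
  have hu0 : ∀ x ∈ Rk m k, |(fun x : Fin 2 → ℝ => - x 0) x| ≤ 1 := by
    intro x hx
    rw [mem_Rk] at hx
    simp only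
    rw [abs_le]
    constructor <;> linarith [hx.1.1, hx.1.2]
  have hu1 : ∀ x ∈ Rk m k, |(fun _ : Fin 2 → ℝ => (-1 : ℝ)) x| ≤ 1 := by
    intro x _
    simp
  have b0 := hbd (fun x => - x 0) (measurable_pi_apply 0).neg hu0
  have b1 := hbd (fun _ => -1) measurable_const hu1
  have hscale : ∀ (i : Fin 2) (g : (Fin 2 → ℝ) → ℝ), Weak1 (Dom m) i (fk m k) g →
      Weak1 (Dom m) i (fun x => c * fk m k x) (fun x => c * g x) := by
    intro i g hg φ hφ
    have := hg φ hφ
    simp only [mul_assoc]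
    rw [integral_const_mul, integral_const_mul, this]
    ring
  refine ⟨(fk_continuousOn hm).const_smul c |>.congr (fun x _ => rfl), gg, ?_, ?_, ?_⟩
  · simp only [gg, if_true]
  · intro α hα
    rw [multiIdx_21] at hα
    simp only [Finset.mem_insert, Finset.mem_singleton] at hα
    rcases hα with rfl | rfl | rfl
    · rw [gg00]
      refine ⟨b0.1, fun φ _ => ?_⟩
      have e : mderiv (![0, 0] : Fin 2 → ℕ) φ = φ := rfl
      rw [e]
      simp
    · rw [gg10]
      refine ⟨b1.1, fun φ hφ => ?_⟩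
      rw [mderiv_10]
      have := hscale 0 _ (fk_weak (k := k) hm 0) φ hφ
      rw [this]
      simp [gk]
    · rw [gg01]
      refine ⟨MemLp.zero, fun φ hφ => ?_⟩
      rw [mderiv_01]
      have := hscale 1 _ (fk_weak (k := k) hm 1) φ hφ
      rw [this]
      simp [gk]
  · unfold sobNorm
    rw [if_neg (by norm_num)]
    have h4 : ((4 : ℝ≥0∞)).toReal = 4 := by norm_num
    rw [h4, multiIdx_21, Finset.sum_insert (by decide), Finset.sum_insert (by decide),
      Finset.sum_singleton, gg00, gg10, gg01]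
    have h6 : ∀ u : ℝ≥0∞, u ^ (4 : ℝ) = u ^ 4 := fun u => by
      rw [← ENNReal.rpow_natCast]; norm_num
    simp only [h6]
    have hz : eLpNorm (fun _ : Fin 2 → ℝ => (0 : ℝ)) 4 (volume.restrict (Dom m)) = 0 :=
      eLpNorm_zero
    rw [hz]
    apply ENNReal.rpow_le_one _ (by norm_num)
    calc eLpNorm (fun x => c * fk m k x) 4 (volume.restrict (Dom m)) ^ 4
        + (eLpNorm (fun x => c * (Rk m k).indicator (fun _ => -1) x) 4
          (volume.restrict (Dom m)) ^ 4 + 0 ^ 4)
        ≤ ENNReal.ofReal (c ^ 4 * (Lk k ^ 2 / m)) + (ENNReal.ofReal (c ^ 4 * (Lk k ^ 2 / m)) + 0) :=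
          add_le_add b0.2 (add_le_add b1.2 (by simp))
      _ = ENNReal.ofReal (c ^ 4 * (2 * (Lk k ^ 2 / m))) := by
          rw [add_zero, ← ENNReal.ofReal_add (by positivity) (by positivity)]
          congr 1
          ring
      _ ≤ 1 := ENNReal.ofReal_le_one.2 hc4

/-- The lower bound when the number of points is adapted to a tooth. -/
theorem tooth_lower {m k : ℕ} (hm : 1 ≤ m) {h : ℕ} (hh : 1 ≤ h)
    (hn : ((2 * h : ℕ) : ℝ) = m / Lk k ^ 2) :
    ENNReal.ofReal (Lk k / 12) ≤ minErr Crit.ran (Dom m) 1 4 4 (2 * h) := by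
  have hL := Lk_pos k
  have hm' : (1 : ℝ) ≤ m := by exact_mod_cast hm
  have hm0 : (0 : ℝ) < m := by linarith
  have hh0 : (0 : ℝ) < h := by exact_mod_cast hh
  have hn' : (2 : ℝ) * h = m / Lk k ^ 2 := by rw [← hn]; push_cast; ring
  have hDt : volume (Dom m) ≠ ⊤ := ((dom_volume_le hm).trans_lt (by norm_num)).ne
  have hD0 : volume (Dom m) ≠ 0 := (zero_lt_one.trans_le (one_le_dom_volume m)).ne'
  have hprob := isProb_unif hD0 hDt
  have hRm : MeasurableSet (Rk m k) := (Rk_open m k).measurableSet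
  -- the normalising constant
  set v : ℝ := 2 * (Lk k ^ 2 / m) with hv
  have hv0 : 0 < v := by positivity
  set c : ℝ := (v⁻¹) ^ (1 / 4 : ℝ) with hc
  have hc0 : 0 ≤ c := by positivity
  have hc4 : c ^ 4 = v⁻¹ := by
    rw [hc, ← Real.rpow_natCast, ← Real.rpow_mul (by positivity)]
    norm_num
  have hball : (fun x => c * fk m k x) ∈ UnitBall (Dom m) 1 4 := by
    apply fk_unitBall hm hc0
    rw [hc4]
    exact (inv_mul_cancel₀ hv0.ne').le
  have hmeas : Measurable (fun x => c * fk m k x) :=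
    (((measurable_pi_apply 0).neg).indicator hRm).const_mul c
  have key := lower_bound (n := 2 * h) (q := 4) (by norm_num) hball hRm
    (fun x hx => by unfold fk; rw [indicator_of_notMem hx, mul_zero])
    hmeas.aestronglyMeasurable hD0 hDt
  refine le_trans ?_ key
  -- the probability
  have hp : ENNReal.ofReal (1 - 1 / (2 * h)) ≤ unif (Dom m) (Rk m k)ᶜ := by
    rw [prob_compl_eq_one_sub hRm]
    have h1 : unif (Dom m) (Rk m k) ≤ ENNReal.ofReal (1 / (2 * h)) := by
      unfold unif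
      rw [Measure.smul_apply, smul_eq_mul]
      calc (volume (Dom m))⁻¹ * volume.restrict (Dom m) (Rk m k)
          ≤ 1 * volume (Rk m k) := by
            refine mul_le_mul' ?_ (Measure.restrict_apply_le _ _)
            rw [ENNReal.inv_le_one]
            exact one_le_dom_volume m
        _ = ENNReal.ofReal (1 / (2 * h)) := by
            rw [one_mul, volume_Rk hm, hn']
            congr 1
            rw [one_div_div]
    rw [ENNReal.ofReal_sub _ (by positivity), ENNReal.ofReal_one]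
    exact tsub_le_tsub_left h1 1
  have hp2 : ENNReal.ofReal (1 / 4) ≤ unif (Dom m) (Rk m k)ᶜ ^ (2 * h) := by
    have h1h : 1 / (2 * (h : ℝ)) ≤ 1 / 2 := by
      apply one_div_le_one_div_of_le (by norm_num)
      have : (1 : ℝ) ≤ h := by exact_mod_cast hh
      linarith
    have hb : (1 : ℝ) / 2 ≤ (1 - 1 / (2 * h)) ^ h := by
      have := one_add_mul_le_pow (a := -(1 / (2 * (h : ℝ)))) (by linarith) h
      have e : 1 + (h : ℝ) * -(1 / (2 * h)) = 1 / 2 := by field_simp; norm_num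
      rw [e] at this
      rwa [← sub_eq_add_neg] at this
    calc ENNReal.ofReal (1 / 4) ≤ ENNReal.ofReal ((1 - 1 / (2 * (h : ℝ))) ^ (2 * h)) := by
          apply ENNReal.ofReal_le_ofReal
          rw [mul_comm 2 h, pow_mul]
          calc (1 : ℝ) / 4 = (1 / 2) ^ 2 := by norm_num
            _ ≤ _ := pow_le_pow_left₀ (by norm_num) hb 2
      _ = ENNReal.ofReal (1 - 1 / (2 * (h : ℝ))) ^ (2 * h) :=
          ENNReal.ofReal_pow (by linarith) _
      _ ≤ _ := pow_le_pow_left' hp _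
  -- the norm
  have hnorm : ENNReal.ofReal (Lk k / 3) ≤
      eLpNorm (fun x => c * fk m k x) 4 (volume.restrict (Dom m)) := by
    have h1 : ENNReal.ofReal (Lk k / 3) ^ 4 ≤
        eLpNorm (fun x => c * fk m k x) 4 (volume.restrict (Dom m)) ^ 4 := by
      rw [eLpNorm_four]
      have e : ∀ x, ‖c * fk m k x‖ₑ ^ 4 = ENNReal.ofReal (c ^ 4) * ‖fk m k x‖ₑ ^ 4 := by
        intro x
        rw [enorm_mul, mul_pow, Real.enorm_eq_ofReal hc0, ENNReal.ofReal_pow hc0]
      simp only [e]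
      have hfm : Measurable (fk m k) := ((measurable_pi_apply 0).neg).indicator hRm
      rw [lintegral_const_mul _ (hfm.enorm.pow_const 4), hc4]
      calc ENNReal.ofReal (Lk k / 3) ^ 4 ≤ ENNReal.ofReal (v⁻¹) * ENNReal.ofReal (Lk k ^ 6 / (32 * m)) := by
            rw [← ENNReal.ofReal_mul (by positivity), ← ENNReal.ofReal_pow (by positivity)]
            apply ENNReal.ofReal_le_ofReal
            have e2 : v⁻¹ * (Lk k ^ 6 / (32 * m)) = Lk k ^ 4 / 64 := by
              rw [hv]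
              field_simp
              norm_num
            rw [e2]
            have : (Lk k / 3) ^ 4 = Lk k ^ 4 / 81 := by ring
            rw [this]
            apply div_le_div_of_nonneg_left (by positivity) (by norm_num) (by norm_num)
        _ ≤ _ := mul_le_mul' le_rfl (fk_norm_lower hm)
    by_contra hcon
    rw [not_le] at hcon
    exact absurd h1 (not_le.2 (ENNReal.pow_lt_pow_left (by norm_num) hcon))
  calc ENNReal.ofReal (Lk k / 12) = ENNReal.ofReal (1 / 4) * ENNReal.ofReal (Lk k / 3) := by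
        rw [← ENNReal.ofReal_mul (by norm_num)]
        congr 1
        ring
    _ ≤ _ := mul_le_mul' hp2 hnorm

end Pool.Agent.Lib.MP_961271_an
end

section
/-!
The upper bound for domains which are almost a finite union of squares.
-/
open MeasureTheory Set Filter Topology
open scoped ENNReal

namespace Pool.Agent.Lib.MP_961271_an

theorem lintegral_root_le {Ω : Type} [MeasurableSpace Ω] {μ : Measure Ω} [IsProbabilityMeasure μ]
    {h : Ω → ℝ≥0∞} (hh : Measurable h) :
    ∫⁻ ω, (h ω) ^ (1 / 4 : ℝ) ∂μ ≤ (∫⁻ ω, h ω ∂μ) ^ (1 / 4 : ℝ) := by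
  have hpq : (4 : ℝ).HolderConjugate (4 / 3) := by
    rw [Real.holderConjugate_iff]
    norm_num
  have h1 := ENNReal.lintegral_mul_le_Lp_mul_Lq μ hpq
    (f := fun ω => (h ω) ^ (1 / 4 : ℝ)) (g := fun _ => 1) (hh.pow_const _).aemeasurable
    aemeasurable_const
  simp only [Pi.mul_apply, mul_one, ENNReal.one_rpow, lintegral_const, measure_univ] at h1
  refine h1.trans (le_of_eq ?_)
  congr 1
  refine lintegral_congr fun ω => ?_
  rw [← ENNReal.rpow_mul]
  norm_num

open Classical in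
theorem upper_main : ∃ C₀ : ℝ, 0 < C₀ ∧ ∀ (D : Set (Fin 2 → ℝ)), IsOpen D → volume D ≠ 0 →
    volume D ≤ 2 → ∀ (K : ℝ), 0 ≤ K → (∀ f ∈ UnitBall D 1 4, ∀ z ∈ D, |f z| ≤ K) →
    ∀ (ι : Type) [Fintype ι] (c : ι → Fin 2 → ℝ) (s : ι → ℝ), (∀ i, 0 < s i) →
    (∀ i, Sq (c i) (s i) ⊆ D) → Pairwise (fun i j => Disjoint (Sq (c i) (s i)) (Sq (c j) (s j))) →
    ∀ n : ℕ, 1 ≤ n → (∀ i, 1 ≤ n * (s i) ^ 2) →
    (∀ i, Real.exp (-(n * (s i) ^ 2 / 2)) ≤ 1 / (n : ℝ) ^ 2) →
    ENNReal.ofReal (K ^ 4) * volume (D \ ⋃ i, Sq (c i) (s i)) ≤ ENNReal.ofReal (1 / (n : ℝ) ^ 2) →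
    minErr Crit.ran D 1 4 4 n ≤ ENNReal.ofReal (C₀ / (n : ℝ) ^ 2) ^ (1 / 4 : ℝ) := by
  obtain ⟨C, hC, hosc⟩ := sq_osc
  refine ⟨1040 * C + 2, by positivity, ?_⟩
  intro D hDo h0 h2 K hK0 hK ι _ c s hs hsub hdisj n hn hn1 hexp hrest
  have hn0 : (0 : ℝ) < n := by exact_mod_cast hn
  have ht : volume D ≠ ⊤ := (h2.trans_lt (by norm_num)).ne
  have hprob := isProb_unif h0 ht
  have hfin : IsFiniteMeasure (volume.restrict D) := ⟨by
    rw [Measure.restrict_apply_univ]; exact lt_top_iff_ne_top.2 ht⟩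
  have hlev : ∀ i, ∃ J : ℕ, (4 : ℝ) ^ J ≤ n * (s i) ^ 2 ∧ n * (s i) ^ 2 < (4 : ℝ) ^ (J + 1) :=
    fun i => exists_nat_pow_near (hn1 i) (by norm_num)
  choose J hJ1 hJ2 using hlev
  have halg := fun i => sq_alg (hs i) h0 h2 (hsub i) n (J i)
  choose Φ hΦm hΦb hΦ using halg
  -- the algorithm
  let Ψ : (Fin n → Fin 2 → ℝ) → (Fin n → ℝ) → (Fin 2 → ℝ) → ℝ := fun ω y z =>
    ∑ i, (Sq (c i) (s i)).indicator (Φ i ω y) z
  have hΨm : ∀ ω y, Measurable (Ψ ω y) := fun ω y =>
    Finset.measurable_fun_sum _ fun i _ => (hΦm i ω y).indicator (sq_open _ _).measurableSet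
  have hΨb : ∀ ω y z, |Ψ ω y z| ≤ ∑ _i : ι, ∑ k, |y k| := by
    intro ω y z
    refine (Finset.abs_sum_le_sum_abs _ _).trans (Finset.sum_le_sum fun i _ => ?_)
    by_cases hz : z ∈ Sq (c i) (s i)
    · rw [indicator_of_mem hz]; exact hΦb i ω y z
    · rw [indicator_of_notMem hz, abs_zero]; exact Finset.sum_nonneg fun _ _ => abs_nonneg _
  have hΨeq : ∀ ω y i z, z ∈ Sq (c i) (s i) → Ψ ω y z = Φ i ω y z := by
    intro ω y i z hz
    simp only [Ψ]
    rw [Finset.sum_eq_single i]
    · exact indicator_of_mem hz _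
    · intro j _ hj
      refine indicator_of_notMem (fun hz' => ?_) _
      exact Set.disjoint_left.1 (hdisj hj) hz' hz
    · simp
  have hΨ0 : ∀ ω y z, z ∉ ⋃ i, Sq (c i) (s i) → Ψ ω y z = 0 := by
    intro ω y z hz
    simp only [Ψ]
    refine Finset.sum_eq_zero fun i _ => indicator_of_notMem (fun hz' => hz ?_) _
    exact mem_iUnion.2 ⟨i, hz'⟩
  let A : Alg D 4 n :=
    { Ω := Fin n → Fin 2 → ℝ
      mΩ := inferInstance
      μ := Measure.pi (fun _ : Fin n => unif D)
      hμ := inferInstance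
      X := id
      hX := measurable_id
      law := Measure.map_id
      Φ := Ψ
      hΦ := fun ω y => MemLp.of_bound (hΨm ω y).aestronglyMeasurable (∑ _i : ι, ∑ k, |y k|)
        (Eventually.of_forall fun z => by rw [Real.norm_eq_abs]; exact hΨb ω y z) }
  unfold minErr
  refine (iInf_le _ A).trans ?_
  show (⨆ f ∈ UnitBall D 1 4, upperInt (Measure.pi (fun _ : Fin n => unif D))
      (fun ω => A.err f ω)) ≤ _
  refine iSup₂_le fun f hf => ?_
  obtain ⟨hfc, hfi, hf4, g, hw, hg, hnorm⟩ := unitBall_data ht hf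
  -- measurable versions
  let f' : (Fin 2 → ℝ) → ℝ := D.piecewise f (fun _ => 0)
  have hf'm : Measurable f' := hfc.measurable_piecewise continuousOn_const hDo.measurableSet
  have hf'e : ∀ z ∈ D, f' z = f z := fun z hz => piecewise_eq_of_mem _ _ _ hz
  let F : (Fin 2 → ℝ) → ℝ≥0∞ := fun z => ‖f' z‖ₑ ^ 4
  have hFm : Measurable F := hf'm.enorm.pow_const 4
  let g' : Fin 2 → (Fin 2 → ℝ) → ℝ := fun i => (hg i).1.mk (g i)
  have hg'm : ∀ i, Measurable (g' i) := fun i => (hg i).1.stronglyMeasurable_mk.measurable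
  have hg'e : ∀ i, g i =ᵐ[volume.restrict D] g' i := fun i => (hg i).1.ae_eq_mk
  let Gd : (Fin 2 → ℝ) → ℝ≥0∞ := fun x => ‖g' 0 x‖ₑ ^ 4 + ‖g' 1 x‖ₑ ^ 4
  have hGdm : Measurable Gd := ((hg'm 0).enorm.pow_const 4).add ((hg'm 1).enorm.pow_const 4)
  have hGde : (fun x => ‖g 0 x‖ₑ ^ 4 + ‖g 1 x‖ₑ ^ 4) =ᵐ[volume.restrict D] Gd := by
    filter_upwards [hg'e 0, hg'e 1] with x h3 h4
    rw [h3, h4]
  have hFD : ∫⁻ x in D, F x ≤ 1 := by
    have e : ∫⁻ x in D, F x = ∫⁻ x in D, ‖f x‖ₑ ^ 4 := by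
      refine setLIntegral_congr_fun hDo.measurableSet fun x hx => ?_
      simp only [F]
      rw [hf'e x hx]
    rw [e]
    exact le_self_add.trans hnorm
  have hGdD : ∫⁻ x in D, Gd x ≤ 1 := by
    rw [← lintegral_congr_ae hGde, lintegral_add_left' ((hg 0).1.enorm.pow_const 4)]
    exact le_add_self.trans hnorm
  -- the oscillation estimate
  have hosc' : ∀ i, ∀ j, ∀ x ∈ Sq (c i) (s i), ∀ z ∈ Sq (c i) (s i),
      cidx (c i) (s i) j x = cidx (c i) (s i) j z →
      ‖f z - f x‖ₑ ^ 4 ≤ aW (c i) (s i) C Gd j z := by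
    intro i j x hx z hz hxz
    have hcell := cell_subset (hs i) j hz
    have hcellD : Sq (corner (c i) (s i) j (cidx (c i) (s i) j z)) (s i / 2 ^ j) ⊆ D :=
      fun x hx => hsub i (hcell hx).1
    have h3 := hosc hDo hfc hfi hw hg (by have := hs i; positivity : 0 < s i / 2 ^ j) hcellD z
      (hsub i hz) (cell_closed (hs i) j rfl) x (hsub i hx) (cell_closed (hs i) j hxz)
    refine h3.trans ?_
    unfold aW
    refine mul_le_mul' le_rfl ?_
    have h4 : ∫⁻ x in Sq (corner (c i) (s i) j (cidx (c i) (s i) j z)) (s i / 2 ^ j),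
        (‖g 0 x‖ₑ ^ 4 + ‖g 1 x‖ₑ ^ 4)
        = ∫⁻ x in Sq (corner (c i) (s i) j (cidx (c i) (s i) j z)) (s i / 2 ^ j), Gd x :=
      lintegral_congr_ae (ae_restrict_of_ae_restrict_of_subset hcellD hGde)
    rw [h4]
    calc ∫⁻ x in Sq (corner (c i) (s i) j (cidx (c i) (s i) j z)) (s i / 2 ^ j), Gd x
        = ∫⁻ x in Sq (corner (c i) (s i) j (cidx (c i) (s i) j z)) (s i / 2 ^ j),
            (if cidx (c i) (s i) j x = cidx (c i) (s i) j z then Gd x else 0) := by
          refine setLIntegral_congr_fun (sq_open _ _).measurableSet fun x hx => ?_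
          rw [if_pos (hcell hx).2]
      _ ≤ _ := lintegral_mono_set fun x hx => (hcell hx).1
  have hfF : ∀ i, ∀ z ∈ Sq (c i) (s i), ‖f z‖ₑ ^ 4 ≤ F z := by
    intro i z hz
    simp only [F]
    rw [hf'e z (hsub i hz)]
  have hdat := fun i => hΦ i f F Gd C hC.le hFm hGdm (hfF i) (hosc' i)
  choose gg hggm hgg1 hgg2 using hdat
  set U : Set (Fin 2 → ℝ) := ⋃ i, Sq (c i) (s i) with hU
  have hUm : MeasurableSet U := MeasurableSet.iUnion fun i => (sq_open _ _).measurableSet
  have hUD : U ⊆ D := iUnion_subset hsub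
  set R : ℝ≥0∞ := ENNReal.ofReal (K ^ 4) * volume (D \ U) with hR
  -- the fourth power of the error
  have herr : ∀ ω, A.err f ω ≤ ((∑ i, gg i ω) + R) ^ (1 / 4 : ℝ) := by
    intro ω
    have h3 : A.err f ω ^ 4 ≤ (∑ i, gg i ω) + R := by
      show eLpNorm (fun z => f z - Ψ ω (fun i => f (ω i)) z) 4 (volume.restrict D) ^ 4 ≤ _
      rw [eLpNorm_four]
      have hDU : D = U ∪ (D \ U) := (union_sdiff_cancel hUD).symm
      have h4 : ∫⁻ z in D, ‖f z - Ψ ω (fun i => f (ω i)) z‖ₑ ^ 4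
          = (∫⁻ z in U, ‖f z - Ψ ω (fun i => f (ω i)) z‖ₑ ^ 4)
            + ∫⁻ z in D \ U, ‖f z - Ψ ω (fun i => f (ω i)) z‖ₑ ^ 4 := by
        conv_lhs => rw [hDU]
        exact lintegral_union (hDo.measurableSet.diff hUm) disjoint_sdiff_right
      rw [h4]
      refine add_le_add ?_ ?_
      · rw [hU, lintegral_iUnion (fun i => (sq_open _ _).measurableSet) hdisj, tsum_fintype]
        refine Finset.sum_le_sum fun i _ => le_trans (le_of_eq ?_) (hgg1 i ω)
        refine setLIntegral_congr_fun (sq_open _ _).measurableSet fun z hz => ?_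
        rw [hΨeq ω _ i z hz]
      · rw [hR]
        calc ∫⁻ z in D \ U, ‖f z - Ψ ω (fun i => f (ω i)) z‖ₑ ^ 4
            ≤ ∫⁻ _ in D \ U, ENNReal.ofReal (K ^ 4) := by
              refine setLIntegral_mono' (hDo.measurableSet.diff hUm) fun z hz => ?_
              rw [hΨ0 ω _ z hz.2, sub_zero, Real.enorm_eq_ofReal_abs,
                ← ENNReal.ofReal_pow (abs_nonneg _)]
              apply ENNReal.ofReal_le_ofReal
              exact pow_le_pow_left₀ (abs_nonneg _) (hK f hf z hz.1) 4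
          _ = _ := by rw [setLIntegral_const]
    calc A.err f ω = (A.err f ω ^ 4) ^ (1 / 4 : ℝ) := by
          rw [← ENNReal.rpow_natCast, ← ENNReal.rpow_mul]
          norm_num
      _ ≤ _ := ENNReal.rpow_le_rpow h3 (by norm_num)
  have hsm : Measurable (fun ω => (∑ i, gg i ω) + R) :=
    (Finset.measurable_fun_sum _ fun i _ => hggm i).add_const _
  refine (upperInt_le (hsm.pow_const _) herr).trans ?_
  refine (lintegral_root_le hsm).trans ?_
  refine ENNReal.rpow_le_rpow ?_ (by norm_num)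
  rw [lintegral_add_right _ measurable_const, lintegral_finsetSum _ (fun i _ => hggm i),
    lintegral_const, measure_univ, mul_one]
  -- summation
  have hsumF : ∑ i, ∫⁻ x in Sq (c i) (s i), F x ≤ 1 := by
    have e : ∑ i, ∫⁻ x in Sq (c i) (s i), F x = ∫⁻ x in U, F x := by
      rw [hU, lintegral_iUnion (fun i => (sq_open _ _).measurableSet) hdisj, tsum_fintype]
    rw [e]
    exact (lintegral_mono_set hUD).trans hFD
  have hsumG : ∑ i, ∫⁻ x in Sq (c i) (s i), Gd x ≤ 1 := by
    have e : ∑ i, ∫⁻ x in Sq (c i) (s i), Gd x = ∫⁻ x in U, Gd x := by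
      rw [hU, lintegral_iUnion (fun i => (sq_open _ _).measurableSet) hdisj, tsum_fintype]
    rw [e]
    exact (lintegral_mono_set hUD).trans hGdD
  have hterm : ∀ i, ∫⁻ ω, gg i ω ∂(Measure.pi (fun _ : Fin n => unif D)) ≤
      ENNReal.ofReal (C * (1040 / (n : ℝ) ^ 2)) * (∫⁻ x in Sq (c i) (s i), Gd x)
      + ENNReal.ofReal (1 / (n : ℝ) ^ 2) * (∫⁻ x in Sq (c i) (s i), F x) := by
    intro i
    refine (hgg2 i).trans (add_le_add (mul_le_mul' ?_ le_rfl) (mul_le_mul' ?_ le_rfl))
    · exact ENNReal.ofReal_le_ofReal (mul_le_mul_of_nonneg_left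
        (level_sum hn (hs i) (hJ1 i) (hJ2 i)) hC.le)
    · exact ENNReal.ofReal_le_ofReal (hexp i)
  calc (∑ i, ∫⁻ ω, gg i ω ∂(Measure.pi (fun _ : Fin n => unif D))) + R
      ≤ (∑ i, (ENNReal.ofReal (C * (1040 / (n : ℝ) ^ 2)) * (∫⁻ x in Sq (c i) (s i), Gd x)
        + ENNReal.ofReal (1 / (n : ℝ) ^ 2) * (∫⁻ x in Sq (c i) (s i), F x)))
        + ENNReal.ofReal (1 / (n : ℝ) ^ 2) :=
        add_le_add (Finset.sum_le_sum fun i _ => hterm i) hrest
    _ = (ENNReal.ofReal (C * (1040 / (n : ℝ) ^ 2)) * (∑ i, ∫⁻ x in Sq (c i) (s i), Gd x)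
        + ENNReal.ofReal (1 / (n : ℝ) ^ 2) * (∑ i, ∫⁻ x in Sq (c i) (s i), F x))
        + ENNReal.ofReal (1 / (n : ℝ) ^ 2) := by
        rw [Finset.sum_add_distrib, Finset.mul_sum, Finset.mul_sum]
    _ ≤ (ENNReal.ofReal (C * (1040 / (n : ℝ) ^ 2)) * 1
        + ENNReal.ofReal (1 / (n : ℝ) ^ 2) * 1)
        + ENNReal.ofReal (1 / (n : ℝ) ^ 2) :=
        add_le_add (add_le_add (mul_le_mul' le_rfl hsumG) (mul_le_mul' le_rfl hsumF)) le_rfl
    _ = ENNReal.ofReal ((1040 * C + 2) / (n : ℝ) ^ 2) := by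
        rw [mul_one, mul_one, ← ENNReal.ofReal_add (by positivity) (by positivity),
          ← ENNReal.ofReal_add (by positivity) (by positivity)]
        congr 1
        ring

end Pool.Agent.Lib.MP_961271_an
end

section
/-!
The upper bound between two scales.
-/
open MeasureTheory Set Filter Topology
open scoped ENNReal

namespace Pool.Agent.Lib.MP_961271_an

/-- Corners of the squares filling the large teeth. -/
noncomputable def cc (m K : ℕ) : Option (Fin (K + 1) × Fin m) → Fin 2 → ℝ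
  | none => 0
  | some p => ![-Lk p.1 + p.2 * (Lk p.1 / m), 1 / 4 + Lk p.1]

/-- Sides of the squares filling the large teeth. -/
noncomputable def ss (m K : ℕ) : Option (Fin (K + 1) × Fin m) → ℝ
  | none => 1
  | some p => Lk p.1 / m

theorem mem_some {m K : ℕ} {p : Fin (K + 1) × Fin m} {x : Fin 2 → ℝ} :
    x ∈ Sq (cc m K (some p)) (ss m K (some p)) ↔
      (-Lk p.1 + p.2 * (Lk p.1 / m) < x 0 ∧ x 0 < -Lk p.1 + p.2 * (Lk p.1 / m) + Lk p.1 / m) ∧
      1 / 4 + Lk p.1 < x 1 ∧ x 1 < 1 / 4 + Lk p.1 + Lk p.1 / m := by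
  unfold Sq cc ss
  simp [Fin.forall_fin_two]

theorem some_subset_Rk {m K : ℕ} (hm : 1 ≤ m) (p : Fin (K + 1) × Fin m) :
    Sq (cc m K (some p)) (ss m K (some p)) ⊆ Rk m p.1 := by
  intro x hx
  rw [mem_some] at hx
  rw [mem_Rk]
  have hm' : (1 : ℝ) ≤ m := by exact_mod_cast hm
  have hL := Lk_pos p.1
  have hp : ((p.2 : ℕ) : ℝ) + 1 ≤ m := by exact_mod_cast p.2.2
  have h1 : 0 ≤ ((p.2 : ℕ) : ℝ) * (Lk p.1 / m) := by positivity
  have h2 : (((p.2 : ℕ) : ℝ) + 1) * (Lk p.1 / m) ≤ m * (Lk p.1 / m) :=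
    mul_le_mul_of_nonneg_right hp (by positivity)
  have h3 : (m : ℝ) * (Lk p.1 / m) = Lk p.1 := by field_simp
  rw [h3] at h2
  exact ⟨⟨by linarith [hx.1.1], by linarith [hx.1.2]⟩, hx.2⟩

theorem sq_sub {m K : ℕ} (hm : 1 ≤ m) (i : Option (Fin (K + 1) × Fin m)) :
    Sq (cc m K i) (ss m K i) ⊆ Dom m := by
  cases i with
  | none => exact subset_union_left
  | some p => exact (some_subset_Rk hm p).trans (Rk_subset m _)

theorem sq_disj {m K : ℕ} (hm : 1 ≤ m) : Pairwise (fun i j : Option (Fin (K + 1) × Fin m) =>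
    Disjoint (Sq (cc m K i) (ss m K i)) (Sq (cc m K j) (ss m K j))) := by
  have hns : ∀ p : Fin (K + 1) × Fin m, Disjoint (Sq (cc m K none) (ss m K none))
      (Sq (cc m K (some p)) (ss m K (some p))) := by
    intro p
    rw [Set.disjoint_left]
    intro x hx hx'
    have h1 : x ∈ Sq 0 1 := hx
    rw [mem_sq01] at h1
    have h2 := some_subset_Rk hm p hx'
    rw [mem_Rk] at h2
    linarith [h1.1.1, h2.1.2]
  intro i j hij
  cases i with
  | none =>
    cases j with
    | none => exact absurd rfl hij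
    | some q => exact hns q
  | some p =>
    cases j with
    | none => exact (hns p).symm
    | some q =>
      rw [Set.disjoint_left]
      intro x hx hx'
      apply hij
      rw [mem_some] at hx hx'
      have h1 : (p.1 : ℕ) = q.1 :=
        height_unique hm hx.2.1.le hx.2.2.le hx'.2.1.le hx'.2.2.le
      have h1' : p.1 = q.1 := Fin.ext h1
      rw [← h1] at hx'
      have hm' : (1 : ℝ) ≤ m := by exact_mod_cast hm
      have hw : 0 < Lk p.1 / m := by have := Lk_pos p.1; positivity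
      have h2 : ((p.2 : ℕ) : ℝ) < (q.2 : ℕ) + 1 := by
        have : ((p.2 : ℕ) : ℝ) * (Lk p.1 / m) < (((q.2 : ℕ) : ℝ) + 1) * (Lk p.1 / m) := by
          linarith [hx.1.1, hx'.1.2]
        exact lt_of_mul_lt_mul_right this hw.le
      have h3 : ((q.2 : ℕ) : ℝ) < (p.2 : ℕ) + 1 := by
        have : ((q.2 : ℕ) : ℝ) * (Lk p.1 / m) < (((p.2 : ℕ) : ℝ) + 1) * (Lk p.1 / m) := by
          linarith [hx'.1.1, hx.1.2]
        exact lt_of_mul_lt_mul_right this hw.le
      have h4 : (p.2 : ℕ) = q.2 := by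
        have h2' : (p.2 : ℕ) < q.2 + 1 := by exact_mod_cast h2
        have h3' : (q.2 : ℕ) < p.2 + 1 := by exact_mod_cast h3
        omega
      rw [Prod.ext h1' (Fin.ext h4)]

theorem rest_volume {m K : ℕ} (hm : 1 ≤ m) :
    volume (Dom m \ ⋃ i : Option (Fin (K + 1) × Fin m), Sq (cc m K i) (ss m K i)) ≤
      ENNReal.ofReal (4 * Lk (K + 1) ^ 2) := by
  have hm' : (1 : ℝ) ≤ m := by exact_mod_cast hm
  have hm0 : (0 : ℝ) < m := by linarith
  set Z : Set (Fin 2 → ℝ) := ⋃ (p : ℕ × ℕ), {x | x 0 = -Lk p.1 + p.2 * (Lk p.1 / m)} with hZ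
  have hZ0 : volume Z = 0 := by
    rw [hZ, measure_iUnion_null_iff]
    intro p
    exact Measure.pi_hyperplane (fun _ : Fin 2 => (volume : Measure ℝ)) 0 _
  set T : Set (Fin 2 → ℝ) := Sqc ![-(2 * Lk (K + 1)), 1 / 4] (2 * Lk (K + 1)) with hT
  have hTv : volume T = ENNReal.ofReal (4 * Lk (K + 1) ^ 2) := by
    rw [hT, volume_sqc _ (by have := Lk_pos (K + 1); positivity)]
    congr 1
    ring
  have hsub : Dom m \ (⋃ i : Option (Fin (K + 1) × Fin m), Sq (cc m K i) (ss m K i)) ⊆ Z ∪ T := by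
    rintro x ⟨hxD, hx⟩
    rcases dom_cases hm hxD with h | ⟨h0, k, hk⟩
    · exact absurd (mem_iUnion.2 ⟨none, h⟩) hx
    · have hL := Lk_pos k
      have hw : 0 < Lk k / m := by positivity
      by_cases hkK : k ≤ K
      · left
        by_contra hxZ
        apply hx
        -- the index of the square
        set t : ℝ := (x 0 + Lk k) / (Lk k / m) with ht
        have ht0 : 0 < t := div_pos (by linarith [hk.1.1]) hw
        have htm : t ≤ m := by
          rw [ht, div_le_iff₀ hw]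
          have : (m : ℝ) * (Lk k / m) = Lk k := by field_simp
          linarith
        have hx0 : x 0 = -Lk k + t * (Lk k / m) := by
          rw [ht, div_mul_cancel₀ _ hw.ne']
          ring
        have hnt : ∀ i : ℕ, t ≠ i := by
          intro i hi
          apply hxZ
          refine mem_iUnion.2 ⟨(k, i), ?_⟩
          show x 0 = -Lk k + (i : ℝ) * (Lk k / m)
          rw [hx0, hi]
        have hfl := Nat.floor_le ht0.le
        have hfl' := Nat.lt_floor_add_one t
        have hflt : ((⌊t⌋₊ : ℕ) : ℝ) < t := lt_of_le_of_ne hfl (fun h => hnt _ h.symm)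
        have htm' : t < m := lt_of_le_of_ne htm (hnt m)
        have hi : ⌊t⌋₊ < m := by
          have : ((⌊t⌋₊ : ℕ) : ℝ) < m := lt_of_le_of_lt hfl htm'
          exact_mod_cast this
        refine mem_iUnion.2 ⟨some (⟨k, by omega⟩, ⟨⌊t⌋₊, hi⟩), ?_⟩
        rw [mem_some]
        refine ⟨⟨?_, ?_⟩, hk.2⟩
        · show -Lk k + ((⌊t⌋₊ : ℕ) : ℝ) * (Lk k / m) < x 0
          rw [hx0]
          linarith [mul_lt_mul_of_pos_right hflt hw]
        · show x 0 < -Lk k + ((⌊t⌋₊ : ℕ) : ℝ) * (Lk k / m) + Lk k / m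
          rw [hx0]
          linarith [mul_lt_mul_of_pos_right hfl' hw]
      · right
        have h1 : Lk k ≤ Lk (K + 1) := Lk_anti (by omega)
        have h2 : Lk k / m ≤ Lk k := div_le_self hL.le hm'
        rw [hT]
        unfold Sqc
        rw [mem_univ_pi, Fin.forall_fin_two]
        simp only [Matrix.cons_val_zero, Matrix.cons_val_one, mem_Icc]
        refine ⟨⟨by linarith [hk.1.1], by linarith⟩, by linarith [hk.2.1], by linarith [hk.2.2]⟩
  calc volume (Dom m \ ⋃ i : Option (Fin (K + 1) × Fin m), Sq (cc m K i) (ss m K i))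
      ≤ volume (Z ∪ T) := measure_mono hsub
    _ ≤ volume Z + volume T := measure_union_le _ _
    _ = ENNReal.ofReal (4 * Lk (K + 1) ^ 2) := by rw [hZ0, hTv, zero_add]

theorem upper_teeth : ∃ C₀ : ℝ, 0 < C₀ ∧ ∀ m : ℕ, 1 ≤ m → ∀ᶠ K : ℕ in atTop,
    minErr Crit.ran (Dom m) 1 4 4 (256 ^ 5 ^ K) ≤
      ENNReal.ofReal (C₀ / ((256 ^ 5 ^ K : ℕ) : ℝ) ^ 2) ^ (1 / 4 : ℝ) := by
  obtain ⟨C₀, hC₀, hmain⟩ := upper_main
  refine ⟨C₀, hC₀, fun m hm => ?_⟩
  have hm' : (1 : ℝ) ≤ m := by exact_mod_cast hm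
  have hm0 : (0 : ℝ) < m := by linarith
  obtain ⟨Ke, hKe0, hKe⟩ := embed_boxes (ρ := 1 / (32 * m)) (by positivity) (by
    rw [div_le_one (by positivity)]
    linarith)
  have hDt : volume (Dom m) ≠ ⊤ := ((dom_volume_le hm).trans_lt (by norm_num)).ne
  have hD0 : volume (Dom m) ≠ 0 := (zero_lt_one.trans_le (one_le_dom_volume m)).ne'
  have hKe' := hKe (Dom m) (dom_open m) hDt (dom_sees hm)
  -- the scale is small enough
  set A : ℝ := 4 * Ke ^ 4 + 3840 * m ^ 10 with hA
  have hA0 : 0 < A := by positivity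
  have hLlim : Tendsto Lk atTop (𝓝 0) := by
    have h1 : Tendsto (fun k : ℕ => (1 / 4 : ℝ) ^ k) atTop (𝓝 0) :=
      tendsto_pow_atTop_nhds_zero_of_lt_one (by norm_num) (by norm_num)
    refine h1.comp (tendsto_pow_atTop_atTop_of_one_lt (by norm_num : 1 < 5))
  have hev : ∀ᶠ K : ℕ in atTop, A * Lk K ^ 2 ≤ 1 := by
    have h1 : Tendsto (fun K => A * Lk K ^ 2) atTop (𝓝 (A * 0 ^ 2)) :=
      (hLlim.pow 2).const_mul A
    have h2 : A * (0 : ℝ) ^ 2 < 1 := by simp
    filter_upwards [h1.eventually (gt_mem_nhds h2)] with K hK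
    exact hK.le
  filter_upwards [hev] with K hK
  have hL := Lk_pos K
  have hL4 := Lk_le K
  have hKA1 : 4 * Ke ^ 4 * Lk K ^ 2 ≤ 1 := by
    have : 0 ≤ 3840 * (m : ℝ) ^ 10 * Lk K ^ 2 := by positivity
    rw [hA] at hK
    nlinarith
  have hKA2 : 3840 * (m : ℝ) ^ 10 * Lk K ^ 2 ≤ 1 := by
    have : 0 ≤ 4 * Ke ^ 4 * Lk K ^ 2 := by positivity
    rw [hA] at hK
    nlinarith
  have hn : ((256 ^ 5 ^ K : ℕ) : ℝ) = (Lk K ^ 4)⁻¹ := by
    unfold Lk
    push_cast
    rw [← pow_mul, mul_comm, pow_mul, one_div, inv_pow, inv_pow, inv_inv]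
    norm_num
  set n : ℕ := 256 ^ 5 ^ K with hnd
  have hsge : ∀ i : Option (Fin (K + 1) × Fin m), Lk K / m ≤ ss m K i := by
    intro i
    cases i with
    | none =>
      show Lk K / m ≤ 1
      rw [div_le_one hm0]
      linarith
    | some p =>
      show Lk K / m ≤ Lk p.1 / m
      have := Lk_anti (k := p.1) (l := K) (by omega)
      gcongr
  have hspos : ∀ i : Option (Fin (K + 1) × Fin m), 0 < ss m K i := fun i =>
    lt_of_lt_of_le (by positivity) (hsge i)
  have hY : ∀ i : Option (Fin (K + 1) × Fin m), 1 / (Lk K ^ 2 * m ^ 2) ≤ n * ss m K i ^ 2 := by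
    intro i
    rw [hn]
    calc 1 / (Lk K ^ 2 * m ^ 2) = (Lk K ^ 4)⁻¹ * (Lk K / m) ^ 2 := by field_simp
      _ ≤ _ := by
        have := hsge i
        gcongr
  refine hmain (Dom m) (dom_open m) hD0 (dom_volume_le hm) Ke hKe0 hKe'
    (Option (Fin (K + 1) × Fin m)) (cc m K) (ss m K) hspos (sq_sub hm) (sq_disj hm) n
    (Nat.one_le_pow _ _ (by norm_num)) ?_ ?_ ?_
  · intro i
    refine le_trans ?_ (hY i)
    rw [le_div_iff₀ (by positivity), one_mul]
    have h1 : (m : ℝ) ^ 2 ≤ 3840 * m ^ 10 := by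
      have : (1 : ℝ) ≤ m ^ 8 := one_le_pow₀ hm'
      nlinarith [sq_nonneg (m : ℝ), mul_le_mul_of_nonneg_left this (sq_nonneg (m : ℝ))]
    nlinarith [sq_nonneg (Lk K), mul_le_mul_of_nonneg_right h1 (sq_nonneg (Lk K))]
  · intro i
    set Y : ℝ := 1 / (Lk K ^ 2 * m ^ 2) / 2 with hYd
    have hY0 : 0 < Y := by positivity
    have h1 : Real.exp (-(n * ss m K i ^ 2 / 2)) ≤ Real.exp (-Y) := by
      apply Real.exp_le_exp.2
      have := hY i
      rw [hYd]
      linarith
    have h2 : Real.exp (-Y) ≤ 120 / Y ^ 5 := by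
      have h3 := Real.pow_div_factorial_le_exp Y hY0.le 5
      have h4 : ((Nat.factorial 5 : ℕ) : ℝ) = 120 := by norm_num [Nat.factorial]
      rw [h4] at h3
      rw [Real.exp_neg, inv_eq_one_div, div_le_div_iff₀ (Real.exp_pos _) (by positivity)]
      rw [div_le_iff₀ (by norm_num)] at h3
      linarith
    have h5 : 120 / Y ^ 5 = 3840 * m ^ 10 * Lk K ^ 10 := by
      rw [hYd]
      field_simp
      norm_num
    have h6 : 1 / (n : ℝ) ^ 2 = Lk K ^ 8 := by
      rw [hn]
      field_simp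
    rw [h6]
    calc Real.exp (-(n * ss m K i ^ 2 / 2)) ≤ 3840 * m ^ 10 * Lk K ^ 10 := by
          rw [← h5]; exact h1.trans h2
      _ = (3840 * m ^ 10 * Lk K ^ 2) * Lk K ^ 8 := by ring
      _ ≤ 1 * Lk K ^ 8 := by gcongr
      _ = Lk K ^ 8 := one_mul _
  · have h6 : 1 / (n : ℝ) ^ 2 = Lk K ^ 8 := by
      rw [hn]
      field_simp
    rw [h6]
    refine (mul_le_mul' le_rfl (rest_volume hm)).trans ?_
    rw [← ENNReal.ofReal_mul (by positivity)]
    apply ENNReal.ofReal_le_ofReal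
    rw [Lk_succ]
    calc Ke ^ 4 * (4 * (Lk K ^ 5) ^ 2) = (4 * Ke ^ 4 * Lk K ^ 2) * Lk K ^ 8 := by ring
      _ ≤ 1 * Lk K ^ 8 := by gcongr
      _ = Lk K ^ 8 := one_mul _

end Pool.Agent.Lib.MP_961271_an
end
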